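import Pool.Agent.W5h37.Thin.Core

/-!
# Sets of integers with restricted digits are spread out along arithmetic progressions
-/

set_option autoImplicit false

namespace Pool.Agent.W5h37.Thin

open Finset Filter

/-- The integers `t < g ^ l` whose digit number `i` (from the right, starting with `i = 0`) in base
`g` is in `D (k + i)` for all `i < l`; leading zeros count as digits. -/
def Dig (g : ℕ) (D : ℕ → Finset ℕ) (k l : ℕ) : Finset ℕ :=
  (Finset.range (g ^ l)).filter fun t => ∀ i < l, t / g ^ i % g ∈ D (k + i)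

variable {g : ℕ} {D : ℕ → Finset ℕ}

lemma dig_succ (hg : 2 ≤ g) (hD : ∀ i, D i ⊆ Finset.range g) (k l : ℕ) :
    Dig g D k (l + 1) = (D k ×ˢ Dig g D (k + 1) l).image fun w => w.1 + g * w.2 := by
  have hg0 : 0 < g := by omega
  ext t
  simp only [Dig, Finset.mem_filter, Finset.mem_range, Finset.mem_image, Finset.mem_product,
    Prod.exists]
  constructor
  · rintro ⟨h1, h2⟩
    refine ⟨t % g, t / g, ⟨?_, ?_, ?_⟩, Nat.mod_add_div t g⟩
    · have := h2 0 (by omega)
      simpa using this
    · rw [Nat.div_lt_iff_lt_mul hg0, ← pow_succ]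
      exact h1
    · intro i hi
      have := h2 (i + 1) (by omega)
      rw [pow_succ', ← Nat.div_div_eq_div_mul] at this
      rwa [show k + 1 + i = k + (i + 1) by ring]
  · rintro ⟨s, r, ⟨hs, hr, h3⟩, rfl⟩
    have hsg : s < g := Finset.mem_range.1 (hD k hs)
    have hdiv : (s + g * r) / g = r := by
      rw [Nat.add_mul_div_left _ _ hg0, Nat.div_eq_of_lt hsg, zero_add]
    refine ⟨?_, ?_⟩
    · rw [pow_succ']
      calc s + g * r < g + g * r := by omega
        _ = g * (r + 1) := by ring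
        _ ≤ g * g ^ l := Nat.mul_le_mul_left _ hr
    · intro i hi
      rcases i with _ | i
      · simp only [pow_zero, Nat.div_one, add_zero, Nat.add_mul_mod_self_left]
        rwa [Nat.mod_eq_of_lt hsg]
      · rw [pow_succ', ← Nat.div_div_eq_div_mul, hdiv]
        have := h3 i (by omega)
        rwa [show k + 1 + i = k + (i + 1) by ring] at this

lemma card_dig (hg : 2 ≤ g) (hD : ∀ i, D i ⊆ Finset.range g) (l : ℕ) :
    ∀ k, (Dig g D k l).card = ∏ i ∈ Finset.range l, (D (k + i)).card := by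
  have hg0 : 0 < g := by omega
  induction l with
  | zero =>
      intro k
      simp [Dig]
  | succ l ih =>
      intro k
      rw [dig_succ hg hD, Finset.card_image_of_injOn, Finset.card_product, ih (k + 1),
        Finset.prod_range_succ']
      · rw [mul_comm]
        congr 1
        refine Finset.prod_congr rfl fun i _ => ?_
        rw [show k + 1 + i = k + (i + 1) by ring]
      · rintro ⟨s, r⟩ h1 ⟨s', r'⟩ h2 h
        simp only [Finset.coe_product, Set.mem_prod, Finset.mem_coe] at h1 h2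
        have hs : s < g := Finset.mem_range.1 (hD k h1.1)
        have hs' : s' < g := Finset.mem_range.1 (hD k h2.1)
        simp only at h
        have e1 : (s + g * r) / g = r := by
          rw [Nat.add_mul_div_left _ _ hg0, Nat.div_eq_of_lt hs, zero_add]
        have e2 : (s' + g * r') / g = r' := by
          rw [Nat.add_mul_div_left _ _ hg0, Nat.div_eq_of_lt hs', zero_add]
        have e3 : (s + g * r) % g = s := by
          rw [Nat.add_mul_mod_self_left, Nat.mod_eq_of_lt hs]
        have e4 : (s' + g * r') % g = s' := by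
          rw [Nat.add_mul_mod_self_left, Nat.mod_eq_of_lt hs']
        rw [Prod.mk.injEq]
        exact ⟨by rw [← e3, ← e4, h], by rw [← e1, ← e2, h]⟩

lemma mod_mem {k l m t : ℕ} (hg : 2 ≤ g) (hl : l ≤ m) (ht : t ∈ Dig g D k m) :
    t % g ^ l ∈ Dig g D k l := by
  rw [Dig, Finset.mem_filter, Finset.mem_range] at ht ⊢
  refine ⟨Nat.mod_lt _ (by positivity), fun i hi => ?_⟩
  have e : g ^ l = g ^ i * g ^ (l - i) := by rw [← pow_add]; congr 1; omega
  rw [e, Nat.mod_mul_right_div_self, Nat.mod_mod_of_dvd]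
  · exact ht.2 i (by omega)
  · exact dvd_pow_self g (by omega)

lemma div_mem {k l m t : ℕ} (hg : 2 ≤ g) (ht : t ∈ Dig g D k (l + m)) :
    t / g ^ l ∈ Dig g D (k + l) m := by
  rw [Dig, Finset.mem_filter, Finset.mem_range] at ht ⊢
  refine ⟨?_, fun i hi => ?_⟩
  · rw [Nat.div_lt_iff_lt_mul (by positivity), ← pow_add, add_comm m l]
    exact ht.1
  · rw [Nat.div_div_eq_div_mul, ← pow_add, add_assoc]
    exact ht.2 (l + i) (by omega)

lemma local_card (hg : 2 ≤ g) {k l m s M : ℕ} (hl : l ≤ m) (hM : M ≤ g ^ l) (S : Finset ℕ)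
    (hS : S ⊆ Dig g D k m) (hS2 : ∀ t ∈ S, s ≤ t ∧ t < s + M) :
    S.card ≤ 2 * (Dig g D k l).card := by
  have hgl : 0 < g ^ l := by positivity
  have : S.card ≤ (Finset.range 2 ×ˢ Dig g D k l).card := by
    refine Finset.card_le_card_of_injOn (fun t => (t / g ^ l - s / g ^ l, t % g ^ l)) ?_ ?_
    · intro t ht
      have h1 := hS2 t ht
      simp only [Finset.coe_product, Set.mem_prod, Finset.mem_coe, Finset.mem_range]
      refine ⟨?_, mod_mem hg hl (hS ht)⟩
      have h2 : t / g ^ l < s / g ^ l + 2 := by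
        rw [Nat.div_lt_iff_lt_mul hgl]
        have h3 := Nat.lt_div_mul_add hgl (a := s)
        calc t < s + M := h1.2
          _ ≤ s + g ^ l := by omega
          _ ≤ (s / g ^ l + 2) * g ^ l := by
              rw [add_mul]
              omega
      omega
    · intro t ht t' ht' h
      simp only [Prod.mk.injEq] at h
      have h1 := (hS2 t ht).1
      have h1' := (hS2 t' ht').1
      have h2 : s / g ^ l ≤ t / g ^ l := Nat.div_le_div_right h1
      have h2' : s / g ^ l ≤ t' / g ^ l := Nat.div_le_div_right h1'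
      have h3 : t / g ^ l = t' / g ^ l := by omega
      rw [← Nat.div_add_mod t (g ^ l), ← Nat.div_add_mod t' (g ^ l), h3, h.2]
  rwa [Finset.card_product, Finset.card_range] at this

lemma card_split (hg : 2 ≤ g) (hD : ∀ i, D i ⊆ Finset.range g) (k l m : ℕ) :
    (Dig g D k (l + m)).card = (Dig g D k l).card * (Dig g D (k + l) m).card := by
  rw [card_dig hg hD, card_dig hg hD, card_dig hg hD, Finset.prod_range_add]
  congr 1
  refine Finset.prod_congr rfl fun i _ => ?_
  rw [add_assoc]

lemma card_lower (hg : 2 ≤ g) (hD : ∀ i, D i ⊆ Finset.range g) {θ : ℝ}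
    (hD2 : ∀ i, (g : ℝ) ^ θ ≤ (D i).card) (k l : ℕ) :
    ((g : ℝ) ^ l) ^ θ ≤ (Dig g D k l).card := by
  rw [card_dig hg hD]
  push_cast
  have hg0 : (0 : ℝ) < g := by exact_mod_cast (by omega : 0 < g)
  have : ((g : ℝ) ^ l) ^ θ = ∏ i ∈ Finset.range l, (g : ℝ) ^ θ := by
    rw [Finset.prod_const, Finset.card_range, ← Real.rpow_natCast, ← Real.rpow_mul hg0.le,
      mul_comm, Real.rpow_mul hg0.le, Real.rpow_natCast]
  rw [this]
  exact Finset.prod_le_prod (fun i _ => by positivity) fun i _ => hD2 _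

/-- the positive integers below `g ^ n` with restricted digits -/
def Restricted (g : ℕ) (D : ℕ → Finset ℕ) (n : ℕ) : Finset ℕ :=
  (Finset.range (g ^ n)).filter fun a => a ≠ 0 ∧ ∀ i < n, a / g ^ i % g ∈ D i

lemma restricted_sub (n : ℕ) : Restricted g D n ⊆ Dig g D 0 n := by
  intro a ha
  rw [Restricted, Finset.mem_filter] at ha
  rw [Dig, Finset.mem_filter]
  refine ⟨ha.1, fun i hi => ?_⟩
  rw [zero_add]
  exact ha.2.2 i hi

lemma dig_sub (n : ℕ) : Dig g D 0 n ⊆ insert 0 (Restricted g D n) := by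
  intro a ha
  rw [Dig, Finset.mem_filter] at ha
  rw [Finset.mem_insert, Restricted, Finset.mem_filter]
  by_cases h0 : a = 0
  · exact Or.inl h0
  · right
    refine ⟨ha.1, h0, fun i hi => ?_⟩
    have := ha.2 i hi
    rwa [zero_add] at this

lemma aux1 {S F₁ F₂ F₃ x y z : ℝ} (hS : 0 ≤ S) (h1 : 0 ≤ F₁) (h2 : 0 ≤ F₂) (hx : 0 ≤ x)
    (hy : 0 ≤ y) (hz : 0 ≤ z) (k1 : S ≤ 2 * F₂) (k2 : x ≤ F₁) (k3 : z ≤ F₃) :
    S * (x * (y * z)) ≤ 2 * (F₁ * (F₂ * F₃)) * y := by
  calc S * (x * (y * z)) ≤ (2 * F₂) * (F₁ * (y * F₃)) := by gcongr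
    _ = _ := by ring

lemma aux2 {S F₁ F₂ x y z : ℝ} (hS : 0 ≤ S) (h1 : 0 ≤ F₁) (h2 : 0 ≤ F₂) (hx : 0 ≤ x)
    (hy : 0 ≤ y) (k1 : S ≤ F₂) (k2 : x ≤ F₁) (k3 : y ≤ z) :
    S * (x * y) ≤ 2 * (F₁ * F₂) * z := by
  have hz : 0 ≤ z := hy.trans k3
  have h3 : 0 ≤ F₂ * (F₁ * z) := by positivity
  calc S * (x * y) ≤ F₂ * (F₁ * z) := by gcongr
    _ ≤ 2 * (F₂ * (F₁ * z)) := by linarith
    _ = _ := by ring

lemma aux3 {S F A x y z : ℝ} (hz : 0 ≤ z) (hA : 0 ≤ A) (hF : F ≤ 2 * A)
    (hy : y ≤ z) (hy0 : 0 ≤ y) (key : S * x ≤ 2 * F * y) : S * x ≤ 4 * A * z := by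
  calc S * x ≤ 2 * F * y := key
    _ ≤ 2 * (2 * A) * z := by gcongr
    _ = _ := by ring

theorem spread_digits (hg : 2 ≤ g) (hD : ∀ i, D i ⊆ Finset.range g) {θ : ℝ} (hθ0 : 0 < θ)
    (hθ1 : θ ≤ 1) (hD2 : ∀ i, (g : ℝ) ^ θ ≤ (D i).card) {n : ℕ} (hn : 1 ≤ n) :
    Spread (g ^ n) θ (4 * (g : ℝ) ^ 2) (Restricted g D n) := by
  have hg0 : (0 : ℝ) < g := by exact_mod_cast (by omega : 0 < g)
  have hg1 : (1 : ℝ) < g := by exact_mod_cast (by omega : 1 < g)
  have hF2 : 2 ≤ (Dig g D 0 n).card := by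
    have h1 := card_lower hg hD hD2 0 n
    have h2 : (1 : ℝ) < ((g : ℝ) ^ n) ^ θ :=
      Real.one_lt_rpow (one_lt_pow₀ hg1 (by omega)) hθ0
    have h3 : (1 : ℝ) < (Dig g D 0 n).card := by linarith
    exact_mod_cast h3
  have hFA : (Dig g D 0 n).card ≤ (Restricted g D n).card + 1 :=
    (Finset.card_le_card (dig_sub n)).trans (Finset.card_insert_le _ _)
  have hFA2 : ((Dig g D 0 n).card : ℝ) ≤ 2 * (Restricted g D n).card := by
    exact_mod_cast (by omega : (Dig g D 0 n).card ≤ 2 * (Restricted g D n).card)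
  refine ⟨Finset.card_pos.1 (by omega), ?_, ?_⟩
  · intro a ha
    rw [Restricted, Finset.mem_filter, Finset.mem_range] at ha
    exact ⟨Nat.pos_of_ne_zero ha.2.1, ha.1.le⟩
  intro c d N hd hN
  set S := (Restricted g D n).filter fun a => ∃ j < N, a = c + j * d with hS
  have hSD : S ⊆ Dig g D 0 n := (Finset.filter_subset _ _).trans (restricted_sub n)
  set k := min (Nat.log g d) n with hk
  have hkn : k ≤ n := min_le_right _ _
  have hkd : g ^ k ≤ d := by
    calc g ^ k ≤ g ^ (Nat.log g d) := Nat.pow_le_pow_right (by omega) (min_le_left _ _)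
      _ ≤ d := Nat.pow_log_le_self g (by omega)
  have hgk : 0 < g ^ k := by positivity
  -- the blocks
  set R := S.image fun a => a / g ^ k with hR
  have hRc : R.card = S.card := by
    refine Finset.card_image_of_injOn ?_
    intro a ha a' ha' h
    simp only at h
    obtain ⟨j, hj, e⟩ := (Finset.mem_filter.1 ha).2
    obtain ⟨j', hj', e'⟩ := (Finset.mem_filter.1 ha').2
    have h1 := Nat.div_add_mod a (g ^ k)
    have h1' := Nat.div_add_mod a' (g ^ k)
    have h2 := Nat.mod_lt a hgk
    have h2' := Nat.mod_lt a' hgk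
    have h5 := Nat.zero_le (a % g ^ k)
    have h5' := Nat.zero_le (a' % g ^ k)
    rw [h] at h1
    -- |a - a'| < g ^ k ≤ d
    rcases lt_trichotomy j j' with hjj | hjj | hjj
    · exfalso
      have : (j + 1) * d ≤ j' * d := Nat.mul_le_mul_right _ hjj
      rw [add_mul] at this
      omega
    · rw [e, e', hjj]
    · exfalso
      have : (j' + 1) * d ≤ j * d := Nat.mul_le_mul_right _ hjj
      rw [add_mul] at this
      omega
  have hRD : R ⊆ Dig g D k (n - k) := by
    intro t ht
    obtain ⟨a, ha, rfl⟩ := Finset.mem_image.1 ht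
    have h1 := hSD ha
    have e : n = k + (n - k) := by omega
    rw [e] at h1
    have h2 := div_mem hg h1
    rwa [zero_add] at h2
  set l := Nat.clog g (N * g) with hl
  have hl1 : N * g ≤ g ^ l := Nat.le_pow_clog (by omega) _
  have hl2 : g ^ l ≤ N * g ^ 2 := by
    have h1 : 1 < N * g := by nlinarith
    have h2 : g ^ (l.pred) < N * g := Nat.pow_pred_clog_lt_self (by omega) h1
    have h3 : 0 < l := Nat.clog_pos (by omega) (by omega)
    have h4 : l = l.pred + 1 := by
      have := Nat.succ_pred_eq_of_pos h3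
      omega
    rw [h4, pow_succ]
    calc g ^ l.pred * g ≤ (N * g) * g := Nat.mul_le_mul_right _ h2.le
      _ = N * g ^ 2 := by ring
  -- the key inequality
  have key : (S.card : ℝ) * ((g : ℝ) ^ n) ^ θ ≤ 2 * (Dig g D 0 n).card * ((g : ℝ) ^ l) ^ θ := by
    by_cases hcase : k + l ≤ n
    · have hkn' : k < n ∨ l = 0 := by omega
      have hlpos : 0 < l := Nat.clog_pos (by omega) (by nlinarith)
      have hklog : k = Nat.log g d := by
        rw [hk]
        apply min_eq_left
        by_contra hcon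
        push Not at hcon
        have : k = n := by rw [hk]; exact min_eq_right hcon.le
        omega
      have hdk : d < g ^ (k + 1) := by
        rw [hklog]
        exact Nat.lt_pow_succ_log_self (by omega) d
      have h1 : R.card ≤ 2 * (Dig g D k l).card := by
        refine local_card hg (s := c / g ^ k) (M := N * g) (by omega) hl1 R hRD ?_
        intro t ht
        obtain ⟨a, ha, rfl⟩ := Finset.mem_image.1 ht
        obtain ⟨j, hj, e⟩ := (Finset.mem_filter.1 ha).2
        refine ⟨Nat.div_le_div_right (by omega), ?_⟩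
        rw [Nat.div_lt_iff_lt_mul hgk]
        have h3 := Nat.lt_div_mul_add hgk (a := c)
        have h4 : j * d ≤ (N - 1) * g * g ^ k := by
          calc j * d ≤ (N - 1) * g ^ (k + 1) := Nat.mul_le_mul (by omega) hdk.le
            _ = (N - 1) * g * g ^ k := by rw [pow_succ]; ring
        calc a = c + j * d := e
          _ < (c / g ^ k * g ^ k + g ^ k) + (N - 1) * g * g ^ k := by omega
          _ ≤ (c / g ^ k + N * g) * g ^ k := by
              obtain ⟨N', rfl⟩ : ∃ N', N = N' + 1 := ⟨N - 1, by omega⟩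
              simp only [Nat.add_sub_cancel]
              have : g ^ k ≤ g * g ^ k := Nat.le_mul_of_pos_left _ (by omega)
              calc (c / g ^ k * g ^ k + g ^ k) + N' * g * g ^ k ≤
                  (c / g ^ k * g ^ k + g * g ^ k) + N' * g * g ^ k := by omega
                _ = _ := by ring
      have e : n = k + (l + (n - k - l)) := by omega
      have h2 : (Dig g D 0 n).card = (Dig g D 0 k).card * ((Dig g D k l).card *
          (Dig g D (k + l) (n - k - l)).card) := by
        conv_lhs => rw [e]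
        rw [card_split hg hD, card_split hg hD, zero_add]
      have h3 := card_lower hg hD hD2 0 k
      have h4 := card_lower hg hD hD2 (k + l) (n - k - l)
      have e2 : ((g : ℝ) ^ n) ^ θ = ((g : ℝ) ^ k) ^ θ * (((g : ℝ) ^ l) ^ θ *
          ((g : ℝ) ^ (n - k - l)) ^ θ) := by
        rw [← Real.mul_rpow (by positivity) (by positivity),
          ← Real.mul_rpow (by positivity) (by positivity), ← pow_add, ← pow_add, ← e]
      have h5 : (S.card : ℝ) ≤ 2 * (Dig g D k l).card := by
        rw [← hRc]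
        exact_mod_cast h1
      have h6 : (((Dig g D 0 n).card : ℕ) : ℝ) = (Dig g D 0 k).card * ((Dig g D k l).card *
          (Dig g D (k + l) (n - k - l)).card) := by exact_mod_cast h2
      rw [e2, h6]
      exact aux1 (Nat.cast_nonneg _) (Nat.cast_nonneg _) (Nat.cast_nonneg _) (by positivity)
        (by positivity) (by positivity) h5 h3 h4
    · push Not at hcase
      have h1 : (S.card : ℝ) ≤ (Dig g D k (n - k)).card := by
        rw [← hRc]
        exact_mod_cast Finset.card_le_card hRD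
      have e : n = k + (n - k) := by omega
      have h2 : (Dig g D 0 n).card = (Dig g D 0 k).card * (Dig g D k (n - k)).card := by
        conv_lhs => rw [e]
        rw [card_split hg hD, zero_add]
      have h3 := card_lower hg hD hD2 0 k
      have e2 : ((g : ℝ) ^ n) ^ θ = ((g : ℝ) ^ k) ^ θ * ((g : ℝ) ^ (n - k)) ^ θ := by
        rw [← Real.mul_rpow (by positivity) (by positivity), ← pow_add, ← e]
      have h4 : ((g : ℝ) ^ (n - k)) ^ θ ≤ ((g : ℝ) ^ l) ^ θ := by
        refine Real.rpow_le_rpow (by positivity) ?_ hθ0.le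
        exact pow_le_pow_right₀ hg1.le (by omega)
      have h6 : (((Dig g D 0 n).card : ℕ) : ℝ) = (Dig g D 0 k).card *
          (Dig g D k (n - k)).card := by exact_mod_cast h2
      rw [e2, h6]
      exact aux2 (Nat.cast_nonneg _) (Nat.cast_nonneg _) (Nat.cast_nonneg _) (by positivity)
        (by positivity) h1 h3 h4
  -- conclusion
  have hXθ : 0 < ((g : ℝ) ^ n) ^ θ := by positivity
  have h7 : ((g : ℝ) ^ l) ^ θ ≤ (g : ℝ) ^ 2 * (N : ℝ) ^ θ := by
    have h8 : (g : ℝ) ^ l ≤ N * (g : ℝ) ^ 2 := by exact_mod_cast hl2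
    calc ((g : ℝ) ^ l) ^ θ ≤ (N * (g : ℝ) ^ 2) ^ θ := Real.rpow_le_rpow (by positivity) h8 hθ0.le
      _ = (N : ℝ) ^ θ * ((g : ℝ) ^ 2) ^ θ := Real.mul_rpow (by positivity) (by positivity)
      _ ≤ (N : ℝ) ^ θ * (g : ℝ) ^ 2 := by
          refine mul_le_mul_of_nonneg_left ?_ (by positivity)
          calc ((g : ℝ) ^ 2) ^ θ ≤ ((g : ℝ) ^ 2) ^ (1 : ℝ) :=
                Real.rpow_le_rpow_of_exponent_le (one_le_pow₀ hg1.le) hθ1
            _ = (g : ℝ) ^ 2 := Real.rpow_one _
      _ = _ := by ring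
  push_cast
  rw [Real.div_rpow (by positivity) (by positivity), ← mul_div_assoc, le_div_iff₀ hXθ]
  refine (aux3 (by positivity) (Nat.cast_nonneg _) hFA2 h7 (by positivity) key).trans
    (le_of_eq (by ring))

end Pool.Agent.W5h37.Thin
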