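import Pool.Agent.W5h37.Thin.Smooth

/-!
# Smooth numbers: lower bound for their number, and the conclusion
-/

set_option autoImplicit false

namespace Pool.Agent.W5h37.Thin

open Finset Filter

lemma ev_log (c r : ℝ) (hc : 0 < c) (hr : 0 < r) :
    ∀ᶠ k : ℕ in atTop, Real.log k ≤ c * (k : ℝ) ^ r := by
  have h := (isLittleO_log_rpow_atTop hr).def hc
  have h2 := tendsto_natCast_atTop_atTop (R := ℝ) |>.eventually h
  filter_upwards [h2, eventually_ge_atTop 1] with k hk hk1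
  have hk1' : (1 : ℝ) ≤ k := by exact_mod_cast hk1
  rw [Real.norm_of_nonneg (Real.log_nonneg hk1'), Real.norm_of_nonneg (by positivity)] at hk
  exact hk

lemma primes_lower {γ : ℝ} (hγ : 0 < γ) :
    ∀ᶠ k : ℕ in atTop, 2 * (k : ℝ) ^ (1 - γ) ≤ (k.primesBelow).card := by
  filter_upwards [ev_log (1 / 100) 1 (by norm_num) (by norm_num), ev_log (1 / 4) γ (by norm_num) hγ,
    eventually_ge_atTop 100] with k h1 h2 hk
  obtain ⟨n, rfl⟩ : ∃ n, k = n + 1 := ⟨k - 1, by omega⟩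
  rw [Nat.primesBelow_card_eq_primeCounting']
  have h3 := Chebyshev.pi_ge n
  have e : Nat.primeCounting' (n + 1) = Nat.primeCounting n := rfl
  rw [e]
  have hn99 : (99 : ℝ) ≤ n := by exact_mod_cast (by omega : 99 ≤ n)
  have hlogn : 0 < Real.log n := Real.log_pos (by linarith)
  have hlogn2 : Real.log n ≤ Real.log ((n + 1 : ℕ) : ℝ) :=
    Real.log_le_log (by linarith) (by push_cast; linarith)
  have hk0 : (0 : ℝ) < ((n + 1 : ℕ) : ℝ) := by positivity
  rw [Real.rpow_one] at h1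
  refine le_trans ?_ h3
  rw [le_div_iff₀ hlogn]
  have h4 : ((n + 1 : ℕ) : ℝ) / 2 ≤ n * Real.log 2 - Real.log (n + 1) := by
    have h5 := Real.log_two_gt_d9
    push_cast at h1 ⊢
    nlinarith
  refine le_trans ?_ h4
  have h6 : ((n + 1 : ℕ) : ℝ) ^ (1 - γ) * ((n + 1 : ℕ) : ℝ) ^ γ = ((n + 1 : ℕ) : ℝ) := by
    rw [← Real.rpow_add hk0]
    simp
  have h7 : 0 ≤ ((n + 1 : ℕ) : ℝ) ^ (1 - γ) := by positivity
  calc 2 * ((n + 1 : ℕ) : ℝ) ^ (1 - γ) * Real.log n ≤
      2 * ((n + 1 : ℕ) : ℝ) ^ (1 - γ) * (1 / 4 * ((n + 1 : ℕ) : ℝ) ^ γ) := by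
        refine mul_le_mul_of_nonneg_left (hlogn2.trans h2) (by positivity)
    _ = 1 / 2 * (((n + 1 : ℕ) : ℝ) ^ (1 - γ) * ((n + 1 : ℕ) : ℝ) ^ γ) := by ring
    _ = _ := by rw [h6]; ring

/-- many smooth numbers -/
lemma lower_count {γ : ℝ} (hγ : 0 < γ) (hγ4 : γ ≤ 1 / 4) :
    ∀ᶠ k : ℕ in atTop, ∀ X : ℕ, ∀ lam : ℝ, 0 ≤ lam → lam ≤ 1 / 2 → Real.log X ≤ (k : ℝ) ^ lam → k ≤ X →
      (X : ℝ) ^ (1 - lam - γ) / k ≤ (Nat.smoothNumbersUpTo X k).card := by
  filter_upwards [primes_lower hγ, eventually_ge_atTop 3] with k hπ hk3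
  intro X lam hlam0 hlam hlog hkX
  have hk3r : (3 : ℝ) ≤ k := by exact_mod_cast hk3
  have hk0 : (0 : ℝ) < k := by linarith
  have hk1 : (1 : ℝ) ≤ k := by linarith
  have hkXr : (k : ℝ) ≤ X := by exact_mod_cast hkX
  have hX0 : (0 : ℝ) < X := by linarith
  have hlogk : 1 ≤ Real.log k := by
    rw [Real.le_log_iff_exp_le hk0]
    have := Real.exp_one_lt_d9
    linarith
  have hlogkX : Real.log k ≤ Real.log X := Real.log_le_log hk0 hkXr
  set u : ℕ := ⌊Real.log X / Real.log k⌋₊ with hu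
  have hu1 : 1 ≤ u := by
    apply Nat.le_floor
    rw [Nat.cast_one, le_div_iff₀ (by linarith)]
    linarith
  have hu2 : (u : ℝ) * Real.log k ≤ Real.log X := by
    have := Nat.floor_le (by positivity : 0 ≤ Real.log X / Real.log k)
    rw [← hu] at this
    rwa [le_div_iff₀ (by linarith)] at this
  have hu3 : Real.log X < (u + 1) * Real.log k := by
    have := Nat.lt_floor_add_one (Real.log X / Real.log k)
    rw [← hu] at this
    rwa [div_lt_iff₀ (by linarith)] at this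
  have hkuX : (k : ℝ) ^ u ≤ X := by
    rw [← Real.log_le_log_iff (by positivity) hX0, Real.log_pow]
    exact hu2
  have hkuX2 : (X : ℝ) ≤ (k : ℝ) ^ (u + 1) := by
    rw [← Real.log_le_log_iff hX0 (by positivity), Real.log_pow]
    push_cast
    exact hu3.le
  have hul : (u : ℝ) ≤ (k : ℝ) ^ lam := by
    refine le_trans ?_ hlog
    have h0 : 0 ≤ (u : ℝ) := Nat.cast_nonneg _
    nlinarith
  -- the subsets
  have hinj : (Finset.powersetCard u k.primesBelow).card ≤ (Nat.smoothNumbersUpTo X k).card := by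
    refine Finset.card_le_card_of_injOn (fun s => ∏ p ∈ s, p) ?_ ?_
    · intro s hs
      rw [Finset.mem_coe, Finset.mem_powersetCard] at hs
      have hpr : ∀ p ∈ s, p.Prime := fun p hp => Nat.prime_of_mem_primesBelow (hs.1 hp)
      rw [Finset.mem_coe, Nat.mem_smoothNumbersUpTo]
      constructor
      · have h1 : ∏ p ∈ s, p ≤ k ^ s.card :=
          Finset.prod_le_pow_card s (fun p => p) k fun p hp =>
            (Nat.lt_of_mem_primesBelow (hs.1 hp)).le
        rw [hs.2] at h1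
        have h2 : k ^ u ≤ X := by exact_mod_cast hkuX
        exact h1.trans h2
      · refine Nat.mem_smoothNumbers_of_primeFactors_subset ?_ ?_
        · exact Finset.prod_ne_zero_iff.2 fun p hp => (hpr p hp).ne_zero
        · rw [Nat.primeFactors_prod hpr]
          intro p hp
          exact Finset.mem_range.2 (Nat.lt_of_mem_primesBelow (hs.1 hp))
    · intro s hs t ht h
      rw [Finset.mem_coe, Finset.mem_powersetCard] at hs ht
      have hpr : ∀ p ∈ s, p.Prime := fun p hp => Nat.prime_of_mem_primesBelow (hs.1 hp)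
      have hpr' : ∀ p ∈ t, p.Prime := fun p hp => Nat.prime_of_mem_primesBelow (ht.1 hp)
      rw [← Nat.primeFactors_prod hpr, ← Nat.primeFactors_prod hpr']
      simp only at h
      rw [h]
  rw [Finset.card_powersetCard] at hinj
  have hch := Nat.pow_le_choose (α := ℝ) u k.primesBelow.card
  have hfac : ((u.factorial : ℕ) : ℝ) ≤ (u : ℝ) ^ u := by exact_mod_cast Nat.factorial_le_pow u
  have hkl : (k : ℝ) ^ lam ≤ (k : ℝ) ^ (1 - γ) :=
    Real.rpow_le_rpow_of_exponent_le hk1 (by linarith)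
  have hπu : (k : ℝ) ^ (1 - γ) ≤ ((k.primesBelow.card + 1 - u : ℕ) : ℝ) := by
    have h1 : (u : ℝ) ≤ k.primesBelow.card := by linarith
    have h2 : u ≤ k.primesBelow.card := by exact_mod_cast h1
    rw [Nat.cast_sub (by omega)]
    push_cast
    linarith
  have hu0 : (0 : ℝ) < u := by exact_mod_cast hu1
  have hmain : ((k : ℝ) ^ u) ^ (1 - lam - γ) ≤ (Nat.smoothNumbersUpTo X k).card := by
    have e1 : ((k : ℝ) ^ u) ^ (1 - lam - γ) = ((k : ℝ) ^ (1 - γ)) ^ u / ((k : ℝ) ^ lam) ^ u := by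
      rw [← Real.rpow_natCast, ← Real.rpow_mul hk0.le, ← Real.rpow_natCast, ← Real.rpow_mul hk0.le,
        ← Real.rpow_natCast, ← Real.rpow_mul hk0.le, ← Real.rpow_sub hk0]
      congr 1
      ring
    rw [e1]
    calc ((k : ℝ) ^ (1 - γ)) ^ u / ((k : ℝ) ^ lam) ^ u ≤
        ((k.primesBelow.card + 1 - u : ℕ) : ℝ) ^ u / (u : ℝ) ^ u := by
          gcongr
      _ ≤ ((k.primesBelow.card + 1 - u : ℕ) : ℝ) ^ u / (u.factorial : ℝ) := by
          gcongr
      _ ≤ (k.primesBelow.card.choose u : ℝ) := hch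
      _ ≤ _ := by exact_mod_cast hinj
  refine le_trans ?_ hmain
  have hexp0 : 0 ≤ 1 - lam - γ := by linarith
  have h1 : (X : ℝ) ^ (1 - lam - γ) ≤ ((k : ℝ) ^ (u + 1)) ^ (1 - lam - γ) :=
    Real.rpow_le_rpow hX0.le hkuX2 hexp0
  rw [div_le_iff₀ hk0]
  refine h1.trans ?_
  rw [pow_succ, Real.mul_rpow (by positivity) hk0.le]
  refine mul_le_mul_of_nonneg_left ?_ (by positivity)
  calc (k : ℝ) ^ (1 - lam - γ) ≤ (k : ℝ) ^ (1 : ℝ) :=
        Real.rpow_le_rpow_of_exponent_le hk1 (by linarith)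
    _ = k := Real.rpow_one _

/-- not too many smooth numbers -/
lemma upper_count {κ γ : ℝ} (hκ : 2 < κ) (hγ : 0 < γ) (hγ4 : γ ≤ 1 / 4) :
    ∀ᶠ X : ℕ in atTop, ∀ k : ℕ, ∀ lam : ℝ, 0 ≤ lam → lam ≤ 1 / 2 → Real.log X = (k : ℝ) ^ lam →
      (Real.log X) ^ κ ≤ k → (k : ℝ) ≤ (X : ℝ) ^ γ → ∀ N : ℕ, 1 ≤ N → N ≤ X →
      ((Nat.smoothNumbersUpTo (N * k) k).card : ℝ) ≤ (X : ℝ) ^ (5 * γ) * (N : ℝ) ^ (1 - lam) := by
  obtain ⟨Z, hZ⟩ : ∃ Z, Z = ∑' n : ℕ, 1 / (n : ℝ) ^ (1 + γ) := ⟨_, rfl⟩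
  have hZ0 : 0 ≤ Z := by rw [hZ]; exact tsum_nonneg fun n => by positivity
  have hlogtop : Tendsto (fun X : ℕ => Real.log (X : ℝ)) atTop atTop :=
    Real.tendsto_log_atTop.comp tendsto_natCast_atTop_atTop
  filter_upwards [hlogtop.eventually_ge_atTop (4 * Z / γ), hlogtop.eventually_ge_atTop 1,
    ((tendsto_rpow_atTop (by positivity : 0 < κ * γ)).comp hlogtop).eventually_ge_atTop (4 * Z / γ),
    eventually_ge_atTop 1] with X hX1 hX2 hX3 hX4
  intro k lam hl0 hl1 hlog hk1 hk2 N hN hNX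
  have hX1r : (1 : ℝ) ≤ X := by exact_mod_cast hX4
  have hX0 : (0 : ℝ) < X := by linarith
  have hL0 : 0 < Real.log X := by linarith
  have hk0 : (0 : ℝ) < k := lt_of_lt_of_le (by positivity) hk1
  have hkr : (1 : ℝ) ≤ k := by
    have : 0 < k := by exact_mod_cast hk0
    exact_mod_cast this
  have hN0 : (0 : ℝ) < N := by exact_mod_cast hN
  have hN1 : (1 : ℝ) ≤ N := by exact_mod_cast hN
  have hNXr : (N : ℝ) ≤ X := by exact_mod_cast hNX
  obtain ⟨σ, hσ⟩ : ∃ σ, σ = 1 - lam + 2 * γ := ⟨_, rfl⟩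
  have hσ1 : 1 / 2 ≤ σ := by rw [hσ]; linarith
  have h1 := rankin (by linarith : 0 < σ) (N * k) k
  have h2 := euler_le hσ1 k
  have h3 := primes_sum (σ := σ) hγ k
  rw [← hZ] at h3
  -- the exponential factor
  have h4 : 4 * ∑ p ∈ k.primesBelow, (p : ℝ) ^ (-σ) ≤ γ * Real.log X := by
    have e : (k : ℝ) ^ (1 - σ + γ) = Real.log X * ((k : ℝ) ^ γ)⁻¹ := by
      rw [hlog, ← Real.rpow_neg hk0.le, ← Real.rpow_add hk0]
      congr 1
      rw [hσ]
      ring
    have h5 : 4 * (max 1 ((k : ℝ) ^ (1 - σ + γ)) * Z) ≤ γ * Real.log X := by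
      rcases le_total 1 ((k : ℝ) ^ (1 - σ + γ)) with h | h
      · rw [max_eq_right h, e]
        have h6 : 4 * Z / γ ≤ (k : ℝ) ^ γ := by
          refine hX3.trans ?_
          show (Real.log X) ^ (κ * γ) ≤ (k : ℝ) ^ γ
          rw [Real.rpow_mul hL0.le]
          exact Real.rpow_le_rpow (by positivity) hk1 hγ.le
        have hkγ : 0 < (k : ℝ) ^ γ := by positivity
        rw [div_le_iff₀ hγ] at h6
        have h7 : 4 * Z * ((k : ℝ) ^ γ)⁻¹ ≤ γ := by
          rw [← div_eq_mul_inv, div_le_iff₀ hkγ]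
          linarith
        calc 4 * (Real.log X * ((k : ℝ) ^ γ)⁻¹ * Z) = Real.log X * (4 * Z * ((k : ℝ) ^ γ)⁻¹) := by
              ring
          _ ≤ Real.log X * γ := mul_le_mul_of_nonneg_left h7 hL0.le
          _ = _ := by ring
      · rw [max_eq_left h, one_mul]
        rw [div_le_iff₀ hγ] at hX1
        linarith
    calc 4 * ∑ p ∈ k.primesBelow, (p : ℝ) ^ (-σ) ≤ 4 * (max 1 ((k : ℝ) ^ (1 - σ + γ)) * Z) := by
          linarith
      _ ≤ _ := h5
  have h5 : Real.exp (4 * ∑ p ∈ k.primesBelow, (p : ℝ) ^ (-σ)) ≤ (X : ℝ) ^ γ := by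
    rw [Real.rpow_def_of_pos hX0, mul_comm (Real.log X)]
    exact Real.exp_le_exp.2 h4
  have h6 : (((N * k : ℕ) : ℝ)) ^ σ ≤ (N : ℝ) ^ (1 - lam) * (X : ℝ) ^ (2 * γ) *
      (X : ℝ) ^ (2 * γ) := by
    push_cast
    rw [Real.mul_rpow hN0.le hk0.le]
    have e : (N : ℝ) ^ σ = (N : ℝ) ^ (1 - lam) * (N : ℝ) ^ (2 * γ) := by
      rw [← Real.rpow_add hN0, hσ]
    rw [e]
    have h7 : (N : ℝ) ^ (2 * γ) ≤ (X : ℝ) ^ (2 * γ) :=
      Real.rpow_le_rpow hN0.le hNXr (by positivity)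
    have h8 : (k : ℝ) ^ σ ≤ (X : ℝ) ^ (2 * γ) := by
      calc (k : ℝ) ^ σ ≤ (k : ℝ) ^ (2 : ℝ) :=
            Real.rpow_le_rpow_of_exponent_le hkr (by rw [hσ]; linarith)
        _ ≤ ((X : ℝ) ^ γ) ^ (2 : ℝ) := Real.rpow_le_rpow hk0.le hk2 (by norm_num)
        _ = (X : ℝ) ^ (2 * γ) := by
            rw [← Real.rpow_mul hX0.le]
            congr 1
            ring
    gcongr
  calc ((Nat.smoothNumbersUpTo (N * k) k).card : ℝ) ≤
      (((N * k : ℕ) : ℝ)) ^ σ * ∏ p ∈ k.primesBelow, (1 - (p : ℝ) ^ (-σ))⁻¹ := h1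
    _ ≤ ((N : ℝ) ^ (1 - lam) * (X : ℝ) ^ (2 * γ) * (X : ℝ) ^ (2 * γ)) * (X : ℝ) ^ γ := by
        refine mul_le_mul h6 (h2.trans h5) ?_ (by positivity)
        refine Finset.prod_nonneg fun p hp => ?_
        have hp1 : (1 : ℝ) < p := by exact_mod_cast (Nat.prime_of_mem_primesBelow hp).one_lt
        have : (p : ℝ) ^ (-σ) < 1 := Real.rpow_lt_one_of_one_lt_of_neg hp1 (by linarith)
        exact inv_nonneg.2 (by linarith)
    _ = (X : ℝ) ^ (5 * γ) * (N : ℝ) ^ (1 - lam) := by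
        have e : (X : ℝ) ^ (5 * γ) = (X : ℝ) ^ (2 * γ) * (X : ℝ) ^ (2 * γ) * (X : ℝ) ^ γ := by
          rw [← Real.rpow_add hX0, ← Real.rpow_add hX0]
          congr 1
          ring
        rw [e]
        ring

lemma trivial_large {X : ℕ} {θ K : ℝ} {A S : Finset ℕ} {N : ℕ} (hX : 1 ≤ X) (hθ : 0 ≤ θ)
    (hK : 1 ≤ K) (hSA : S ⊆ A) (hN : X ≤ N) :
    (S.card : ℝ) ≤ K * A.card * ((N : ℝ) / X) ^ θ := by
  have hX0 : (0 : ℝ) < X := by exact_mod_cast hX
  have h1 : (1 : ℝ) ≤ (N : ℝ) / X := by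
    rw [le_div_iff₀ hX0, one_mul]
    exact_mod_cast hN
  have h2 : (1 : ℝ) ≤ ((N : ℝ) / X) ^ θ := Real.one_le_rpow h1 hθ
  have h3 : (S.card : ℝ) ≤ A.card := by exact_mod_cast Finset.card_le_card hSA
  have h4 : (0 : ℝ) ≤ A.card := Nat.cast_nonneg _
  calc (S.card : ℝ) ≤ A.card := h3
    _ ≤ K * A.card := le_mul_of_one_le_left h4 hK
    _ ≤ K * A.card * ((N : ℝ) / X) ^ θ := le_mul_of_one_le_right (by positivity) h2

theorem spread_smooth {κ η : ℝ} (hκ : 2 < κ) (hη : 0 < η) :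
    ∀ᶠ X : ℕ in atTop, ∀ k : ℕ, (Real.log X) ^ κ ≤ k →
      Spread X (1 - 1 / κ) ((X : ℝ) ^ η) (Nat.smoothNumbersUpTo X k) := by
  obtain ⟨γ, hγ⟩ : ∃ γ, γ = min η 1 / 8 := ⟨_, rfl⟩
  have hγ0 : 0 < γ := by rw [hγ]; positivity
  have hγη : 8 * γ ≤ η := by rw [hγ]; have := min_le_left η 1; linarith
  have hγ1 : 8 * γ ≤ 1 := by rw [hγ]; have := min_le_right η 1; linarith
  have hκ0 : 0 < κ := by linarith
  have hκ2 : 1 / κ ≤ 1 / 2 := one_div_le_one_div_of_le (by norm_num) hκ.le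
  have hκ3 : 0 < 1 / κ := by positivity
  have hlogtop : Tendsto (fun X : ℕ => Real.log (X : ℝ)) atTop atTop :=
    Real.tendsto_log_atTop.comp tendsto_natCast_atTop_atTop
  obtain ⟨k₀, hk₀⟩ := eventually_atTop.1 (lower_count hγ0 (by linarith : γ ≤ 1 / 4))
  have hk0X : ∀ᶠ X : ℕ in atTop, (k₀ : ℝ) ≤ (Real.log X) ^ κ :=
    ((tendsto_rpow_atTop hκ0).comp hlogtop).eventually_ge_atTop _
  have hloglog : ∀ᶠ X : ℕ in atTop, Real.log (Real.log X) ≤ γ ^ 2 / 2 * Real.log X := by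
    have h := (isLittleO_log_rpow_atTop (by norm_num : (0 : ℝ) < 1)).def
      (by positivity : 0 < γ ^ 2 / 2)
    filter_upwards [hlogtop.eventually h, hlogtop.eventually_ge_atTop 1] with X hX hX1
    rw [Real.rpow_one, Real.norm_of_nonneg (Real.log_nonneg hX1),
      Real.norm_of_nonneg (by linarith)] at hX
    exact hX
  have hloggamma : ∀ᶠ X : ℕ in atTop, 2 * (Real.log X) ^ κ ≤ (X : ℝ) ^ γ := by
    have h := (isLittleO_log_rpow_atTop (by positivity : 0 < γ / κ)).def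
      (by positivity : (0 : ℝ) < (1 / 2) ^ (1 / κ))
    have h2 := tendsto_natCast_atTop_atTop (R := ℝ) |>.eventually h
    filter_upwards [h2, hlogtop.eventually_ge_atTop 1, eventually_ge_atTop 1] with X hX hX1 hX2
    have hX0 : (0 : ℝ) < X := by exact_mod_cast hX2
    rw [Real.norm_of_nonneg (by linarith), Real.norm_of_nonneg (by positivity)] at hX
    have h3 : (Real.log X) ^ κ ≤ (((1 / 2 : ℝ)) ^ (1 / κ) * (X : ℝ) ^ (γ / κ)) ^ κ :=
      Real.rpow_le_rpow (by linarith) hX hκ0.le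
    rw [Real.mul_rpow (by positivity) (by positivity), ← Real.rpow_mul (by norm_num),
      ← Real.rpow_mul hX0.le] at h3
    rw [one_div_mul_cancel hκ0.ne', Real.rpow_one, div_mul_cancel₀ _ hκ0.ne'] at h3
    linarith
  filter_upwards [upper_count hκ hγ0 (by linarith : γ ≤ 1 / 4), hk0X, hloglog, hloggamma,
    hlogtop.eventually_ge_atTop (Real.exp 1), ev_const 2 γ hγ0, eventually_ge_atTop 1,
    hlogtop.eventually_ge_atTop (2 * Real.log 2 / γ)] with
    X hup hk0X hloglog hlogg hlog2 hX2 hX1 hlog3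
  intro k hk
  have hX1r : (1 : ℝ) ≤ X := by exact_mod_cast hX1
  have hX0 : (0 : ℝ) < X := by linarith
  have he1 : (2.7 : ℝ) < Real.exp 1 := by have := Real.exp_one_gt_d9; linarith
  have hL1 : 1 ≤ Real.log X := by linarith
  have hL0 : 0 < Real.log X := by linarith
  have hLL1 : 1 ≤ Real.log (Real.log X) := by
    rw [Real.le_log_iff_exp_le hL0]
    exact hlog2
  have hp : ∀ s t : ℝ, (X : ℝ) ^ s * (X : ℝ) ^ t = (X : ℝ) ^ (s + t) :=
    fun s t => (Real.rpow_add hX0 s t).symm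
  have hmono : ∀ s t : ℝ, s ≤ t → (X : ℝ) ^ s ≤ (X : ℝ) ^ t :=
    fun s t => Real.rpow_le_rpow_of_exponent_le hX1r
  -- facts about every admissible `m ≤ X ^ γ`
  have hlow : ∀ m : ℕ, (Real.log X) ^ κ ≤ m → (m : ℝ) ≤ (X : ℝ) ^ γ → ∃ lam : ℝ, 0 ≤ lam ∧
      lam ≤ 1 / κ ∧ Real.log X = (m : ℝ) ^ lam ∧
      lam * Real.log m = Real.log (Real.log X) ∧
      (X : ℝ) ^ (1 - lam - 2 * γ) ≤ (Nat.smoothNumbersUpTo X m).card := by
    intro m hm1 hm2
    have hm0 : (0 : ℝ) < m := lt_of_lt_of_le (by positivity) hm1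
    have hlogm : κ * Real.log (Real.log X) ≤ Real.log m := by
      rw [← Real.log_rpow hL0]
      exact Real.log_le_log (by positivity) hm1
    have hlogm0 : 0 < Real.log m := by
      have : 0 < κ * Real.log (Real.log X) := by positivity
      linarith
    refine ⟨Real.log (Real.log X) / Real.log m, by positivity, ?_, ?_, ?_, ?_⟩
    · rw [div_le_div_iff₀ hlogm0 hκ0]
      linarith
    · rw [Real.rpow_def_of_pos hm0, mul_div_cancel₀ _ hlogm0.ne', Real.exp_log hL0]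
    · rw [div_mul_cancel₀ _ hlogm0.ne']
    · have hlam : Real.log (Real.log X) / Real.log m ≤ 1 / 2 := by
        refine le_trans ?_ hκ2
        rw [div_le_div_iff₀ hlogm0 hκ0]
        linarith
      have e : Real.log X = (m : ℝ) ^ (Real.log (Real.log X) / Real.log m) := by
        rw [Real.rpow_def_of_pos hm0, mul_div_cancel₀ _ hlogm0.ne', Real.exp_log hL0]
      have hmk0 : k₀ ≤ m := by exact_mod_cast hk0X.trans hm1
      have hmX : m ≤ X := by
        have : (m : ℝ) ≤ (X : ℝ) ^ (1 : ℝ) := hm2.trans (hmono _ _ (by linarith))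
        rw [Real.rpow_one] at this
        exact_mod_cast this
      have h1 := hk₀ m hmk0 X _ (by positivity) hlam e.le hmX
      refine le_trans ?_ h1
      rw [le_div_iff₀ hm0]
      calc (X : ℝ) ^ (1 - Real.log (Real.log X) / Real.log m - 2 * γ) * m ≤
          (X : ℝ) ^ (1 - Real.log (Real.log X) / Real.log m - 2 * γ) * (X : ℝ) ^ γ := by gcongr
        _ = (X : ℝ) ^ (1 - Real.log (Real.log X) / Real.log m - γ) := by
            rw [hp]
            congr 1
            ring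
  have hmemX : ∀ a ∈ Nat.smoothNumbersUpTo X k, 1 ≤ a ∧ a ≤ X := by
    intro a ha
    rw [Nat.mem_smoothNumbersUpTo] at ha
    exact ⟨Nat.pos_of_ne_zero ha.2.1, ha.1⟩
  have hθ0 : 0 ≤ 1 - 1 / κ := by linarith
  have hK1 : 1 ≤ (X : ℝ) ^ η := Real.one_le_rpow hX1r hη.le
  by_cases hkγ : (k : ℝ) ≤ (X : ℝ) ^ γ
  · obtain ⟨lam, l0, l1, l2, l3, l4⟩ := hlow k hk hkγ
    have hApos : (0 : ℝ) < (Nat.smoothNumbersUpTo X k).card :=
      lt_of_lt_of_le (by positivity) l4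
    refine ⟨Finset.card_pos.1 (by exact_mod_cast hApos), hmemX, ?_⟩
    intro c d N hd hN
    rcases le_total X N with hXN | hNX
    · exact trivial_large hX1 hθ0 hK1 (Finset.filter_subset _ _) hXN
    set S := (Nat.smoothNumbersUpTo X k).filter fun a => ∃ j < N, a = c + j * d with hS
    have hk1 : 1 ≤ k := by
      have : (0 : ℝ) < k := lt_of_lt_of_le (by positivity) hk
      exact_mod_cast this
    have h1 : (S.card : ℝ) ≤ 2 * (Nat.smoothNumbersUpTo (N * k) k).card := by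
      exact_mod_cast prog hN hk1 hd S (fun a ha => by
        rw [hS, Finset.mem_filter, Nat.mem_smoothNumbersUpTo] at ha
        exact ⟨ha.1.2, ha.2⟩)
    have h2 := hup k lam l0 (l1.trans hκ2) l2 hk hkγ N hN hNX
    have hN0 : (0 : ℝ) < N := by exact_mod_cast hN
    have hNXr : (N : ℝ) / X ≤ 1 := by
      rw [div_le_one hX0]
      exact_mod_cast hNX
    have h3 : ((N : ℝ) / X) ^ (1 - lam) ≤ ((N : ℝ) / X) ^ (1 - 1 / κ) :=
      Real.rpow_le_rpow_of_exponent_ge (by positivity) hNXr (by linarith)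
    have h4 : (N : ℝ) ^ (1 - lam) = ((N : ℝ) / X) ^ (1 - lam) * (X : ℝ) ^ (1 - lam) := by
      rw [← Real.mul_rpow (by positivity) hX0.le, div_mul_cancel₀ _ hX0.ne']
    calc (S.card : ℝ) ≤ 2 * (Nat.smoothNumbersUpTo (N * k) k).card := h1
      _ ≤ (X : ℝ) ^ γ * ((X : ℝ) ^ (5 * γ) * (N : ℝ) ^ (1 - lam)) := by gcongr
      _ = ((X : ℝ) ^ (8 * γ) * (X : ℝ) ^ (1 - lam - 2 * γ)) * ((N : ℝ) / X) ^ (1 - lam) := by
          rw [h4, hp]
          calc (X : ℝ) ^ γ * ((X : ℝ) ^ (5 * γ) * (((N : ℝ) / X) ^ (1 - lam) *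
                (X : ℝ) ^ (1 - lam))) =
              ((X : ℝ) ^ γ * ((X : ℝ) ^ (5 * γ) * (X : ℝ) ^ (1 - lam))) *
                ((N : ℝ) / X) ^ (1 - lam) := by ring
            _ = _ := by
              rw [hp, hp]
              congr 2
              ring
      _ ≤ ((X : ℝ) ^ η * (Nat.smoothNumbersUpTo X k).card) * ((N : ℝ) / X) ^ (1 - 1 / κ) := by
          have h5 := hmono _ _ hγη
          gcongr
  · push Not at hkγ
    set m : ℕ := ⌊(X : ℝ) ^ γ⌋₊ with hm
    have hm1 : (m : ℝ) ≤ (X : ℝ) ^ γ := Nat.floor_le (by positivity)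
    have hXγ1 : 1 ≤ (X : ℝ) ^ γ := by linarith
    have hm1' : 1 ≤ m := Nat.le_floor (by simpa using hXγ1)
    have hm2 : (X : ℝ) ^ γ ≤ 2 * m := by
      have h1 := (Nat.lt_floor_add_one ((X : ℝ) ^ γ)).le
      rw [← hm] at h1
      have h2 : (1 : ℝ) ≤ m := by exact_mod_cast hm1'
      linarith
    have hm3 : (Real.log X) ^ κ ≤ m := by linarith
    obtain ⟨lam, l0, l1, l2, l3, l4⟩ := hlow m hm3 hm1
    have hm0 : (0 : ℝ) < m := by exact_mod_cast hm1'
    have hlogm : γ / 2 * Real.log X ≤ Real.log m := by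
      have h1 := Real.log_le_log (by positivity) hm2
      rw [Real.log_rpow hX0, Real.log_mul (by norm_num) hm0.ne'] at h1
      have h2 : Real.log 2 ≤ γ / 2 * Real.log X := by
        rw [div_le_iff₀ hγ0] at hlog3
        linarith
      linarith
    have hlam : lam ≤ γ := by
      by_contra hcon
      push Not at hcon
      have h1 : γ * (γ / 2 * Real.log X) < lam * Real.log m := by
        have h2 : 0 < γ / 2 * Real.log X := by positivity
        nlinarith
      rw [l3] at h1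
      nlinarith
    have hmk : m ≤ k := by exact_mod_cast hm1.trans hkγ.le
    have hsub : Nat.smoothNumbersUpTo X m ⊆ Nat.smoothNumbersUpTo X k := by
      intro a ha
      rw [Nat.mem_smoothNumbersUpTo] at ha ⊢
      exact ⟨ha.1, Nat.smoothNumbers_mono hmk ha.2⟩
    have hcard : (X : ℝ) ^ (1 - 3 * γ) ≤ (Nat.smoothNumbersUpTo X k).card := by
      refine (hmono _ _ (by linarith)).trans (l4.trans ?_)
      exact_mod_cast Finset.card_le_card hsub
    have hApos : (0 : ℝ) < (Nat.smoothNumbersUpTo X k).card :=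
      lt_of_lt_of_le (by positivity) hcard
    refine ⟨Finset.card_pos.1 (by exact_mod_cast hApos), hmemX, ?_⟩
    intro c d N hd hN
    rcases le_total X N with hXN | hNX
    · exact trivial_large hX1 hθ0 hK1 (Finset.filter_subset _ _) hXN
    have hN0 : (0 : ℝ) < N := by exact_mod_cast hN
    have hNXr : (N : ℝ) / X ≤ 1 := by
      rw [div_le_one hX0]
      exact_mod_cast hNX
    have h1 : (((Nat.smoothNumbersUpTo X k).filter fun a => ∃ j < N, a = c + j * d).card : ℝ) ≤ N := by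
      have h2 : ((Nat.smoothNumbersUpTo X k).filter fun a => ∃ j < N, a = c + j * d) ⊆
          (Finset.range N).image fun j => c + j * d := by
        intro a ha
        obtain ⟨j, hj, e⟩ := (Finset.mem_filter.1 ha).2
        exact Finset.mem_image.2 ⟨j, Finset.mem_range.2 hj, e.symm⟩
      have h3 := (Finset.card_le_card h2).trans Finset.card_image_le
      rw [Finset.card_range] at h3
      exact_mod_cast h3
    have h3 : ((N : ℝ) / X) ^ (1 : ℝ) ≤ ((N : ℝ) / X) ^ (1 - 1 / κ) :=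
      Real.rpow_le_rpow_of_exponent_ge (by positivity) hNXr (by linarith)
    rw [Real.rpow_one] at h3
    calc _ ≤ (N : ℝ) := h1
      _ = X * ((N : ℝ) / X) := by field_simp
      _ = ((X : ℝ) ^ (3 * γ) * (X : ℝ) ^ (1 - 3 * γ)) * ((N : ℝ) / X) := by
          rw [hp]
          norm_num
      _ ≤ ((X : ℝ) ^ η * (Nat.smoothNumbersUpTo X k).card) * ((N : ℝ) / X) ^ (1 - 1 / κ) := by
          have h5 : (X : ℝ) ^ (3 * γ) ≤ (X : ℝ) ^ η := hmono _ _ (by linarith)
          gcongr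

end Pool.Agent.W5h37.Thin
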