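import Pool.Agent.W5h37.Thin.Holds

/-!
# The squares: the exponent one half is not enough
-/

set_option autoImplicit false

namespace Pool.Agent.W5h37.Thin

open Finset Filter

/-- the positive squares up to `X` -/
def Squares (X : ℕ) : Finset ℕ := (Finset.Icc 1 (Nat.sqrt X)).image fun n => n ^ 2

lemma mem_squares {X a : ℕ} : a ∈ Squares X ↔ (1 ≤ a ∧ a ≤ X) ∧ ∃ n : ℕ, a = n ^ 2 := by
  rw [Squares, Finset.mem_image]
  constructor
  · rintro ⟨n, hn, rfl⟩
    rw [Finset.mem_Icc] at hn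
    refine ⟨⟨Nat.one_le_pow _ _ hn.1, ?_⟩, n, rfl⟩
    have := Nat.sqrt_le' X
    exact (Nat.pow_le_pow_left hn.2 2).trans this
  · rintro ⟨⟨h1, h2⟩, n, rfl⟩
    refine ⟨n, Finset.mem_Icc.2 ⟨?_, Nat.le_sqrt'.2 h2⟩, rfl⟩
    by_contra h0
    have : n = 0 := by omega
    rw [this] at h1
    simp at h1

lemma card_squares (X : ℕ) : Nat.sqrt X ≤ (Squares X).card := by
  rw [Squares, Finset.card_image_of_injOn, Nat.card_Icc]
  · omega
  · intro a _ b _ h
    exact Nat.pow_left_injective (n := 2) (by norm_num) h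

/-- at most `2 τ(m)` ordered pairs of squares have a given difference `m` -/
lemma pairs_diff (S : Finset ℕ) (hS : ∀ a ∈ S, ∃ n : ℕ, a = n ^ 2) (m : ℕ) (hm : m ≠ 0) :
    ((S ×ˢ S).filter fun w => w.1 + m = w.2).card ≤ m.divisors.card := by
  classical
  refine Finset.card_le_card_of_injOn (fun w => Nat.sqrt w.2 - Nat.sqrt w.1) ?_ ?_
  · rintro ⟨a, b⟩ h
    simp only [Finset.coe_filter, Finset.mem_product, Set.mem_ofPred_eq] at h
    obtain ⟨⟨ha, hb⟩, h⟩ := h
    obtain ⟨n, rfl⟩ := hS a ha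
    obtain ⟨k, rfl⟩ := hS b hb
    simp only [Nat.sqrt_eq', Finset.mem_coe, Nat.mem_divisors]
    refine ⟨⟨k + n, ?_⟩, hm⟩
    have h1 := Nat.sq_sub_sq k n
    rw [mul_comm] at h1
    omega
  · rintro ⟨a, b⟩ h ⟨a', b'⟩ h' e
    simp only [Finset.coe_filter, Finset.mem_product, Set.mem_ofPred_eq] at h h'
    obtain ⟨⟨ha, hb⟩, h⟩ := h
    obtain ⟨⟨ha', hb'⟩, h'⟩ := h'
    obtain ⟨n, rfl⟩ := hS a ha
    obtain ⟨k, rfl⟩ := hS b hb
    obtain ⟨n', rfl⟩ := hS a' ha'
    obtain ⟨k', rfl⟩ := hS b' hb'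
    simp only [Nat.sqrt_eq'] at e
    have h1 : m = (k + n) * (k - n) := by rw [← Nat.sq_sub_sq]; omega
    have h1' : m = (k' + n') * (k' - n') := by rw [← Nat.sq_sub_sq]; omega
    have h2 : k - n ≠ 0 := by
      intro h0
      rw [h0, mul_zero] at h1
      exact hm h1
    have h3 : k + n = k' + n' := by
      rw [h1, ← e] at h1'
      exact Nat.eq_of_mul_eq_mul_right (Nat.pos_of_ne_zero h2) h1'
    have h4 : n = n' ∧ k = k' := by omega
    rw [h4.1, h4.2]

/-- squares in a progression -/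
lemma squares_prog (X c d N M : ℕ) (hd : 1 ≤ d) (hM : ∀ m, m ≠ 0 → m ≤ X → m.divisors.card ≤ M)
    (S : Finset ℕ) (hS : ∀ a ∈ S, (∃ n : ℕ, a = n ^ 2) ∧ a ≤ X ∧ ∃ j < N, a = c + j * d) :
    S.card * S.card ≤ S.card + 2 * (M * N) := by
  classical
  set P : Finset (ℕ × ℕ) := (S ×ˢ S).filter fun w => w.1 < w.2 with hP
  have hPc : P.card ≤ M * (Finset.range N).card := by
    refine Finset.card_le_mul_card_image_of_maps_to (f := fun w => (w.2 - w.1) / d) ?_ M ?_
    · rintro ⟨a, b⟩ h
      rw [hP, Finset.mem_filter, Finset.mem_product] at h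
      obtain ⟨⟨ha, hb⟩, hab⟩ := h
      simp only at ha hb hab
      obtain ⟨_, _, i, hi, e⟩ := hS a ha
      obtain ⟨_, _, j, hj, e'⟩ := hS b hb
      simp only [Finset.mem_range]
      rw [Nat.div_lt_iff_lt_mul hd]
      have : j * d < N * d := Nat.mul_lt_mul_of_pos_right hj hd
      omega
    · intro t ht
      by_cases ht0 : t = 0
      · -- then there is no pair
        have : (P.filter fun w => (w.2 - w.1) / d = t) = ∅ := by
          rw [Finset.filter_eq_empty_iff]
          rintro ⟨a, b⟩ h h2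
          rw [hP, Finset.mem_filter, Finset.mem_product] at h
          obtain ⟨⟨ha, hb⟩, hab⟩ := h
          simp only at ha hb hab h2
          obtain ⟨_, _, i, hi, e⟩ := hS a ha
          obtain ⟨_, _, j, hj, e'⟩ := hS b hb
          have hij : i < j := by
            by_contra hcon
            push Not at hcon
            have := Nat.mul_le_mul_right d hcon
            omega
          rw [ht0, Nat.div_eq_zero_iff] at h2
          have h3 : (i + 1) * d ≤ j * d := Nat.mul_le_mul_right _ hij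
          rw [add_mul] at h3
          omega
        rw [this]
        simp
      by_cases htX : t * d ≤ X
      · refine le_trans ?_ (hM (t * d) (by positivity) htX)
        refine le_trans ?_ (pairs_diff S (fun a ha => (hS a ha).1) (t * d) (by positivity))
        refine Finset.card_le_card ?_
        rintro ⟨a, b⟩ h
        rw [Finset.mem_filter, hP, Finset.mem_filter, Finset.mem_product] at h
        obtain ⟨⟨⟨ha, hb⟩, hab⟩, h2⟩ := h
        rw [Finset.mem_filter, Finset.mem_product]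
        refine ⟨⟨ha, hb⟩, ?_⟩
        simp only at ha hb hab h2 ⊢
        obtain ⟨_, _, i, hi, e⟩ := hS a ha
        obtain ⟨_, _, j, hj, e'⟩ := hS b hb
        have hij : i ≤ j := by
          by_contra hcon
          push Not at hcon
          have := Nat.mul_le_mul_right d hcon.le
          omega
        obtain ⟨r, rfl⟩ := Nat.exists_eq_add_of_le hij
        have e3 : b - a = r * d := by
          rw [e, e', add_mul]
          omega
        rw [e3, Nat.mul_div_cancel _ (by omega)] at h2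
        rw [← h2, ← e3]
        omega
      · have : (P.filter fun w => (w.2 - w.1) / d = t) = ∅ := by
          rw [Finset.filter_eq_empty_iff]
          rintro ⟨a, b⟩ h h2
          rw [hP, Finset.mem_filter, Finset.mem_product] at h
          obtain ⟨⟨ha, hb⟩, hab⟩ := h
          simp only at ha hb hab h2
          have hbX := (hS b hb).2.1
          apply htX
          rw [← h2]
          exact (Nat.div_mul_le_self _ _).trans (by omega)
        rw [this]
        simp
  rw [Finset.card_range] at hPc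
  have hsplit : S.card * S.card ≤ S.card + 2 * P.card := by
    set P' : Finset (ℕ × ℕ) := (S ×ˢ S).filter fun w => w.2 < w.1 with hP'
    set Q : Finset (ℕ × ℕ) := (S ×ˢ S).filter fun w => w.1 = w.2 with hQ
    have h1 : S ×ˢ S ⊆ Q ∪ (P ∪ P') := by
      rintro ⟨a, b⟩ h
      rw [hQ, hP, hP', Finset.mem_union, Finset.mem_union, Finset.mem_filter, Finset.mem_filter,
        Finset.mem_filter]
      rcases lt_trichotomy a b with h2 | h2 | h2
      · exact Or.inr (Or.inl ⟨h, h2⟩)
      · exact Or.inl ⟨h, h2⟩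
      · exact Or.inr (Or.inr ⟨h, h2⟩)
    have h2 : Q.card ≤ S.card := by
      refine Finset.card_le_card_of_injOn (fun w => w.1) ?_ ?_
      · intro w hw
        simp only [hQ, Finset.coe_filter, Finset.mem_product, Set.mem_ofPred_eq] at hw
        exact hw.1.1
      · rintro ⟨a, b⟩ hw ⟨a', b'⟩ hw' h
        simp only [hQ, Finset.coe_filter, Finset.mem_product, Set.mem_ofPred_eq] at hw hw' h
        rw [Prod.mk.injEq]
        exact ⟨h, by rw [← hw.2, ← hw'.2, h]⟩
    have h3 : P'.card ≤ P.card := by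
      refine Finset.card_le_card_of_injOn Prod.swap ?_ (fun a _ b _ h => Prod.swap_injective h)
      intro w hw
      simp only [hP, hP', Finset.coe_filter, Finset.mem_product, Set.mem_ofPred_eq, Prod.fst_swap,
        Prod.snd_swap] at hw ⊢
      exact ⟨⟨hw.1.2, hw.1.1⟩, hw.2⟩
    have h4 := Finset.card_le_card h1
    rw [Finset.card_product] at h4
    have h5 := Finset.card_union_le Q (P ∪ P')
    have h6 := Finset.card_union_le P P'
    omega
  omega

theorem spread_squares (η : ℝ) (hη : 0 < η) :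
    ∀ᶠ X : ℕ in atTop, Spread X (1 / 2) ((X : ℝ) ^ η) (Squares X) := by
  obtain ⟨C, hC0, hC⟩ := divisor_bound η hη
  filter_upwards [eventually_ge_atTop 1, ev_const (4 * (1 + 2 * Real.sqrt C)) (η / 2)
    (by positivity)] with X hX1 hX
  have hX1r : (1 : ℝ) ≤ X := by exact_mod_cast hX1
  have hX0 : (0 : ℝ) < X := by linarith
  have hsq : 1 ≤ Nat.sqrt X := Nat.le_sqrt.2 (by omega)
  have hA : 1 ≤ (Squares X).card := hsq.trans (card_squares X)
  have hA2 : Real.sqrt X ≤ 2 * (Squares X).card := by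
    have h1 : (X : ℝ) ≤ (2 * Nat.sqrt X : ℝ) ^ 2 := by
      have h2 : X < (Nat.sqrt X + 1) ^ 2 := Nat.lt_succ_sqrt' X
      have h3 : Nat.sqrt X + 1 ≤ 2 * Nat.sqrt X := by omega
      have h4 : X ≤ (2 * Nat.sqrt X) ^ 2 := h2.le.trans (Nat.pow_le_pow_left h3 2)
      exact_mod_cast h4
    have h5 : Real.sqrt X ≤ 2 * Nat.sqrt X := Real.sqrt_le_iff.2 ⟨by positivity, h1⟩
    have h6 : (Nat.sqrt X : ℝ) ≤ (Squares X).card := by exact_mod_cast card_squares X
    linarith
  refine ⟨Finset.card_pos.1 (by omega), ?_, ?_⟩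
  · intro a ha
    exact (mem_squares.1 ha).1
  intro c d N hd hN
  set S := (Squares X).filter fun a => ∃ j < N, a = c + j * d with hS
  set M : ℕ := ⌊C * (X : ℝ) ^ η⌋₊ with hM
  have hMle : (M : ℝ) ≤ C * (X : ℝ) ^ η := Nat.floor_le (by positivity)
  have h1 := squares_prog X c d N M hd (by
    intro m hm hmX
    refine Nat.le_floor ((hC m hm).trans ?_)
    have : (m : ℝ) ≤ X := by exact_mod_cast hmX
    gcongr) S (by
    intro a ha
    rw [hS, Finset.mem_filter, mem_squares] at ha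
    exact ⟨ha.1.2, ha.1.1.2, ha.2⟩)
  have h2 : (S.card : ℝ) * S.card ≤ S.card + 2 * (M * N) := by exact_mod_cast h1
  -- S.card ≤ 1 + sqrt (2 M N)
  have hN1 : (1 : ℝ) ≤ N := by exact_mod_cast hN
  have h3 : (S.card : ℝ) ≤ 1 + Real.sqrt (2 * (M * N)) := by
    rcases Nat.eq_zero_or_pos S.card with h0 | h0
    · rw [h0]
      simp only [Nat.cast_zero]
      positivity
    · have h4 : (1 : ℝ) ≤ S.card := by exact_mod_cast h0
      have h5 : (S.card : ℝ) - 1 ≤ Real.sqrt (2 * (M * N)) := by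
        apply Real.le_sqrt_of_sq_le
        nlinarith
      linarith
  have h4 : Real.sqrt (2 * (M * N)) ≤ 2 * Real.sqrt C * (X : ℝ) ^ (η / 2) * Real.sqrt N := by
    rw [Real.sqrt_le_iff]
    refine ⟨by positivity, ?_⟩
    have e1 : (Real.sqrt C) ^ 2 = C := Real.sq_sqrt hC0.le
    have e2 : (Real.sqrt N) ^ 2 = N := Real.sq_sqrt (by positivity)
    have e3 : ((X : ℝ) ^ (η / 2)) ^ 2 = (X : ℝ) ^ η := by
      rw [← Real.rpow_natCast, ← Real.rpow_mul hX0.le]
      congr 1
      push_cast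
      ring
    calc 2 * ((M : ℝ) * N) ≤ 2 * ((C * (X : ℝ) ^ η) * N) := by gcongr
      _ ≤ 4 * (C * (X : ℝ) ^ η * N) := by
          have : 0 ≤ C * (X : ℝ) ^ η * N := by positivity
          linarith
      _ = _ := by rw [mul_pow, mul_pow, mul_pow, e1, e2, e3]; ring
  have hsN : 1 ≤ Real.sqrt N := by
    rw [Real.one_le_sqrt]
    exact hN1
  have hXh : 1 ≤ (X : ℝ) ^ (η / 2) := Real.one_le_rpow hX1r (by positivity)
  have h5 : (S.card : ℝ) ≤ (1 + 2 * Real.sqrt C) * (X : ℝ) ^ (η / 2) * Real.sqrt N := by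
    have h6 : 1 ≤ (X : ℝ) ^ (η / 2) * Real.sqrt N := by nlinarith
    calc (S.card : ℝ) ≤ 1 + Real.sqrt (2 * (M * N)) := h3
      _ ≤ (X : ℝ) ^ (η / 2) * Real.sqrt N + 2 * Real.sqrt C * (X : ℝ) ^ (η / 2) * Real.sqrt N := by
          linarith
      _ = _ := by ring
  have e4 : ((N : ℝ) / X) ^ (1 / 2 : ℝ) = Real.sqrt N / Real.sqrt X := by
    rw [← Real.sqrt_eq_rpow, Real.sqrt_div (by positivity)]
  have hsX : 0 < Real.sqrt X := Real.sqrt_pos.2 hX0
  have e5 : (X : ℝ) ^ η = (X : ℝ) ^ (η / 2) * (X : ℝ) ^ (η / 2) := by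
    rw [← Real.rpow_add hX0]
    congr 1
    ring
  rw [e4, e5]
  have h7 : (1 + 2 * Real.sqrt C) * 4 ≤ (X : ℝ) ^ (η / 2) := by linarith
  have hA0 : (0 : ℝ) ≤ (Squares X).card := Nat.cast_nonneg _
  calc (S.card : ℝ) ≤ (1 + 2 * Real.sqrt C) * (X : ℝ) ^ (η / 2) * Real.sqrt N := h5
    _ ≤ (1 + 2 * Real.sqrt C) * (X : ℝ) ^ (η / 2) * Real.sqrt N *
        (4 * (Squares X).card / Real.sqrt X) := by
        have h8 : 1 ≤ 4 * (Squares X).card / Real.sqrt X := by
          rw [le_div_iff₀ hsX]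
          linarith
        exact le_mul_of_one_le_right (by positivity) h8
    _ = ((1 + 2 * Real.sqrt C) * 4) * (X : ℝ) ^ (η / 2) * (Squares X).card *
        (Real.sqrt N / Real.sqrt X) := by ring
    _ ≤ (X : ℝ) ^ (η / 2) * (X : ℝ) ^ (η / 2) * (Squares X).card *
        (Real.sqrt N / Real.sqrt X) := by gcongr

theorem squares_fail {ε η : ℝ} (hε : ε < 1 / 2) (hη : 0 < η) {X a : ℕ} (ha : a ∈ Squares X)
    (ha1 : a ≠ 1) : ¬ Holds ε η X 1 (pt a 1) := by
  obtain ⟨⟨h1, h2⟩, n, rfl⟩ := mem_squares.1 ha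
  have hX1r : (1 : ℝ) ≤ X := by exact_mod_cast h1.trans h2
  have hn2 : 2 ≤ n := by
    rcases n with _ | _ | n
    · simp at h1
    · simp at ha1
    · omega
  intro h
  have hXη : 1 ≤ (X : ℝ) ^ η := Real.one_le_rpow hX1r hη.le
  obtain ⟨-, h3⟩ := h 2 ![(0, 1), (1, 0)] ∅ (by
    intro i
    fin_cases i
    · simp [isCoprime_zero_left]
      constructor <;> linarith
    · refine ⟨?_, ?_, ?_⟩
      · show IsCoprime (1 : ℤ) 0
        exact isCoprime_one_left
      · show |(((1 : ℤ)) : ℝ)| ≤ _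
        simpa using hXη
      · show |(((0 : ℤ)) : ℝ)| ≤ _
        simp
        positivity) (by
    intro i j hij
    fin_cases i <;> fin_cases j <;> simp_all) (by
    simp only [Finset.sum_empty]
    exact mul_nonneg hη.le (Real.log_nonneg hX1r))
  have hpt : pt (n ^ 2) 1 = (((n ^ 2 : ℕ) : ℤ), 1) := by
    simp [pt]
  rw [hpt] at h3
  unfold hgt N1 at h3
  rw [Fin.sum_univ_two] at h3
  simp only [Matrix.cons_val_zero, Matrix.cons_val_one, mul_one, mul_zero, sub_zero, zero_sub,
    Finset.sdiff_empty, Int.natAbs_natCast, Int.natAbs_neg, Int.natAbs_one, Nat.primeFactors_one,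
    Finset.sum_empty, add_zero] at h3
  have hmax : max (n ^ 2) 1 = n ^ 2 := max_eq_left (Nat.one_le_pow _ _ (by omega))
  rw [hmax, Nat.primeFactors_pow n (by norm_num)] at h3
  have hn0 : (0 : ℝ) < n := by exact_mod_cast (by omega : 0 < n)
  have h5 : ∑ p ∈ n.primeFactors, Real.log (p : ℝ) ≤ Real.log n := by
    rw [← Real.log_prod (fun p hp => by
      have := (Nat.prime_of_mem_primeFactors hp).pos
      positivity)]
    have h6 : ∏ p ∈ n.primeFactors, p ≤ n := Nat.le_of_dvd (by omega) (Nat.prod_primeFactors_dvd n)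
    have h8 : ∏ p ∈ n.primeFactors, (p : ℝ) ≤ n := by
      rw [← Nat.cast_prod]
      exact Nat.cast_le.2 h6
    refine Real.log_le_log ?_ h8
    refine Finset.prod_pos fun p hp => ?_
    exact_mod_cast (Nat.prime_of_mem_primeFactors hp).pos
  have h7 : 0 < Real.log n := Real.log_pos (by exact_mod_cast (by omega : 1 < n))
  push_cast at h3
  rw [Real.log_pow] at h3
  push_cast at h3
  nlinarith

end Pool.Agent.W5h37.Thin
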