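import Pool.Agent.W5h37.Thin.Powers

/-!
# Choice of the parameters
-/

set_option autoImplicit false

namespace Pool.Agent.W5h37.Thin

open Finset Filter

theorem thin_good (m k : ℕ) (θ ε η₀ : ℝ) (hm : 1 ≤ m) (hθ : 0 < θ) (hθ1 : θ ≤ 1)
    (hk : 1 < k * θ) (hε : 0 < ε) (hε1 : ε < 1) (hη₀ : 0 < η₀) :
    ∃ δ η : ℝ, 0 < δ ∧ 0 < η ∧ η ≤ η₀ ∧ ∀ᶠ X : ℕ in atTop, ∀ A : Fin m → Finset ℕ,
      (∀ i, Spread X θ ((X : ℝ) ^ η) (A i)) → ∃ S : Finset (Fin m → ℕ), S ⊆ Fintype.piFinset A ∧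
        (S.card : ℝ) ≤ (X : ℝ) ^ (-δ) * ∏ i, ((A i).card : ℝ) ∧
        ∀ a ∈ Fintype.piFinset A, a ∉ S →
          GoodG k ⌊(X : ℝ) ^ η⌋₊ ⌊(X : ℝ) ^ (1 - ε)⌋₊ ⌈(X : ℝ) ^ ε⌉₊ a := by
  obtain ⟨γ, hγ⟩ : ∃ γ, γ = (k * θ - 1) / 2 := ⟨_, rfl⟩
  have hγ0 : 0 < γ := by rw [hγ]; linarith
  obtain ⟨κ, hκ⟩ : ∃ κ, κ = min θ γ := ⟨_, rfl⟩
  have hκ0 : 0 < κ := by rw [hκ]; exact lt_min hθ hγ0
  have hκθ : κ ≤ θ := by rw [hκ]; exact min_le_left _ _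
  have hκγ : κ ≤ γ := by rw [hκ]; exact min_le_right _ _
  have hm0 : (1 : ℝ) ≤ m := by exact_mod_cast hm
  obtain ⟨η, hη⟩ : ∃ η, η = min (min (ε * κ / (2 * m + 6)) η₀) (1 / 8) := ⟨_, rfl⟩
  have hη0 : 0 < η := by
    rw [hη]
    exact lt_min (lt_min (by positivity) hη₀) (by norm_num)
  have hηη₀ : η ≤ η₀ := by rw [hη]; exact (min_le_left _ _).trans (min_le_right _ _)
  have hη8 : η ≤ 1 / 8 := by rw [hη]; exact min_le_right _ _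
  have hηm : (2 * m + 6) * η ≤ ε * κ := by
    have h1 : η ≤ ε * κ / (2 * m + 6) := by
      rw [hη]; exact (min_le_left _ _).trans (min_le_left _ _)
    rw [le_div_iff₀ (by positivity)] at h1
    linarith
  obtain ⟨Z, hZ⟩ : ∃ Z, Z = ∑' n : ℕ, 1 / (n : ℝ) ^ (1 + γ) := ⟨_, rfl⟩
  have hZ0 : 0 ≤ Z := by rw [hZ]; exact tsum_nonneg fun n => by positivity
  obtain ⟨Cd, hCd0, hCd⟩ := divisor_bound (η / 4) (by positivity)
  refine ⟨η, η, hη0, hη0, hηη₀, ?_⟩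
  filter_upwards [eventually_ge_atTop 1,
    ev_const ((6 : ℝ) ^ m * (3 + 6 * m * Z) + 9 ^ m * (3 * m)) η hη0,
    ev_const Cd (η / 2) (by positivity), ev_const (2 * m : ℝ) (1 / 2) (by norm_num)] with
    X hX1 hXM hXC hX2m
  intro A hA
  have hX0 : (0 : ℝ) < X := by exact_mod_cast hX1
  have hX1r : (1 : ℝ) ≤ X := by exact_mod_cast hX1
  have hXη : 1 ≤ (X : ℝ) ^ η := Real.one_le_rpow hX1r hη0.le
  set U : ℕ := ⌊(X : ℝ) ^ η⌋₊ with hU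
  set Y : ℕ := ⌊(X : ℝ) ^ (1 - ε)⌋₊ with hY
  set E : ℕ := ⌈(X : ℝ) ^ ε⌉₊ with hE
  have hU1 : 1 ≤ U := Nat.le_floor (by simpa using hXη)
  have hU1r : (1 : ℝ) ≤ U := by exact_mod_cast hU1
  have hU2 : (U : ℝ) ≤ (X : ℝ) ^ η := Nat.floor_le (by positivity)
  have hYX : 1 ≤ (X : ℝ) ^ (1 - ε) := Real.one_le_rpow hX1r (by linarith)
  have hY2 : (Y : ℝ) ≤ (X : ℝ) ^ (1 - ε) := Nat.floor_le (by positivity)
  have hE1 : (X : ℝ) ^ ε ≤ E := Nat.le_ceil _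
  have hXε : 1 ≤ (X : ℝ) ^ ε := Real.one_le_rpow hX1r hε.le
  have hE0 : 1 ≤ E := by
    have : (1 : ℝ) ≤ E := by linarith
    exact_mod_cast this
  have hE0r : (0 : ℝ) < E := by exact_mod_cast hE0
  have hp : ∀ s t : ℝ, (X : ℝ) ^ s * (X : ℝ) ^ t = (X : ℝ) ^ (s + t) :=
    fun s t => (Real.rpow_add hX0 s t).symm
  have hmono : ∀ s t : ℝ, s ≤ t → (X : ℝ) ^ s ≤ (X : ℝ) ^ t :=
    fun s t h => Real.rpow_le_rpow_of_exponent_le hX1r h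
  have hT : ∀ n : ℕ, n ≠ 0 → n ≤ 2 * m * U ^ 2 * X → (n.divisors.card : ℝ) ≤ (X : ℝ) ^ η := by
    intro n hn hnle
    refine (hCd n hn).trans ?_
    have h1 : (n : ℝ) ≤ (X : ℝ) ^ (2 : ℝ) := by
      have h2 : (n : ℝ) ≤ 2 * m * U ^ 2 * X := by exact_mod_cast hnle
      refine h2.trans ?_
      have h3 : (U : ℝ) ^ 2 ≤ (X : ℝ) ^ (2 * η) := by
        calc (U : ℝ) ^ 2 ≤ ((X : ℝ) ^ η) ^ 2 := by gcongr
          _ = (X : ℝ) ^ (2 * η) := by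
              rw [← Real.rpow_natCast, ← Real.rpow_mul hX0.le]; congr 1; push_cast; ring
      calc 2 * (m : ℝ) * U ^ 2 * X ≤ (X : ℝ) ^ (1 / 2 : ℝ) * (X : ℝ) ^ (2 * η) * (X : ℝ) ^ (1 : ℝ) := by
            rw [Real.rpow_one]
            gcongr
        _ = (X : ℝ) ^ (1 / 2 + 2 * η + 1) := by rw [hp, hp]
        _ ≤ (X : ℝ) ^ (2 : ℝ) := hmono _ _ (by linarith)
    calc Cd * (n : ℝ) ^ (η / 4) ≤ (X : ℝ) ^ (η / 2) * ((X : ℝ) ^ (2 : ℝ)) ^ (η / 4) := by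
          gcongr
      _ = (X : ℝ) ^ η := by
          rw [← Real.rpow_mul hX0.le, hp]
          congr 1
          ring
  obtain ⟨S, hSA, hgood, hcard⟩ := badG_card (k := k) hA hm hθ.le hθ1 hγ0
    (by rw [hγ]; linarith) (by positivity) hX1 U Y E hU1 hE0 hT
  refine ⟨S, hSA, ?_, hgood⟩
  refine hcard.trans ?_
  rw [← hZ]
  have hprod : 0 ≤ ∏ j, ((A j).card : ℝ) := Finset.prod_nonneg fun j _ => Nat.cast_nonneg _
  generalize (∏ j, ((A j).card : ℝ)) = Pr at hprod ⊢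
  have t1 : (((2 * Y + 1 : ℕ) : ℝ) / X) ^ θ ≤ 3 * (X : ℝ) ^ (-(ε * κ)) := by
    have h1 : (((2 * Y + 1 : ℕ) : ℝ) / X) ≤ 3 * (X : ℝ) ^ (-ε) := by
      push_cast
      have h2 : (X : ℝ) ^ (1 - ε) = X * (X : ℝ) ^ (-ε) := by
        rw [show (1 : ℝ) - ε = 1 + (-ε) by ring, ← hp, Real.rpow_one]
      rw [div_le_iff₀ hX0]
      nlinarith
    calc (((2 * Y + 1 : ℕ) : ℝ) / X) ^ θ ≤ (3 * (X : ℝ) ^ (-ε)) ^ θ :=
          Real.rpow_le_rpow (by positivity) h1 hθ.le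
      _ = 3 ^ θ * (X : ℝ) ^ (-ε * θ) := by
          rw [Real.mul_rpow (by norm_num) (by positivity), ← Real.rpow_mul hX0.le]
      _ ≤ 3 * (X : ℝ) ^ (-(ε * κ)) := by
          refine mul_le_mul ?_ ?_ (by positivity) (by norm_num)
          · calc (3 : ℝ) ^ θ ≤ 3 ^ (1 : ℝ) :=
                  Real.rpow_le_rpow_of_exponent_le (by norm_num) hθ1
              _ = 3 := Real.rpow_one _
          · refine hmono _ _ ?_
            have : ε * κ ≤ ε * θ := mul_le_mul_of_nonneg_left hκθ hε.le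
            linarith
  have t2 : (E : ℝ) ^ (-γ) ≤ (X : ℝ) ^ (-(ε * κ)) := by
    calc (E : ℝ) ^ (-γ) ≤ ((X : ℝ) ^ ε) ^ (-γ) :=
          Real.rpow_le_rpow_of_nonpos (by positivity) hE1 (by linarith)
      _ = (X : ℝ) ^ (-(ε * γ)) := by
          rw [← Real.rpow_mul hX0.le]; congr 1; ring
      _ ≤ (X : ℝ) ^ (-(ε * κ)) := by
          refine hmono _ _ ?_
          have : ε * κ ≤ ε * γ := mul_le_mul_of_nonneg_left hκγ hε.le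
          linarith
  have hUm : (U : ℝ) ^ m ≤ (X : ℝ) ^ (m * η) := by
    calc (U : ℝ) ^ m ≤ ((X : ℝ) ^ η) ^ m := by gcongr
      _ = (X : ℝ) ^ (m * η) := by
          rw [← Real.rpow_natCast, ← Real.rpow_mul hX0.le]; congr 1; ring
  have hUU : (U : ℝ) ^ 2 ≤ (X : ℝ) ^ (2 * η) := by
    calc (U : ℝ) ^ 2 ≤ ((X : ℝ) ^ η) ^ 2 := by gcongr
      _ = (X : ℝ) ^ (2 * η) := by
          rw [← Real.rpow_natCast, ← Real.rpow_mul hX0.le]; congr 1; push_cast; ring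
  have t3 : (3 * ((2 * U ^ 2 : ℕ) : ℝ)) ^ m ≤ 6 ^ m * (X : ℝ) ^ (2 * m * η) := by
    push_cast
    have e1 : (3 * (2 * (U : ℝ) ^ 2)) ^ m = 6 ^ m * ((U : ℝ) ^ m * (U : ℝ) ^ m) := by
      rw [← mul_pow, ← mul_pow]
      congr 1
      ring
    rw [e1]
    refine mul_le_mul_of_nonneg_left ?_ (by positivity)
    calc (U : ℝ) ^ m * (U : ℝ) ^ m ≤ (X : ℝ) ^ (m * η) * (X : ℝ) ^ (m * η) := by gcongr
      _ = (X : ℝ) ^ (2 * m * η) := by rw [hp]; congr 1; ring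
  have t3' : (3 * U : ℝ) ^ m * (3 * U : ℝ) ^ m ≤ 9 ^ m * (X : ℝ) ^ (2 * m * η) := by
    have e1 : (3 * U : ℝ) ^ m * (3 * U : ℝ) ^ m = 9 ^ m * ((U : ℝ) ^ m * (U : ℝ) ^ m) := by
      rw [← mul_pow, ← mul_pow, ← mul_pow]
      congr 1
      ring
    rw [e1]
    refine mul_le_mul_of_nonneg_left ?_ (by positivity)
    calc (U : ℝ) ^ m * (U : ℝ) ^ m ≤ (X : ℝ) ^ (m * η) * (X : ℝ) ^ (m * η) := by gcongr
      _ = (X : ℝ) ^ (2 * m * η) := by rw [hp]; congr 1; ring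
  have t4 : 3 * ((m * (2 * U ^ 2) : ℕ) : ℝ) ≤ 6 * m * (X : ℝ) ^ (2 * η) := by
    push_cast
    nlinarith
  have t5 : (3 * ((m * U : ℕ) : ℝ) / (E : ℝ)) ^ θ ≤ 3 * m * (X : ℝ) ^ (η - ε * κ) := by
    have h1 : 3 * ((m * U : ℕ) : ℝ) / (E : ℝ) ≤ 3 * m * (X : ℝ) ^ η / (X : ℝ) ^ ε := by
      push_cast
      have h2 : 3 * ((m : ℝ) * U) ≤ 3 * m * (X : ℝ) ^ η := by nlinarith
      gcongr
    have h2 : (1 : ℝ) ≤ 3 * m * (X : ℝ) ^ η := by nlinarith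
    calc (3 * ((m * U : ℕ) : ℝ) / (E : ℝ)) ^ θ ≤ (3 * m * (X : ℝ) ^ η / (X : ℝ) ^ ε) ^ θ :=
          Real.rpow_le_rpow (by positivity) h1 hθ.le
      _ = (3 * m * (X : ℝ) ^ η) ^ θ * (X : ℝ) ^ (-(ε * θ)) := by
          rw [Real.div_rpow (by positivity) (by positivity), ← Real.rpow_mul hX0.le,
            Real.rpow_neg hX0.le, div_eq_mul_inv]
      _ ≤ (3 * m * (X : ℝ) ^ η) * (X : ℝ) ^ (-(ε * κ)) := by
          refine mul_le_mul ?_ ?_ (by positivity) (by positivity)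
          · calc (3 * m * (X : ℝ) ^ η) ^ θ ≤ (3 * m * (X : ℝ) ^ η) ^ (1 : ℝ) :=
                  Real.rpow_le_rpow_of_exponent_le h2 hθ1
              _ = _ := Real.rpow_one _
          · refine hmono _ _ ?_
            have : ε * κ ≤ ε * θ := mul_le_mul_of_nonneg_left hκθ hε.le
            linarith
      _ = 3 * m * (X : ℝ) ^ (η - ε * κ) := by
          rw [mul_assoc, hp]
          congr 2
  have hEγ0 : 0 ≤ (E : ℝ) ^ (-γ) := Real.rpow_nonneg (Nat.cast_nonneg E) _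
  have hq0 : 0 ≤ (3 * ((m * U : ℕ) : ℝ) / (E : ℝ)) ^ θ :=
    Real.rpow_nonneg (div_nonneg (mul_nonneg (by norm_num) (Nat.cast_nonneg _))
      (Nat.cast_nonneg _)) _
  have hY0 : 0 ≤ (((2 * Y + 1 : ℕ) : ℝ) / X) ^ θ := Real.rpow_nonneg (by positivity) _
  have t6 : (((2 * Y + 1 : ℕ) : ℝ) / X) ^ θ + 3 * ((m * (2 * U ^ 2) : ℕ) : ℝ) *
      (Z * (E : ℝ) ^ (-γ)) ≤ (3 + 6 * m * Z) * (X : ℝ) ^ (2 * η - ε * κ) := by
    have h1 : 3 * (X : ℝ) ^ (-(ε * κ)) ≤ 3 * (X : ℝ) ^ (2 * η - ε * κ) :=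
      mul_le_mul_of_nonneg_left (hmono _ _ (by linarith)) (by norm_num)
    have h2 : 3 * ((m * (2 * U ^ 2) : ℕ) : ℝ) * (Z * (E : ℝ) ^ (-γ)) ≤
        6 * m * (X : ℝ) ^ (2 * η) * (Z * (X : ℝ) ^ (-(ε * κ))) :=
      mul_le_mul t4 (mul_le_mul_of_nonneg_left t2 hZ0) (mul_nonneg hZ0 hEγ0) (by positivity)
    have h3 : 6 * m * (X : ℝ) ^ (2 * η) * (Z * (X : ℝ) ^ (-(ε * κ))) =
        6 * m * Z * (X : ℝ) ^ (2 * η - ε * κ) := by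
      rw [show (2 : ℝ) * η - ε * κ = 2 * η + -(ε * κ) by ring, ← hp]
      ring
    linarith
  have hA1 : (3 * ((2 * U ^ 2 : ℕ) : ℝ)) ^ m * ((X : ℝ) ^ η * ((((2 * Y + 1 : ℕ) : ℝ) / X) ^ θ +
      3 * ((m * (2 * U ^ 2) : ℕ) : ℝ) * (Z * (E : ℝ) ^ (-γ)))) ≤
      (6 : ℝ) ^ m * (3 + 6 * m * Z) * (X : ℝ) ^ (-(2 * η)) := by
    have hn : 0 ≤ (((2 * Y + 1 : ℕ) : ℝ) / X) ^ θ +
      3 * ((m * (2 * U ^ 2) : ℕ) : ℝ) * (Z * (E : ℝ) ^ (-γ)) :=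
      add_nonneg hY0 (mul_nonneg (mul_nonneg (by norm_num) (Nat.cast_nonneg _))
        (mul_nonneg hZ0 hEγ0))
    calc _ ≤ 6 ^ m * (X : ℝ) ^ (2 * m * η) * ((X : ℝ) ^ η * ((3 + 6 * m * Z) *
          (X : ℝ) ^ (2 * η - ε * κ))) :=
          mul_le_mul t3 (mul_le_mul_of_nonneg_left t6 (by positivity))
            (mul_nonneg (by positivity) hn) (by positivity)
      _ = 6 ^ m * (3 + 6 * m * Z) * ((X : ℝ) ^ (2 * m * η) * (X : ℝ) ^ η *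
          (X : ℝ) ^ (2 * η - ε * κ)) := by ring
      _ = 6 ^ m * (3 + 6 * m * Z) * (X : ℝ) ^ (2 * m * η + η + (2 * η - ε * κ)) := by
          rw [hp, hp]
      _ ≤ _ := mul_le_mul_of_nonneg_left (hmono _ _ (by linarith)) (by positivity)
  have hA2 : (3 * U : ℝ) ^ m * (3 * U : ℝ) ^ m * ((X : ℝ) ^ η * ((X : ℝ) ^ η *
      (3 * ((m * U : ℕ) : ℝ) / (E : ℝ)) ^ θ)) ≤ 9 ^ m * (3 * m) * (X : ℝ) ^ (-(2 * η)) := by
    calc _ ≤ 9 ^ m * (X : ℝ) ^ (2 * m * η) * ((X : ℝ) ^ η * ((X : ℝ) ^ η *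
          (3 * m * (X : ℝ) ^ (η - ε * κ)))) :=
          mul_le_mul t3' (mul_le_mul_of_nonneg_left (mul_le_mul_of_nonneg_left t5
            (by positivity)) (by positivity)) (mul_nonneg (by positivity)
              (mul_nonneg (by positivity) hq0)) (by positivity)
      _ = 9 ^ m * (3 * m) * ((X : ℝ) ^ (2 * m * η) * (X : ℝ) ^ η * (X : ℝ) ^ η *
          (X : ℝ) ^ (η - ε * κ)) := by ring
      _ = 9 ^ m * (3 * m) * (X : ℝ) ^ (2 * m * η + η + η + (η - ε * κ)) := by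
          rw [hp, hp, hp]
      _ ≤ _ := mul_le_mul_of_nonneg_left (hmono _ _ (by linarith)) (by positivity)
  calc _ = ((3 * ((2 * U ^ 2 : ℕ) : ℝ)) ^ m * ((X : ℝ) ^ η * ((((2 * Y + 1 : ℕ) : ℝ) / X) ^ θ +
        3 * ((m * (2 * U ^ 2) : ℕ) : ℝ) * (Z * (E : ℝ) ^ (-γ)))) +
        (3 * U : ℝ) ^ m * (3 * U : ℝ) ^ m * ((X : ℝ) ^ η * ((X : ℝ) ^ η *
      (3 * ((m * U : ℕ) : ℝ) / (E : ℝ)) ^ θ))) * Pr := by ring
    _ ≤ ((6 : ℝ) ^ m * (3 + 6 * m * Z) * (X : ℝ) ^ (-(2 * η)) +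
        9 ^ m * (3 * m) * (X : ℝ) ^ (-(2 * η))) * Pr :=
        mul_le_mul_of_nonneg_right (add_le_add hA1 hA2) hprod
    _ = ((6 : ℝ) ^ m * (3 + 6 * m * Z) + 9 ^ m * (3 * m)) * (X : ℝ) ^ (-(2 * η)) * Pr := by ring
    _ ≤ (X : ℝ) ^ η * (X : ℝ) ^ (-(2 * η)) * Pr := by
        refine mul_le_mul_of_nonneg_right (mul_le_mul_of_nonneg_right hXM (by positivity)) hprod
    _ = (X : ℝ) ^ (-η) * Pr := by
        rw [hp]
        congr 2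
        ring

end Pool.Agent.W5h37.Thin
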