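import Pool.Agent.W5h37.Thin.Forms
import Pool.Agent.W5h37.Thin.Squares

/-!
# The strong n-conjecture for almost all tuples of elements of thin sets
-/

set_option autoImplicit false

namespace Pool.Agent.W5h37.Thin

open Finset Filter

/-- the product of the primes dividing `x` -/
def rad (x : ℤ) : ℕ := ∏ p ∈ x.natAbs.primeFactors, p

/-- nonzero pairwise coprime integers with sum zero -/
def Admissible {n : ℕ} (x : Fin n → ℤ) : Prop :=
  (∀ j, x j ≠ 0) ∧ (∀ i j, i ≠ j → IsCoprime (x i) (x j)) ∧ ∑ j, x j = 0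

/-- for all `n`, all admissible `n`-tuples of linear combinations of `a 1, …, a m` with integral
coefficients of absolute value at most `H` satisfy `max |x j| ≤ rad (x 1 ⋯ x n) ^ ((1 + ε) / n)` -/
def StrongN (ε H : ℝ) {m : ℕ} (a : Fin m → ℕ) : Prop :=
  ∀ (n : ℕ) (u : Fin n → Fin m → ℤ), (∀ j i, (|u j i| : ℝ) ≤ H) →
    Admissible (fun j => lin (u j) a) →
    ∀ j, (|lin (u j) a| : ℝ) ≤ (rad (∏ k, lin (u k) a) : ℝ) ^ ((1 + ε) / n)

lemma log_rad (x : ℤ) : Real.log (rad x) = ∑ p ∈ x.natAbs.primeFactors, Real.log (p : ℝ) := by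
  unfold rad
  push_cast
  rw [Real.log_prod]
  intro p hp
  have := (Nat.prime_of_mem_primeFactors hp).pos
  positivity

lemma rad_pos (x : ℤ) : 0 < rad x :=
  Finset.prod_pos fun p hp => (Nat.prime_of_mem_primeFactors hp).pos

lemma log_rad_prod {n : ℕ} (x : Fin n → ℤ) (hx : Admissible x) :
    Real.log (rad (∏ j, x j)) = ∑ j, Real.log (rad (x j)) := by
  classical
  rw [log_rad]
  have h1 : (∏ j, x j).natAbs = ∏ j, (x j).natAbs := by
    rw [← Int.natAbsHom_apply, map_prod]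
    rfl
  have h2 : (∏ j, (x j).natAbs).primeFactors =
      Finset.univ.biUnion fun j => (x j).natAbs.primeFactors := by
    ext p
    rw [Nat.mem_primeFactors, Finset.mem_biUnion]
    have h0 : ∏ j, (x j).natAbs ≠ 0 :=
      Finset.prod_ne_zero_iff.2 fun j _ => Int.natAbs_ne_zero.2 (hx.1 j)
    constructor
    · rintro ⟨hp, hd, _⟩
      obtain ⟨j, hj, hd⟩ := (hp.prime.dvd_finsetProd_iff _).1 hd
      exact ⟨j, hj, Nat.mem_primeFactors.2 ⟨hp, hd, Int.natAbs_ne_zero.2 (hx.1 j)⟩⟩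
    · rintro ⟨j, hj, hd⟩
      have h3 := Nat.mem_primeFactors.1 hd
      exact ⟨h3.1, h3.2.1.trans (Finset.dvd_prod_of_mem _ hj), h0⟩
  rw [h1, h2, Finset.sum_biUnion]
  · exact Finset.sum_congr rfl fun j _ => (log_rad (x j)).symm
  · intro i _ j _ hij
    have := hx.2.1 i j hij
    exact Nat.Coprime.disjoint_primeFactors (Int.isCoprime_iff_gcd_eq_one.1 this)

theorem strong_main (m : ℕ) (θ ε : ℝ) (hθ : 1 / 2 < θ) (hθ1 : θ ≤ 1) (hε : 0 < ε) :
    ∃ δ η : ℝ, 0 < δ ∧ 0 < η ∧ ∀ᶠ X : ℕ in atTop, ∀ A : Fin m → Finset ℕ,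
      (∀ i, Spread X θ ((X : ℝ) ^ η) (A i)) → ∃ S : Finset (Fin m → ℕ), S ⊆ Fintype.piFinset A ∧
        (S.card : ℝ) ≤ (X : ℝ) ^ (-δ) * ∏ i, ((A i).card : ℝ) ∧
        ∀ a ∈ Fintype.piFinset A, a ∉ S → StrongN ε ((X : ℝ) ^ η) a := by
  obtain ⟨ε₀, hε₀⟩ : ∃ ε₀, ε₀ = min ε 1 / 20 := ⟨_, rfl⟩
  have he0 : 0 < ε₀ := by rw [hε₀]; positivity
  have he1 : 20 * ε₀ ≤ ε := by rw [hε₀]; have := min_le_left ε 1; linarith
  have he2 : 20 * ε₀ ≤ 1 := by rw [hε₀]; have := min_le_right ε 1; linarith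
  obtain ⟨κ, hκ⟩ : ∃ κ, κ = θ - 1 / 2 := ⟨_, rfl⟩
  have hκ0 : 0 < κ := by rw [hκ]; linarith
  have hκ1 : κ ≤ 1 / 2 := by rw [hκ]; linarith
  have hm0 : (0 : ℝ) ≤ m := Nat.cast_nonneg m
  obtain ⟨η, hη⟩ : ∃ η, η = ε₀ * κ / (m + 4) := ⟨_, rfl⟩
  have hη0 : 0 < η := by rw [hη]; positivity
  have hηm : (m + 4) * η = ε₀ * κ := by rw [hη]; field_simp
  have hη1 : η ≤ ε₀ / 8 := by nlinarith
  obtain ⟨Z, hZ⟩ : ∃ Z, Z = ∑' n : ℕ, 1 / (n : ℝ) ^ (θ + 1 / 2) := ⟨_, rfl⟩
  have hZ0 : 0 ≤ Z := by rw [hZ]; exact tsum_nonneg fun n => by positivity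
  refine ⟨η, η, hη0, hη0, ?_⟩
  filter_upwards [eventually_ge_atTop 1, ev_const ((3 : ℝ) ^ m * (3 + 3 * m * Z)) η hη0,
    ev_const (4 : ℝ) ε₀ he0, ev_const (m : ℝ) η hη0] with X hX1 hXM hX4 hXm
  intro A hA
  have hX0 : (0 : ℝ) < X := by exact_mod_cast hX1
  have hX1r : (1 : ℝ) ≤ X := by exact_mod_cast hX1
  have hXη : 1 ≤ (X : ℝ) ^ η := Real.one_le_rpow hX1r hη0.le
  set U : ℕ := ⌊(X : ℝ) ^ η⌋₊ with hU
  set Y : ℕ := ⌊(X : ℝ) ^ (1 - ε₀)⌋₊ with hY
  set E : ℕ := ⌈(X : ℝ) ^ ε₀⌉₊ with hE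
  have hU1 : 1 ≤ U := Nat.le_floor (by simpa using hXη)
  have hU2 : (U : ℝ) ≤ (X : ℝ) ^ η := Nat.floor_le (by positivity)
  have hYX : 1 ≤ (X : ℝ) ^ (1 - ε₀) := Real.one_le_rpow hX1r (by linarith)
  have hY2 : (Y : ℝ) ≤ (X : ℝ) ^ (1 - ε₀) := Nat.floor_le (by positivity)
  have hE1 : (X : ℝ) ^ ε₀ ≤ E := Nat.le_ceil _
  have hXε : 1 ≤ (X : ℝ) ^ ε₀ := Real.one_le_rpow hX1r he0.le
  have hE2 : (E : ℝ) ≤ 2 * (X : ℝ) ^ ε₀ := by
    have := (Nat.ceil_lt_add_one (by positivity : 0 ≤ (X : ℝ) ^ ε₀)).le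
    linarith
  have hE0 : 1 ≤ E := by
    have : (1 : ℝ) ≤ E := by linarith
    exact_mod_cast this
  have hp : ∀ s t : ℝ, (X : ℝ) ^ s * (X : ℝ) ^ t = (X : ℝ) ^ (s + t) :=
    fun s t => (Real.rpow_add hX0 s t).symm
  obtain ⟨S, hSA, hgood, hcard⟩ := badT_card hA hθ hθ1 (by positivity) hX1 U Y E hU1 hE0
  refine ⟨S, hSA, ?_, ?_⟩
  · refine hcard.trans ?_
    rw [← hZ]
    have hprod : 0 ≤ ∏ j, ((A j).card : ℝ) := Finset.prod_nonneg fun j _ => Nat.cast_nonneg _
    rw [← mul_assoc, ← mul_assoc]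
    refine mul_le_mul_of_nonneg_right ?_ hprod
    have t1 : (((2 * Y + 1 : ℕ) : ℝ) / X) ^ θ ≤ 3 * (X : ℝ) ^ (-(ε₀ * κ)) := by
      have h1 : (((2 * Y + 1 : ℕ) : ℝ) / X) ≤ 3 * (X : ℝ) ^ (-ε₀) := by
        push_cast
        have h2 : (X : ℝ) ^ (1 - ε₀) = X * (X : ℝ) ^ (-ε₀) := by
          rw [show (1 : ℝ) - ε₀ = 1 + (-ε₀) by ring, ← hp, Real.rpow_one]
        rw [div_le_iff₀ hX0]
        nlinarith
      calc (((2 * Y + 1 : ℕ) : ℝ) / X) ^ θ ≤ (3 * (X : ℝ) ^ (-ε₀)) ^ θ :=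
            Real.rpow_le_rpow (by positivity) h1 (by linarith)
        _ = 3 ^ θ * (X : ℝ) ^ (-ε₀ * θ) := by
            rw [Real.mul_rpow (by norm_num) (by positivity), ← Real.rpow_mul hX0.le]
        _ ≤ 3 * (X : ℝ) ^ (-(ε₀ * κ)) := by
            refine mul_le_mul ?_ ?_ (by positivity) (by norm_num)
            · calc (3 : ℝ) ^ θ ≤ 3 ^ (1 : ℝ) :=
                    Real.rpow_le_rpow_of_exponent_le (by norm_num) hθ1
                _ = 3 := Real.rpow_one _
            · refine Real.rpow_le_rpow_of_exponent_le hX1r ?_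
              have : ε₀ * κ ≤ ε₀ * θ := mul_le_mul_of_nonneg_left (by linarith) he0.le
              linarith
    have t2 : (E : ℝ) ^ (-(θ - 1 / 2)) ≤ (X : ℝ) ^ (-(ε₀ * κ)) := by
      rw [← hκ]
      calc (E : ℝ) ^ (-κ) ≤ ((X : ℝ) ^ ε₀) ^ (-κ) :=
            Real.rpow_le_rpow_of_nonpos (by positivity) hE1 (by linarith)
        _ = (X : ℝ) ^ (-(ε₀ * κ)) := by
            rw [← Real.rpow_mul hX0.le]; congr 1; ring
    have t3 : (3 * U : ℝ) ^ m ≤ 3 ^ m * (X : ℝ) ^ (m * η) := by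
      rw [mul_pow]
      refine mul_le_mul_of_nonneg_left ?_ (by positivity)
      calc (U : ℝ) ^ m ≤ ((X : ℝ) ^ η) ^ m := by gcongr
        _ = (X : ℝ) ^ (m * η) := by
            rw [← Real.rpow_natCast, ← Real.rpow_mul hX0.le]; congr 1; ring
    have t4 : (((2 * Y + 1 : ℕ) : ℝ) / X) ^ θ + 3 * (m * U : ℕ) * (Z * (E : ℝ) ^ (-(θ - 1 / 2))) ≤
        (3 + 3 * m * Z) * (X : ℝ) ^ (η - ε₀ * κ) := by
      have h1 : (X : ℝ) ^ (-(ε₀ * κ)) ≤ (X : ℝ) ^ (η - ε₀ * κ) :=
        Real.rpow_le_rpow_of_exponent_le hX1r (by linarith)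
      have h2 : 3 * ((m * U : ℕ) : ℝ) * (Z * (E : ℝ) ^ (-(θ - 1 / 2))) ≤
          3 * m * Z * (X : ℝ) ^ (η - ε₀ * κ) := by
        push_cast
        have h3 : (U : ℝ) * (E : ℝ) ^ (-(θ - 1 / 2)) ≤ (X : ℝ) ^ (η - ε₀ * κ) := by
          calc (U : ℝ) * (E : ℝ) ^ (-(θ - 1 / 2)) ≤ (X : ℝ) ^ η * (X : ℝ) ^ (-(ε₀ * κ)) :=
                mul_le_mul hU2 t2 (by positivity) (by positivity)
            _ = (X : ℝ) ^ (η - ε₀ * κ) := by rw [hp]; congr 1
        calc 3 * ((m : ℝ) * U) * (Z * (E : ℝ) ^ (-(θ - 1 / 2))) =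
            3 * m * Z * (U * (E : ℝ) ^ (-(θ - 1 / 2))) := by ring
          _ ≤ 3 * m * Z * (X : ℝ) ^ (η - ε₀ * κ) :=
              mul_le_mul_of_nonneg_left h3 (by positivity)
      calc _ ≤ 3 * (X : ℝ) ^ (η - ε₀ * κ) + 3 * m * Z * (X : ℝ) ^ (η - ε₀ * κ) := by
            refine add_le_add (t1.trans ?_) h2
            exact mul_le_mul_of_nonneg_left h1 (by norm_num)
        _ = _ := by ring
    calc (3 * U : ℝ) ^ m * (X : ℝ) ^ η * ((((2 * Y + 1 : ℕ) : ℝ) / X) ^ θ +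
          3 * (m * U : ℕ) * (Z * (E : ℝ) ^ (-(θ - 1 / 2)))) ≤
        3 ^ m * (X : ℝ) ^ (m * η) * (X : ℝ) ^ η * ((3 + 3 * m * Z) * (X : ℝ) ^ (η - ε₀ * κ)) := by
          refine mul_le_mul (mul_le_mul_of_nonneg_right t3 (by positivity)) t4 ?_ (by positivity)
          have h2 : 0 ≤ (((2 * Y + 1 : ℕ) : ℝ) / X) ^ θ := Real.rpow_nonneg (by positivity) _
          have h3 : 0 ≤ (E : ℝ) ^ (-(θ - 1 / 2)) := Real.rpow_nonneg (Nat.cast_nonneg E) _
          have h4 : 0 ≤ 3 * ((m * U : ℕ) : ℝ) := mul_nonneg (by norm_num) (Nat.cast_nonneg _)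
          exact add_nonneg h2 (mul_nonneg h4 (mul_nonneg hZ0 h3))
      _ = 3 ^ m * (3 + 3 * m * Z) * ((X : ℝ) ^ (m * η) * (X : ℝ) ^ η * (X : ℝ) ^ (η - ε₀ * κ)) := by
          ring
      _ = 3 ^ m * (3 + 3 * m * Z) * (X : ℝ) ^ (-(2 * η)) := by
          rw [hp, hp, ← hηm]
          congr 2
          ring
      _ ≤ (X : ℝ) ^ η * (X : ℝ) ^ (-(2 * η)) := mul_le_mul_of_nonneg_right hXM (by positivity)
      _ = (X : ℝ) ^ (-η) := by rw [hp]; congr 1; ring
  · intro a haA haS n u huH hadm j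
    have hg := hgood a haA haS
    have hL : 0 ≤ Real.log X := Real.log_nonneg hX1r
    have huU : ∀ j i, |u j i| ≤ (U : ℤ) := by
      intro j i
      have h1 : ((|u j i|).toNat : ℝ) ≤ (X : ℝ) ^ η := by
        have h2 := huH j i
        have h3 : (((|u j i|).toNat : ℤ) : ℝ) = (|u j i| : ℤ) := by
          rw [Int.toNat_of_nonneg (abs_nonneg _)]
        have h4 : ((|u j i|).toNat : ℝ) = |(u j i : ℝ)| := by
          rw [← Int.cast_abs, ← h3, Int.cast_natCast]
        rw [h4]; exact h2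
      have h2 := Nat.le_floor h1
      rw [← hU] at h2
      have h3 : ((|u j i|).toNat : ℤ) = |u j i| := Int.toNat_of_nonneg (abs_nonneg _)
      rw [← h3]
      exact_mod_cast h2
    have hune : ∀ j, u j ≠ 0 := by
      intro j h0
      apply hadm.1 j
      simp [lin, h0]
    -- the size and the radical of each entry
    have hlow : ∀ j, (1 - 4 * ε₀) * Real.log X ≤ Real.log (rad (lin (u j) a)) := by
      intro j
      obtain ⟨h1, h2⟩ := hg (u j) (hune j) (huU j)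
      have hne : (lin (u j) a).natAbs ≠ 0 := Int.natAbs_ne_zero.2 (hadm.1 j)
      have h3 := rad_lower (lin (u j) a).natAbs hne E (by
        intro e he
        apply h2 e
        have := Int.natCast_dvd_natCast.2 he
        rw [Int.dvd_natAbs] at this
        exact_mod_cast this) ∅
      rw [log_rad]
      simp only [Finset.sum_empty, Finset.sdiff_empty, sub_zero] at h3
      refine le_trans ?_ h3
      have h4 : (1 - ε₀) * Real.log X ≤ Real.log ((lin (u j) a).natAbs : ℝ) := by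
        rw [← Real.log_rpow hX0]
        refine Real.log_le_log (by positivity) ?_
        have h5 := (Nat.lt_floor_add_one ((X : ℝ) ^ (1 - ε₀))).le
        refine h5.trans ?_
        have h6 : ((Y : ℤ) + 1) ≤ |lin (u j) a| := h1
        have h7 : ((Y + 1 : ℕ) : ℤ) ≤ ((lin (u j) a).natAbs : ℤ) := by
          rw [Int.natCast_natAbs]; push_cast; exact h6
        have h8 : Y + 1 ≤ (lin (u j) a).natAbs := by exact_mod_cast h7
        exact_mod_cast h8
      have h5 : Real.log E ≤ 3 / 2 * ε₀ * Real.log X := by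
        have h6 : Real.log E ≤ Real.log (2 * (X : ℝ) ^ ε₀) :=
          Real.log_le_log (by exact_mod_cast hE0) hE2
        rw [Real.log_mul (by norm_num) (by positivity), Real.log_rpow hX0] at h6
        have h7 : Real.log 4 ≤ ε₀ * Real.log X := by
          rw [← Real.log_rpow hX0]
          exact Real.log_le_log (by norm_num) hX4
        have h8 : Real.log 4 = 2 * Real.log 2 := by
          rw [show (4 : ℝ) = 2 ^ 2 by norm_num, Real.log_pow]; norm_num
        linarith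
      linarith
    have hn : (0 : ℝ) < n := by
      have := j.2
      exact_mod_cast (by omega : 0 < n)
    have hsum : (n : ℝ) * ((1 - 4 * ε₀) * Real.log X) ≤ Real.log (rad (∏ k, lin (u k) a)) := by
      rw [log_rad_prod _ hadm]
      have := Finset.card_nsmul_le_sum (Finset.univ : Finset (Fin n))
        (fun k => Real.log (rad (lin (u k) a))) _ (fun k _ => hlow k)
      rw [Finset.card_univ, Fintype.card_fin, nsmul_eq_mul] at this
      exact this
    -- the upper bound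
    have hup : (|lin (u j) a| : ℝ) ≤ (X : ℝ) ^ (1 + 2 * η) := by
      have h5 : |lin (u j) a| ≤ m * U * X := by
        unfold lin
        refine (Finset.abs_sum_le_sum_abs _ _).trans ?_
        refine (Finset.sum_le_card_nsmul _ _ ((U : ℤ) * X) ?_).trans ?_
        · intro i _
          rw [abs_mul, Nat.abs_cast]
          have h6 := ((hA i).2.1 (a i) (Fintype.mem_piFinset.1 haA i)).2
          have h7 : (a i : ℤ) ≤ X := by exact_mod_cast h6
          have := huU j i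
          gcongr
        · rw [Finset.card_univ, Fintype.card_fin, nsmul_eq_mul]
          exact le_of_eq (by ring)
      have h6 : (|lin (u j) a| : ℝ) ≤ m * U * X := by exact_mod_cast h5
      refine h6.trans ?_
      calc (m : ℝ) * U * X ≤ (X : ℝ) ^ η * (X : ℝ) ^ η * X := by gcongr
        _ = (X : ℝ) ^ (1 + 2 * η) := by
            have h7 := hp (η + η) 1
            rw [Real.rpow_one] at h7
            rw [hp, h7]
            congr 1; ring
    have hposj : (0 : ℝ) < |lin (u j) a| := by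
      have := abs_pos.2 (hadm.1 j)
      exact_mod_cast this
    have hradpos : (0 : ℝ) < rad (∏ k, lin (u k) a) := by exact_mod_cast rad_pos _
    refine hup.trans ?_
    rw [← Real.log_le_log_iff (by positivity) (by positivity), Real.log_rpow hX0,
      Real.log_rpow hradpos]
    have h9 : (1 + ε) * (1 - 4 * ε₀) * Real.log X ≤
        (1 + ε) / n * Real.log (rad (∏ k, lin (u k) a)) := by
      have h10 : 0 ≤ (1 + ε) / n := by positivity
      have h11 := mul_le_mul_of_nonneg_left hsum h10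
      refine le_trans (le_of_eq ?_) h11
      field_simp
    refine le_trans ?_ h9
    refine mul_le_mul_of_nonneg_right ?_ hL
    nlinarith

/-! ### squares -/

/-- primes: the sum of the reciprocals of the squares is less than `1 / 2` -/
lemma sum_inv_sq (N : ℕ) :
    ∑ p ∈ (Finset.range (N + 1)).filter Nat.Prime, 1 / (p : ℝ) ^ 2 ≤ 1 / 2 := by
  have h1 : ∀ n : ℕ, ∑ k ∈ Finset.range n, 1 / ((2 * (k : ℝ) + 3) ^ 2) ≤
      1 / 4 - 1 / (4 * ((n : ℝ) + 1)) := by
    intro n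
    induction n with
    | zero => norm_num
    | succ n ih =>
      rw [Finset.sum_range_succ]
      have h2 : 1 / ((2 * (n : ℝ) + 3) ^ 2) ≤ 1 / (4 * ((n : ℝ) + 1)) - 1 / (4 * (((n + 1 : ℕ) : ℝ) + 1)) := by
        push_cast
        rw [div_sub_div _ _ (by positivity) (by positivity), div_le_div_iff₀ (by positivity) (by positivity)]
        nlinarith [sq_nonneg (n : ℝ), Nat.cast_nonneg (α := ℝ) n]
      linarith
  have h2 : (Finset.range (N + 1)).filter Nat.Prime ⊆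
      {2} ∪ (Finset.range N).image fun k : ℕ => 2 * k + 3 := by
    intro p hp
    rw [Finset.mem_filter, Finset.mem_range] at hp
    rw [Finset.mem_union, Finset.mem_singleton, Finset.mem_image]
    rcases hp.2.eq_two_or_odd with h | h
    · exact Or.inl h
    · right
      have := hp.2.two_le
      refine ⟨(p - 3) / 2, Finset.mem_range.2 (by omega), by omega⟩
  refine (Finset.sum_le_sum_of_subset_of_nonneg h2 fun _ _ _ => by positivity).trans ?_
  have h5 := Finset.sum_union_inter (s₁ := {2}) (s₂ := (Finset.range N).image fun k : ℕ => 2 * k + 3)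
    (f := fun p : ℕ => 1 / (p : ℝ) ^ 2)
  have h6 : 0 ≤ ∑ p ∈ {2} ∩ (Finset.range N).image (fun k : ℕ => 2 * k + 3), 1 / (p : ℝ) ^ 2 :=
    Finset.sum_nonneg fun _ _ => by positivity
  have h7 : ∑ p ∈ (Finset.range N).image (fun k : ℕ => 2 * k + 3), 1 / (p : ℝ) ^ 2 =
      ∑ k ∈ Finset.range N, 1 / ((2 * (k : ℝ) + 3) ^ 2) := by
    rw [Finset.sum_image (by intro a _ b _ h; simp only at h; omega)]
    refine Finset.sum_congr rfl fun k _ => ?_
    push_cast
    rfl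
  rw [Finset.sum_singleton, h7] at h5
  have h3 := h1 N
  have h4 : (0 : ℝ) ≤ 1 / (4 * ((N : ℝ) + 1)) := by positivity
  have h8 : (1 : ℝ) / ((2 : ℕ) : ℝ) ^ 2 = 1 / 4 := by norm_num
  rw [h8] at h5
  linarith

lemma card_squares_eq (X : ℕ) : (Squares X).card = Nat.sqrt X := by
  unfold Squares
  rw [Finset.card_image_of_injOn, Nat.card_Icc, Nat.add_sub_cancel]
  intro a _ b _ h
  exact Nat.pow_left_injective (n := 2) (by norm_num) h

lemma squares_dvd (X p : ℕ) (hp : p.Prime) :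
    (((Squares X).filter fun a => p ∣ a).card : ℝ) ≤ (Nat.sqrt X : ℝ) / p := by
  have h1 : ((Squares X).filter fun a => p ∣ a) ⊆
      ((Finset.Icc 1 (Nat.sqrt X / p)).image fun k => (p * k) ^ 2) := by
    intro a ha
    rw [Finset.mem_filter, Squares, Finset.mem_image] at ha
    obtain ⟨⟨s, hs, rfl⟩, hd⟩ := ha
    rw [Finset.mem_Icc] at hs
    obtain ⟨k, rfl⟩ := hp.dvd_of_dvd_pow hd
    refine Finset.mem_image.2 ⟨k, Finset.mem_Icc.2 ⟨?_, ?_⟩, rfl⟩
    · rcases Nat.eq_zero_or_pos k with h | h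
      · rw [h, mul_zero] at hs; omega
      · exact h
    · rw [Nat.le_div_iff_mul_le hp.pos, mul_comm]
      exact hs.2
  have h2 := (Finset.card_le_card h1).trans Finset.card_image_le
  rw [Nat.card_Icc, Nat.add_sub_cancel] at h2
  exact (by exact_mod_cast h2 : (((Squares X).filter fun a => p ∣ a).card : ℝ) ≤
    ((Nat.sqrt X / p : ℕ) : ℝ)).trans Nat.cast_div_le

lemma rad_le_natAbs {x : ℤ} (hx : x ≠ 0) : rad x ≤ x.natAbs :=
  Nat.le_of_dvd (Int.natAbs_pos.2 hx) (Nat.prod_primeFactors_dvd _)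

lemma rad_sq_le {s : ℕ} (hs : 1 ≤ s) : rad ((s : ℤ) ^ 2) ≤ s := by
  unfold rad
  have e : ((s : ℤ) ^ 2).natAbs = s ^ 2 := by rw [Int.natAbs_pow]; simp
  rw [e, Nat.primeFactors_pow _ (by norm_num)]
  exact Nat.le_of_dvd hs (Nat.prod_primeFactors_dvd _)

theorem squares_bad {ε : ℝ} (hε : ε ≤ 1 / 2) {s t : ℕ} (hs : 1 ≤ s) (ht : 1 ≤ t)
    (hst : Nat.Coprime s t) : ¬ StrongN ε 1 ![s ^ 2, t ^ 2] := by
  intro h
  have hl : ∀ v : Fin 2 → ℤ, lin v ![s ^ 2, t ^ 2] = v 0 * s ^ 2 + v 1 * t ^ 2 := by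
    intro v
    simp [lin, Fin.sum_univ_two]
  have hadm : Admissible (fun j : Fin 3 => lin ((![![1, 0], ![0, 1], ![-1, -1]] :
      Fin 3 → Fin 2 → ℤ) j) ![s ^ 2, t ^ 2]) := by
    have hc : IsCoprime ((s : ℤ) ^ 2) ((t : ℤ) ^ 2) := by
      have : IsCoprime (s : ℤ) (t : ℤ) := Nat.isCoprime_iff_coprime.2 hst
      exact this.pow
    have hs' : (0 : ℤ) < (s : ℤ) ^ 2 := by positivity
    have ht' : (0 : ℤ) < (t : ℤ) ^ 2 := by positivity
    have h13 : IsCoprime ((s : ℤ) ^ 2) (-1 * (s : ℤ) ^ 2 + -1 * (t : ℤ) ^ 2) := by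
      have h0 := (hc.neg_right).add_mul_left_right (-1)
      have e : -1 * (s : ℤ) ^ 2 + -1 * (t : ℤ) ^ 2 = -(t : ℤ) ^ 2 + (s : ℤ) ^ 2 * (-1) := by ring
      rw [e]; exact h0
    have h23 : IsCoprime ((t : ℤ) ^ 2) (-1 * (s : ℤ) ^ 2 + -1 * (t : ℤ) ^ 2) := by
      have h0 := (hc.symm.neg_right).add_mul_left_right (-1)
      have e : -1 * (s : ℤ) ^ 2 + -1 * (t : ℤ) ^ 2 = -(s : ℤ) ^ 2 + (t : ℤ) ^ 2 * (-1) := by ring
      rw [e]; exact h0
    refine ⟨?_, ?_, ?_⟩
    · intro j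
      fin_cases j
      · simp only [hl]; simp; omega
      · simp only [hl]; simp; omega
      · simp only [hl]
        simp
        nlinarith
    · intro i j hij
      fin_cases i <;> fin_cases j <;> simp only [hl] <;> simp at hij ⊢
      · exact hc
      · simpa using h13
      · exact hc.symm
      · simpa using h23
      · simpa using h13.symm
      · simpa using h23.symm
    · simp only [hl]
      simp [Fin.sum_univ_three]
      ring
  have h1 := h 3 _ (by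
    intro j i
    fin_cases j <;> fin_cases i <;> simp) hadm 2
  have hprod := log_rad_prod _ hadm
  rw [Fin.sum_univ_three] at hprod
  simp only [hl] at hprod h1
  simp only [Matrix.cons_val_zero, Matrix.cons_val_one, Matrix.cons_val, one_mul, zero_mul,
    add_zero, zero_add] at hprod h1
  generalize (∏ x, (![![1, 0], ![0, 1], ![-1, -1]] x 0 * (s : ℤ) ^ 2 +
    ![![1, 0], ![0, 1], ![-1, -1]] x 1 * (t : ℤ) ^ 2)) = R at h1 hprod
  have hW0 : (0 : ℝ) < (s : ℝ) ^ 2 + (t : ℝ) ^ 2 := by positivity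
  have e1 : |((-1 * (s : ℤ) ^ 2 + -1 * (t : ℤ) ^ 2 : ℤ) : ℝ)| = (s : ℝ) ^ 2 + (t : ℝ) ^ 2 := by
    push_cast
    rw [show (-1 : ℝ) * (s : ℝ) ^ 2 + -1 * (t : ℝ) ^ 2 = -((s : ℝ) ^ 2 + (t : ℝ) ^ 2) by ring,
      abs_neg, abs_of_pos hW0]
  rw [e1] at h1
  have hR1 : (1 : ℝ) ≤ rad R := by exact_mod_cast rad_pos R
  have hR0 : 0 ≤ Real.log (rad R) := Real.log_nonneg hR1
  have hsr : (1 : ℝ) ≤ s := by exact_mod_cast hs
  have htr : (1 : ℝ) ≤ t := by exact_mod_cast ht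
  have hl1 : Real.log (rad ((s : ℤ) ^ 2)) ≤ Real.log s :=
    Real.log_le_log (by exact_mod_cast rad_pos _) (by exact_mod_cast rad_sq_le hs)
  have hl2 : Real.log (rad ((t : ℤ) ^ 2)) ≤ Real.log t :=
    Real.log_le_log (by exact_mod_cast rad_pos _) (by exact_mod_cast rad_sq_le ht)
  have hne : (-1 * (s : ℤ) ^ 2 + -1 * (t : ℤ) ^ 2 : ℤ) ≠ 0 := by
    have : (0 : ℤ) < (s : ℤ) ^ 2 + (t : ℤ) ^ 2 := by positivity
    intro h0
    linarith
  have hl3 : Real.log (rad (-1 * (s : ℤ) ^ 2 + -1 * (t : ℤ) ^ 2)) ≤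
      Real.log ((s : ℝ) ^ 2 + (t : ℝ) ^ 2) := by
    refine Real.log_le_log (by exact_mod_cast rad_pos _) ?_
    have h2 := rad_le_natAbs hne
    have h3 : ((-1 * (s : ℤ) ^ 2 + -1 * (t : ℤ) ^ 2).natAbs : ℤ) = (s : ℤ) ^ 2 + (t : ℤ) ^ 2 := by
      rw [Int.natCast_natAbs, show -1 * (s : ℤ) ^ 2 + -1 * (t : ℤ) ^ 2 = -((s : ℤ) ^ 2 + (t : ℤ) ^ 2) by
        ring, abs_neg, abs_of_nonneg (by positivity)]
    have h4 : ((rad (-1 * (s : ℤ) ^ 2 + -1 * (t : ℤ) ^ 2) : ℕ) : ℤ) ≤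
        (s : ℤ) ^ 2 + (t : ℤ) ^ 2 := by
      rw [← h3]; exact_mod_cast h2
    exact_mod_cast h4
  have hst2 : Real.log s + Real.log t + Real.log 2 ≤ Real.log ((s : ℝ) ^ 2 + (t : ℝ) ^ 2) := by
    rw [← Real.log_mul (by positivity) (by positivity), ← Real.log_mul (by positivity) (by norm_num)]
    refine Real.log_le_log (by positivity) ?_
    nlinarith [sq_nonneg ((s : ℝ) - t)]
  have h5 : Real.log ((s : ℝ) ^ 2 + (t : ℝ) ^ 2) ≤ (1 + ε) / 3 * Real.log (rad R) := by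
    have h6 := Real.log_le_log hW0 h1
    rw [Real.log_rpow (by linarith)] at h6
    exact_mod_cast h6
  have h7 : (1 + ε) / 3 * Real.log (rad R) ≤ 1 / 2 * Real.log (rad R) :=
    mul_le_mul_of_nonneg_right (by linarith) hR0
  have h8 : 0 < Real.log 2 := Real.log_pos (by norm_num)
  linarith

theorem squares_half {ε : ℝ} (hε : ε ≤ 1 / 2) (X : ℕ) :
    ∃ S : Finset (Fin 2 → ℕ), S ⊆ Fintype.piFinset (fun _ : Fin 2 => Squares X) ∧
      ((Squares X).card : ℝ) ^ 2 / 2 ≤ S.card ∧ ∀ a ∈ S, ¬ StrongN ε 1 a := by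
  classical
  set N := Nat.sqrt X with hN
  set P := Fintype.piFinset (fun _ : Fin 2 => Squares X) with hP
  set T := P.filter fun a => Nat.Coprime (a 0) (a 1) with hT
  set B := P.filter fun a => ¬ Nat.Coprime (a 0) (a 1) with hB
  have hcard : T.card + B.card = P.card := Finset.card_filter_add_card_filter_not _
  have hPc : P.card = N ^ 2 := by
    rw [hP, Fintype.card_piFinset, Finset.prod_const, card_squares_eq, Finset.card_univ,
      Fintype.card_fin]
  have hBsub : B ⊆ ((Finset.range (N + 1)).filter Nat.Prime).biUnion fun p =>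
      Fintype.piFinset (fun _ : Fin 2 => (Squares X).filter fun a => p ∣ a) := by
    intro a ha
    rw [hB, Finset.mem_filter, hP, Fintype.mem_piFinset] at ha
    obtain ⟨p, hp, h0, h1⟩ := Nat.Prime.not_coprime_iff_dvd.1 ha.2
    rw [Finset.mem_biUnion]
    refine ⟨p, Finset.mem_filter.2 ⟨?_, hp⟩, ?_⟩
    · have := ha.1 0
      rw [Squares, Finset.mem_image] at this
      obtain ⟨s, hs, hs2⟩ := this
      rw [Finset.mem_Icc] at hs
      have hps : p ∣ s := hp.dvd_of_dvd_pow (hs2 ▸ h0)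
      have := Nat.le_of_dvd hs.1 hps
      exact Finset.mem_range.2 (by omega)
    · rw [Fintype.mem_piFinset]
      intro i
      fin_cases i
      · exact Finset.mem_filter.2 ⟨ha.1 0, h0⟩
      · exact Finset.mem_filter.2 ⟨ha.1 1, h1⟩
  have hBc : (B.card : ℝ) ≤ (N : ℝ) ^ 2 / 2 := by
    have h1 : (B.card : ℝ) ≤ ∑ p ∈ (Finset.range (N + 1)).filter Nat.Prime,
        ((Fintype.piFinset (fun _ : Fin 2 => (Squares X).filter fun a => p ∣ a)).card : ℝ) := by
      exact_mod_cast (Finset.card_le_card hBsub).trans Finset.card_biUnion_le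
    refine h1.trans ?_
    have h2 : ∀ p ∈ (Finset.range (N + 1)).filter Nat.Prime,
        ((Fintype.piFinset (fun _ : Fin 2 => (Squares X).filter fun a => p ∣ a)).card : ℝ) ≤
          (N : ℝ) ^ 2 * (1 / (p : ℝ) ^ 2) := by
      intro p hp
      have hp' := (Finset.mem_filter.1 hp).2
      rw [Fintype.card_piFinset, Finset.prod_const, Finset.card_univ, Fintype.card_fin]
      push_cast
      have h3 := squares_dvd X p hp'
      calc _ ≤ ((N : ℝ) / p) ^ 2 := by gcongr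
        _ = _ := by ring
    refine (Finset.sum_le_sum h2).trans ?_
    rw [← Finset.mul_sum]
    have := mul_le_mul_of_nonneg_left (sum_inv_sq N) (sq_nonneg (N : ℝ))
    linarith
  refine ⟨T, Finset.filter_subset _ _, ?_, ?_⟩
  · rw [card_squares_eq]
    have h1 : (T.card : ℝ) + B.card = (N : ℝ) ^ 2 := by
      rw [hPc] at hcard
      exact_mod_cast hcard
    rw [← hN]
    linarith
  · intro a ha
    rw [hT, Finset.mem_filter, hP, Fintype.mem_piFinset] at ha
    have h0 := ha.1 0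
    have h1 := ha.1 1
    rw [Squares, Finset.mem_image] at h0 h1
    obtain ⟨s, hs, hs2⟩ := h0
    obtain ⟨t, ht, ht2⟩ := h1
    rw [Finset.mem_Icc] at hs ht
    have hc : Nat.Coprime s t := by
      have := ha.2
      rw [← hs2, ← ht2] at this
      exact (Nat.Coprime.coprime_dvd_left (dvd_pow_self s two_ne_zero) this).coprime_dvd_right
        (dvd_pow_self t two_ne_zero)
    have e : a = ![s ^ 2, t ^ 2] := by
      funext i
      fin_cases i
      · exact hs2.symm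
      · exact ht2.symm
    rw [e]
    exact squares_bad hε hs.1 ht.1 hc

end Pool.Agent.W5h37.Thin
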