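import Pool.Agent.W5h37.Thin.Core

/-!
# From good elements to the truncated counting function
-/

set_option autoImplicit false

namespace Pool.Agent.W5h37.Thin

open Finset

/-- The divisor bound `d(n) ≤ C n^δ` (copied from the library). -/
lemma divisor_bound (δ : ℝ) (hδ : 0 < δ) :
    ∃ C : ℝ, 0 < C ∧ ∀ n : ℕ, n ≠ 0 → ((n.divisors.card : ℕ) : ℝ) ≤ C * (n : ℝ) ^ δ := by
  have hlog : 0 < Real.log 2 := Real.log_pos (by norm_num)
  have hδl : 0 < δ * Real.log 2 := mul_pos hδ hlog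
  set M : ℝ := max 1 (1 / (δ * Real.log 2)) with hM
  have hM1 : 1 ≤ M := le_max_left _ _
  have hM2 : 1 ≤ M * (δ * Real.log 2) := by
    have : 1 / (δ * Real.log 2) ≤ M := le_max_right _ _
    calc (1 : ℝ) = 1 / (δ * Real.log 2) * (δ * Real.log 2) := by
          field_simp
      _ ≤ M * (δ * Real.log 2) := mul_le_mul_of_nonneg_right this hδl.le
  set K : ℕ := ⌈(2 : ℝ) ^ (1 / δ)⌉₊ with hK
  have hKle : (2 : ℝ) ^ (1 / δ) ≤ (K : ℝ) := Nat.le_ceil _
  refine ⟨M ^ K, by positivity, ?_⟩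
  intro n hn
  have hbase : ∀ p ∈ n.primeFactors, (((n.factorization p + 1 : ℕ)) : ℝ) ≤
      (if p < K then M else 1) * (((p : ℝ) ^ (n.factorization p)) ^ δ) := by
    intro p hp
    have hpp : p.Prime := Nat.prime_of_mem_primeFactors hp
    set a := n.factorization p with ha
    have hp2 : (2 : ℝ) ≤ (p : ℝ) := by exact_mod_cast hpp.two_le
    have hp0 : (0 : ℝ) ≤ (p : ℝ) := by positivity
    have hpow : (((p : ℝ) ^ a) ^ δ) = ((p : ℝ) ^ δ) ^ a := by
      rw [← Real.rpow_natCast (p : ℝ) a, ← Real.rpow_mul hp0, ← Real.rpow_natCast ((p : ℝ) ^ δ) a,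
        ← Real.rpow_mul hp0, mul_comm]
    rw [hpow]
    split_ifs with hlt
    · have h1 : (2 : ℝ) ^ δ ≤ (p : ℝ) ^ δ := Real.rpow_le_rpow (by norm_num) hp2 hδ.le
      have h2 : ((2 : ℝ) ^ δ) ^ a ≤ ((p : ℝ) ^ δ) ^ a :=
        pow_le_pow_left₀ (by positivity) h1 a
      have h3 : 1 + (a : ℝ) * (δ * Real.log 2) ≤ ((2 : ℝ) ^ δ) ^ a := by
        have : ((2 : ℝ) ^ δ) ^ a = Real.exp ((a : ℝ) * (δ * Real.log 2)) := by
          rw [← Real.rpow_natCast, ← Real.rpow_mul (by norm_num), Real.rpow_def_of_pos (by norm_num)]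
          congr 1; ring
        rw [this]
        have := Real.add_one_le_exp ((a : ℝ) * (δ * Real.log 2))
        linarith
      have h4 : (((a + 1 : ℕ)) : ℝ) ≤ M * (1 + (a : ℝ) * (δ * Real.log 2)) := by
        push_cast
        have ha0 : (0 : ℝ) ≤ (a : ℝ) := by positivity
        nlinarith [mul_le_mul_of_nonneg_left hM2 ha0]
      calc (((a + 1 : ℕ)) : ℝ) ≤ M * (1 + (a : ℝ) * (δ * Real.log 2)) := h4
        _ ≤ M * (((p : ℝ) ^ δ) ^ a) :=
          mul_le_mul_of_nonneg_left (h3.trans h2) (by linarith)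
    · have hKp : (K : ℝ) ≤ (p : ℝ) := by exact_mod_cast not_lt.mp hlt
      have h1 : (2 : ℝ) ≤ (p : ℝ) ^ δ := by
        have h5 : ((2 : ℝ) ^ (1 / δ)) ^ δ ≤ (p : ℝ) ^ δ :=
          Real.rpow_le_rpow (by positivity) (hKle.trans hKp) hδ.le
        have h6 : ((2 : ℝ) ^ (1 / δ)) ^ δ = 2 := by
          rw [← Real.rpow_mul (by norm_num)]
          rw [one_div, inv_mul_cancel₀ hδ.ne', Real.rpow_one]
        rwa [h6] at h5
      have h2 : (2 : ℝ) ^ a ≤ ((p : ℝ) ^ δ) ^ a := pow_le_pow_left₀ (by norm_num) h1 a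
      have h3 : (((a + 1 : ℕ)) : ℝ) ≤ (2 : ℝ) ^ a := by
        have : a + 1 ≤ 2 ^ a := Nat.lt_two_pow_self
        exact_mod_cast this
      rw [one_mul]
      exact h3.trans h2
  have hn' : (n : ℝ) ^ δ = ∏ p ∈ n.primeFactors, (((p : ℝ) ^ (n.factorization p)) ^ δ) := by
    rw [Real.finsetProd_rpow _ _ (fun i _ => by positivity)]
    congr 1
    have := Nat.prod_factorization_pow_eq_self hn
    conv_lhs => rw [← this]
    rw [Finsupp.prod]
    push_cast
    rfl
  rw [Nat.card_divisors hn]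
  push_cast
  calc (∏ p ∈ n.primeFactors, ((n.factorization p : ℝ) + 1))
      ≤ ∏ p ∈ n.primeFactors, ((if p < K then M else 1) * (((p : ℝ) ^ (n.factorization p)) ^ δ)) := by
        apply Finset.prod_le_prod
        · intro i _; positivity
        · intro i hi
          have := hbase i hi
          push_cast at this
          exact this
    _ = (∏ p ∈ n.primeFactors, (if p < K then M else 1)) * (n : ℝ) ^ δ := by
        rw [Finset.prod_mul_distrib, hn']
    _ ≤ M ^ K * (n : ℝ) ^ δ := by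
        apply mul_le_mul_of_nonneg_right _ (by positivity)
        rw [Finset.prod_ite, Finset.prod_const, Finset.prod_const_one, mul_one]
        apply pow_le_pow_right₀ hM1
        calc (n.primeFactors.filter (fun p => p < K)).card ≤ (Finset.range K).card := by
              apply Finset.card_le_card
              intro x hx
              simp only [Finset.mem_filter] at hx
              exact Finset.mem_range.mpr hx.2
          _ = K := Finset.card_range K

lemma rad_lower (n : ℕ) (hn : n ≠ 0) (E : ℕ) (h : ∀ e : ℕ, e ^ 2 ∣ n → e < E) (T : Finset ℕ) :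
    Real.log n - 2 * Real.log E - ∑ p ∈ T, Real.log (p : ℝ) ≤
      ∑ p ∈ n.primeFactors \ T, Real.log (p : ℝ) := by
  classical
  obtain ⟨s, e, h1, hs⟩ := Nat.sq_mul_squarefree n
  have he0 : e ≠ 0 := by
    rintro rfl
    apply hn
    rw [← h1]
    ring
  have hs0 : s ≠ 0 := hs.ne_zero
  have he : e < E := h e ⟨s, h1.symm⟩
  have he1 : (0 : ℝ) < e := by exact_mod_cast Nat.pos_of_ne_zero he0
  have h2 : Real.log n = 2 * Real.log e + Real.log s := by
    rw [← h1]
    push_cast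
    rw [Real.log_mul (by positivity) (by exact_mod_cast hs0), Real.log_pow]
    push_cast
    ring
  have h3 : Real.log e ≤ Real.log E := Real.log_le_log he1 (by exact_mod_cast he.le)
  have hf : ∀ q : ℕ, 0 ≤ Real.log (q : ℝ) := fun q => Real.log_natCast_nonneg q
  have h4 : Real.log s = ∑ p ∈ s.primeFactors, Real.log (p : ℝ) := by
    conv_lhs => rw [← Nat.prod_primeFactors_of_squarefree hs]
    push_cast
    rw [Real.log_prod]
    intro p hp
    have := (Nat.prime_of_mem_primeFactors hp).pos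
    positivity
  have h5 : ∑ p ∈ s.primeFactors, Real.log (p : ℝ) ≤ ∑ p ∈ n.primeFactors, Real.log (p : ℝ) := by
    refine Finset.sum_le_sum_of_subset_of_nonneg ?_ fun p _ _ => hf p
    exact Nat.primeFactors_mono ⟨e ^ 2, by rw [← h1]; ring⟩ hn
  have h6 : ∑ p ∈ n.primeFactors, Real.log (p : ℝ) ≤
      ∑ p ∈ n.primeFactors \ T, Real.log (p : ℝ) + ∑ p ∈ T, Real.log (p : ℝ) := by
    rw [← Finset.sum_sdiff (Finset.inter_subset_left : n.primeFactors ∩ T ⊆ n.primeFactors)]
    have e : n.primeFactors \ (n.primeFactors ∩ T) = n.primeFactors \ T := by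
      ext p; simp only [Finset.mem_sdiff, Finset.mem_inter]; tauto
    rw [e]
    have := Finset.sum_le_sum_of_subset_of_nonneg (f := fun p : ℕ => Real.log (p : ℝ))
      (Finset.inter_subset_right : n.primeFactors ∩ T ⊆ T) fun p _ _ => hf p
    linarith
  linarith

/-- the coprime coordinates of the point `[a : b]` -/
def pt (a b : ℕ) : ℤ × ℤ := (((a / Nat.gcd a b : ℕ) : ℤ), ((b / Nat.gcd a b : ℕ) : ℤ))

/-- the value of the linear form of the point `[α.1 : α.2]` at `x` -/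
def form (α x : ℤ × ℤ) : ℤ := x.1 * α.2 - x.2 * α.1

lemma form_pt (α : ℤ × ℤ) (a b : ℕ) :
    (Nat.gcd a b : ℤ) * form α (pt a b) = α.2 * a + (-α.1) * b := by
  unfold form pt
  have h1 : (Nat.gcd a b : ℤ) * ((a / Nat.gcd a b : ℕ) : ℤ) = a := by
    exact_mod_cast Nat.mul_div_cancel' (Nat.gcd_dvd_left a b)
  have h2 : (Nat.gcd a b : ℤ) * ((b / Nat.gcd a b : ℕ) : ℤ) = b := by
    exact_mod_cast Nat.mul_div_cancel' (Nat.gcd_dvd_right a b)
  calc (Nat.gcd a b : ℤ) * (((a / Nat.gcd a b : ℕ) : ℤ) * α.2 - ((b / Nat.gcd a b : ℕ) : ℤ) * α.1)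
      = ((Nat.gcd a b : ℤ) * ((a / Nat.gcd a b : ℕ) : ℤ)) * α.2 -
        ((Nat.gcd a b : ℤ) * ((b / Nat.gcd a b : ℕ) : ℤ)) * α.1 := by ring
    _ = _ := by rw [h1, h2]; ring

/-- a good element gives large truncated counting functions -/
theorem good_point {U Y E b a : ℕ} (hY : 1 ≤ Y) (hE : 1 ≤ E) (hb : 1 ≤ b)
    (h : Good U Y E b a) (α : ℤ × ℤ) (hα : α.2 ≠ 0) (h1 : |α.1| ≤ U) (h2 : |α.2| ≤ U)
    (T : Finset ℕ) :
    form α (pt a b) ≠ 0 ∧ Real.log Y - 3 * Real.log E - ∑ p ∈ T, Real.log (p : ℝ) ≤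
      ∑ p ∈ (form α (pt a b)).natAbs.primeFactors \ T, Real.log (p : ℝ) := by
  have hg : 0 < Nat.gcd a b := Nat.gcd_pos_of_pos_right _ hb
  have hf := form_pt α a b
  obtain ⟨k1, k2, k3⟩ := h
  have h3 := k1 α.2 (-α.1) hα h2 (by rwa [abs_neg])
  rw [← hf] at h3
  have h0 : form α (pt a b) ≠ 0 := by
    intro h0
    rw [h0, mul_zero, abs_zero] at h3
    omega
  refine ⟨h0, ?_⟩
  have h4 := rad_lower (form α (pt a b)).natAbs (Int.natAbs_ne_zero.2 h0) E (by
    intro e he
    refine k2 α.2 (-α.1) hα h2 (by rwa [abs_neg]) e ?_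
    rw [← hf]
    refine dvd_mul_of_dvd_right ?_ _
    rw [← Int.natAbs_dvd_natAbs, Int.natAbs_pow, Int.natAbs_natCast]
    exact he) T
  have h5 : Real.log Y - Real.log E ≤ Real.log ((form α (pt a b)).natAbs : ℝ) := by
    have h6 : (Y : ℤ) < E * ((form α (pt a b)).natAbs : ℤ) := by
      rw [abs_mul, Nat.abs_cast] at h3
      rw [Int.natCast_natAbs]
      have h7 : (Nat.gcd a b : ℤ) ≤ E := by exact_mod_cast k3.le
      nlinarith [abs_pos.2 h0]
    have h7 : (Y : ℝ) ≤ E * ((form α (pt a b)).natAbs : ℝ) := by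
      exact_mod_cast h6.le
    have h8 : (0 : ℝ) < Y := by exact_mod_cast hY
    have h9 : (0 : ℝ) < E := by exact_mod_cast hE
    have h10 : (0 : ℝ) < ((form α (pt a b)).natAbs : ℝ) := by
      exact_mod_cast Int.natAbs_pos.2 h0
    have h11 := Real.log_le_log h8 h7
    rw [Real.log_mul h9.ne' h10.ne'] at h11
    linarith
  linarith

end Pool.Agent.W5h37.Thin
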