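import Mathlib

/-!
# Thin sets which are spread out along arithmetic progressions: counting bad elements
-/

set_option autoImplicit false

namespace Pool.Agent.W5h37.Thin

open Finset

/-- `A` is a nonempty set of integers from `1` to `X`, and every arithmetic progression with `N`
terms contains at most `K |A| (N / X) ^ θ` elements of `A`. -/
def Spread (X : ℕ) (θ K : ℝ) (A : Finset ℕ) : Prop :=
  A.Nonempty ∧ (∀ a ∈ A, 1 ≤ a ∧ a ≤ X) ∧
  ∀ c d N : ℕ, 1 ≤ d → 1 ≤ N →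
    ((A.filter fun a => ∃ j < N, a = c + j * d).card : ℝ) ≤ K * A.card * ((N : ℝ) / X) ^ θ

lemma Spread.card_pos {X : ℕ} {θ K : ℝ} {A : Finset ℕ} (h : Spread X θ K A) :
    (0 : ℝ) < A.card := by exact_mod_cast Finset.card_pos.2 h.1

/-- a subset of `A` of diameter at most `L` inside one class modulo `m` -/
lemma count {X : ℕ} {θ K : ℝ} {A : Finset ℕ} (h : Spread X θ K A) (S : Finset ℕ) (hSA : S ⊆ A)
    (m L : ℕ) (hm : 1 ≤ m) (hS : ∀ a ∈ S, ∀ a' ∈ S, a ≤ a' → m ∣ a' - a ∧ a' - a ≤ L) :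
    (S.card : ℝ) ≤ K * A.card * (((L / m + 1 : ℕ) : ℝ) / X) ^ θ := by
  rcases S.eq_empty_or_nonempty with rfl | hne
  · obtain ⟨a, ha⟩ := h.1
    have h1 := h.2.2 0 1 (L / m + 1) le_rfl (Nat.le_add_left 1 _)
    refine le_trans ?_ h1
    simp
  · set c := S.min' hne with hc
    have hcS : c ∈ S := S.min'_mem hne
    refine le_trans ?_ (h.2.2 c m (L / m + 1) hm (Nat.le_add_left 1 _))
    have : S ⊆ A.filter fun a => ∃ j < L / m + 1, a = c + j * m := by
      intro a ha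
      have hca : c ≤ a := S.min'_le a ha
      obtain ⟨⟨j, hj⟩, h2⟩ := hS c hcS a ha hca
      refine Finset.mem_filter.2 ⟨hSA ha, j, ?_, ?_⟩
      · rw [Nat.lt_succ_iff, Nat.le_div_iff_mul_le hm]
        rw [mul_comm]
        omega
      · rw [mul_comm] at hj
        omega
    exact_mod_cast Finset.card_le_card this

/-- few elements make a linear form small -/
lemma small_form {X : ℕ} {θ K : ℝ} {A : Finset ℕ} (h : Spread X θ K A) (b : ℕ) (u v : ℤ)
    (hu : u ≠ 0) (Y : ℕ) (S : Finset ℕ) (hSA : S ⊆ A)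
    (hS : ∀ a ∈ S, |u * a + v * b| ≤ Y) :
    (S.card : ℝ) ≤ K * A.card * (((2 * Y + 1 : ℕ) : ℝ) / X) ^ θ := by
  have := count h S hSA 1 (2 * Y) le_rfl (by
    intro a ha a' ha' hle
    refine ⟨one_dvd _, ?_⟩
    have h1 := hS a ha
    have h2 := hS a' ha'
    have h3 : |u * ((a' : ℤ) - a)| ≤ 2 * Y := by
      have e : u * ((a' : ℤ) - a) = (u * a' + v * b) - (u * a + v * b) := by ring
      rw [e]
      calc _ ≤ |u * a' + v * b| + |u * a + v * b| := abs_sub _ _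
        _ ≤ 2 * Y := by linarith
    rw [abs_mul] at h3
    have h4 : (1 : ℤ) ≤ |u| := Int.one_le_abs hu
    have h5 : |(a' : ℤ) - a| ≤ 2 * Y := by
      nlinarith [abs_nonneg ((a' : ℤ) - a)]
    have h6 := le_abs_self ((a' : ℤ) - a)
    omega)
  simpa using this

/-- few elements make a linear form divisible by `e ^ 2` -/
lemma square_form {X : ℕ} {θ K : ℝ} {A : Finset ℕ} (h : Spread X θ K A) (hθ : 0 ≤ θ)
    (hK : 0 ≤ K) (hX : 1 ≤ X) (b : ℕ) (u v : ℤ)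
    (hu : u ≠ 0) (U e : ℕ) (huU : |u| ≤ U) (he : 1 ≤ e) (heX : e ^ 2 ≤ 2 * U * X)
    (S : Finset ℕ) (hSA : S ⊆ A) (hS : ∀ a ∈ S, ((e : ℤ) ^ 2) ∣ u * a + v * b) :
    (S.card : ℝ) ≤ K * A.card * (3 * U / (e : ℝ) ^ 2) ^ θ := by
  have hU : 1 ≤ U := by
    have h4 : (1 : ℤ) ≤ |u| := Int.one_le_abs hu
    omega
  set g := Nat.gcd u.natAbs (e ^ 2) with hg
  have hgpos : 0 < g := Nat.gcd_pos_of_pos_left _ (Int.natAbs_pos.2 hu)
  have hgU : g ≤ U := by
    have : g ≤ u.natAbs := Nat.gcd_le_left _ (Int.natAbs_pos.2 hu)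
    have : (u.natAbs : ℤ) ≤ U := by rwa [Int.natCast_natAbs]
    omega
  obtain ⟨m, hm⟩ : g ∣ e ^ 2 := Nat.gcd_dvd_right _ _
  have hmpos : 0 < m := by
    rcases Nat.eq_zero_or_pos m with h0 | h0
    · rw [h0, mul_zero] at hm
      have : 0 < e ^ 2 := by positivity
      omega
    · exact h0
  have h1 := count h S hSA m X hmpos (by
    intro a ha a' ha' hle
    refine ⟨?_, ?_⟩
    · have h1 := dvd_sub (hS a' ha') (hS a ha)
      have e1 : u * (a' : ℤ) + v * b - (u * a + v * b) = u * ((a' : ℤ) - a) := by ring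
      rw [e1] at h1
      have h2 : e ^ 2 ∣ u.natAbs * (a' - a) := by
        have := Int.natAbs_dvd_natAbs.2 h1
        rw [Int.natAbs_mul] at this
        have e2 : ((e : ℤ) ^ 2).natAbs = e ^ 2 := by
          rw [Int.natAbs_pow]; simp
        have e3 : ((a' : ℤ) - a).natAbs = a' - a := by omega
        rwa [e2, e3] at this
      have h3 : Nat.Coprime (u.natAbs / g) (e ^ 2 / g) :=
        Nat.coprime_div_gcd_div_gcd hgpos
      have e4 : e ^ 2 / g = m := by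
        rw [hm]; exact Nat.mul_div_cancel_left m hgpos
      rw [e4] at h3
      have h4 : m ∣ (u.natAbs / g) * (a' - a) := by
        have e5 : u.natAbs * (a' - a) = g * ((u.natAbs / g) * (a' - a)) := by
          rw [← mul_assoc, Nat.mul_div_cancel' (Nat.gcd_dvd_left _ _)]
        rw [e5, hm] at h2
        exact Nat.dvd_of_mul_dvd_mul_left hgpos h2
      exact (Nat.Coprime.dvd_of_dvd_mul_left h3.symm h4)
    · have := (h.2.1 a' (hSA ha')).2
      omega)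
  refine h1.trans ?_
  refine mul_le_mul_of_nonneg_left ?_ (mul_nonneg hK h.card_pos.le)
  refine Real.rpow_le_rpow (by positivity) ?_ hθ
  have hX0 : (0 : ℝ) < X := by exact_mod_cast hX
  have he0 : (0 : ℝ) < (e : ℝ) ^ 2 := by positivity
  rw [div_le_div_iff₀ hX0 he0]
  have h2 : ((X / m + 1 : ℕ) : ℝ) ≤ X / m + 1 := by
    push_cast
    have := @Nat.cast_div_le ℝ _ _ _ X m
    linarith
  have hm0 : (0 : ℝ) < m := by exact_mod_cast hmpos
  have h3 : (e : ℝ) ^ 2 = g * m := by exact_mod_cast hm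
  have h4 : (g : ℝ) ≤ U := by exact_mod_cast hgU
  have h5 : (e : ℝ) ^ 2 ≤ 2 * U * X := by exact_mod_cast heX
  calc ((X / m + 1 : ℕ) : ℝ) * (e : ℝ) ^ 2 ≤ (X / m + 1) * (e : ℝ) ^ 2 :=
        mul_le_mul_of_nonneg_right h2 he0.le
    _ = X * g + (e : ℝ) ^ 2 := by rw [h3]; field_simp
    _ ≤ X * U + 2 * U * X := by
        have := mul_le_mul_of_nonneg_left h4 hX0.le
        linarith
    _ = 3 * U * X := by ring

/-- few elements are divisible by `g` -/
lemma multiples {X : ℕ} {θ K : ℝ} {A : Finset ℕ} (h : Spread X θ K A) (hθ : 0 ≤ θ)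
    (hK : 0 ≤ K) (hX : 1 ≤ X) (g : ℕ) (hg : 1 ≤ g) (hgX : g ≤ X)
    (S : Finset ℕ) (hSA : S ⊆ A) (hS : ∀ a ∈ S, g ∣ a) :
    (S.card : ℝ) ≤ K * A.card * (2 / (g : ℝ)) ^ θ := by
  have h1 := count h S hSA g X hg (by
    intro a ha a' ha' hle
    refine ⟨(Nat.dvd_sub (hS a' ha') (hS a ha)), ?_⟩
    have := (h.2.1 a' (hSA ha')).2
    omega)
  refine h1.trans ?_
  refine mul_le_mul_of_nonneg_left ?_ (mul_nonneg hK h.card_pos.le)
  refine Real.rpow_le_rpow (by positivity) ?_ hθ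
  have hX0 : (0 : ℝ) < X := by exact_mod_cast hX
  have hg0 : (0 : ℝ) < g := by exact_mod_cast hg
  rw [div_le_div_iff₀ hX0 hg0]
  have h2 : ((X / g + 1 : ℕ) : ℝ) ≤ X / g + 1 := by
    push_cast
    have := @Nat.cast_div_le ℝ _ _ _ X g
    linarith
  have h3 : (g : ℝ) ≤ X := by exact_mod_cast hgX
  calc ((X / g + 1 : ℕ) : ℝ) * g ≤ (X / g + 1) * g := mul_le_mul_of_nonneg_right h2 hg0.le
    _ = X + g := by field_simp
    _ ≤ 2 * X := by linarith

/-- the good elements: no form is small, or divisible by the square of a large number, and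
`gcd (a, b)` is small -/
def Good (U Y E : ℕ) (b a : ℕ) : Prop :=
  (∀ u v : ℤ, u ≠ 0 → |u| ≤ U → |v| ≤ U → (Y : ℤ) < |u * a + v * b|) ∧
  (∀ u v : ℤ, u ≠ 0 → |u| ≤ U → |v| ≤ U → ∀ e : ℕ, (e : ℤ) ^ 2 ∣ u * a + v * b → e < E) ∧
  Nat.gcd a b < E

/-- the number of bad elements -/
theorem bad_card {X : ℕ} {θ K : ℝ} {A : Finset ℕ} (h : Spread X θ K A) (hθ : 1 / 2 < θ)
    (hθ1 : θ ≤ 1) (hK : 0 ≤ K) (hX : 1 ≤ X) (U Y E b : ℕ) (hU : 1 ≤ U) (hE : 1 ≤ E)
    (hb1 : 1 ≤ b) (hbX : b ≤ X) :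
    ∃ S : Finset ℕ, S ⊆ A ∧ (∀ a ∈ A, a ∉ S → Good U Y E b a) ∧
      (S.card : ℝ) ≤ K * A.card * (9 * (U : ℝ) ^ 2 * (((2 * Y + 1 : ℕ) : ℝ) / X) ^ θ +
        27 * (U : ℝ) ^ 3 * ((∑' n : ℕ, 1 / (n : ℝ) ^ (θ + 1 / 2)) * (E : ℝ) ^ (-(θ - 1 / 2))) +
        b.divisors.card * (2 / (E : ℝ)) ^ θ) := by
  classical
  have hA0 := h.card_pos
  have hE0 : (0 : ℝ) < E := by exact_mod_cast hE
  have hUr : (1 : ℝ) ≤ U := by exact_mod_cast hU
  set I : Finset (ℤ × ℤ) := (Finset.Icc (-(U : ℤ)) U ×ˢ Finset.Icc (-(U : ℤ)) U).filter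
    fun w => w.1 ≠ 0 with hI
  have hIc : (I.card : ℝ) ≤ 9 * (U : ℝ) ^ 2 := by
    have h1 : I.card ≤ (Finset.Icc (-(U : ℤ)) U ×ˢ Finset.Icc (-(U : ℤ)) U).card :=
      Finset.card_filter_le _ _
    rw [Finset.card_product, Int.card_Icc] at h1
    have h2 : ((U : ℤ) + 1 - -(U : ℤ)).toNat = 2 * U + 1 := by omega
    rw [h2] at h1
    have h3 : (I.card : ℝ) ≤ (2 * U + 1) * (2 * U + 1) := by exact_mod_cast h1
    nlinarith
  have hmem : ∀ u v : ℤ, u ≠ 0 → |u| ≤ U → |v| ≤ U → (u, v) ∈ I := by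
    intro u v hu h1 h2
    rw [hI, Finset.mem_filter, Finset.mem_product, Finset.mem_Icc, Finset.mem_Icc]
    exact ⟨⟨abs_le.1 h1, abs_le.1 h2⟩, hu⟩
  have hmem' : ∀ w ∈ I, w.1 ≠ 0 ∧ |w.1| ≤ U ∧ |w.2| ≤ U := by
    intro w hw
    rw [hI, Finset.mem_filter, Finset.mem_product, Finset.mem_Icc, Finset.mem_Icc] at hw
    exact ⟨hw.2, abs_le.2 hw.1.1, abs_le.2 hw.1.2⟩
  -- small forms
  set S₁ : Finset ℕ := I.biUnion fun w => A.filter fun a : ℕ => |w.1 * a + w.2 * b| ≤ (Y : ℤ) with hS₁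
  have hS₁c : (S₁.card : ℝ) ≤ K * A.card * (9 * (U : ℝ) ^ 2 * (((2 * Y + 1 : ℕ) : ℝ) / X) ^ θ) := by
    have h1 : (S₁.card : ℝ) ≤ ∑ w ∈ I,
        ((A.filter fun a : ℕ => |w.1 * a + w.2 * b| ≤ (Y : ℤ)).card : ℝ) := by
      exact_mod_cast Finset.card_biUnion_le
    refine h1.trans ?_
    refine (Finset.sum_le_card_nsmul _ _ (K * A.card * (((2 * Y + 1 : ℕ) : ℝ) / X) ^ θ) ?_).trans ?_
    · intro w hw
      exact small_form h b w.1 w.2 (hmem' w hw).1 Y _ (Finset.filter_subset _ _)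
        (fun a ha => (Finset.mem_filter.1 ha).2)
    · rw [nsmul_eq_mul]
      have h2 : 0 ≤ K * A.card * (((2 * Y + 1 : ℕ) : ℝ) / X) ^ θ := by positivity
      calc (I.card : ℝ) * (K * A.card * (((2 * Y + 1 : ℕ) : ℝ) / X) ^ θ) ≤
          9 * (U : ℝ) ^ 2 * (K * A.card * (((2 * Y + 1 : ℕ) : ℝ) / X) ^ θ) :=
            mul_le_mul_of_nonneg_right hIc h2
        _ = _ := by ring
  -- squares
  set J : Finset ℕ := (Finset.Icc E (2 * U * X)).filter fun e => e ^ 2 ≤ 2 * U * X with hJ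
  set S₂ : Finset ℕ := (I ×ˢ J).biUnion fun w =>
    A.filter fun a : ℕ => ((w.2 : ℕ) : ℤ) ^ 2 ∣ w.1.1 * a + w.1.2 * b with hS₂
  have hS₂c : (S₂.card : ℝ) ≤ K * A.card * (27 * (U : ℝ) ^ 3 *
      ((∑' n : ℕ, 1 / (n : ℝ) ^ (θ + 1 / 2)) * (E : ℝ) ^ (-(θ - 1 / 2)))) := by
    have h1 : (S₂.card : ℝ) ≤ ∑ w ∈ I ×ˢ J,
        ((A.filter fun a : ℕ => ((w.2 : ℕ) : ℤ) ^ 2 ∣ w.1.1 * a + w.1.2 * b).card : ℝ) := by
      exact_mod_cast Finset.card_biUnion_le
    refine h1.trans ?_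
    rw [Finset.sum_product]
    have hsum : ∑ e ∈ J, 1 / (e : ℝ) ^ (θ + 1 / 2) ≤ ∑' n : ℕ, 1 / (n : ℝ) ^ (θ + 1 / 2) := by
      refine Summable.sum_le_tsum _ (fun i _ => by positivity) ?_
      exact Real.summable_one_div_nat_rpow.2 (by linarith)
    have hterm : ∀ w ∈ I, ∑ e ∈ J, ((A.filter fun a : ℕ => ((e : ℤ)) ^ 2 ∣ w.1 * a + w.2 * b).card : ℝ) ≤
        K * A.card * (3 * U * ((∑' n : ℕ, 1 / (n : ℝ) ^ (θ + 1 / 2)) * (E : ℝ) ^ (-(θ - 1 / 2)))) := by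
      intro w hw
      have h2 : ∀ e ∈ J, ((A.filter fun a : ℕ => ((e : ℤ)) ^ 2 ∣ w.1 * a + w.2 * b).card : ℝ) ≤
          K * A.card * (3 * U * (E : ℝ) ^ (-(θ - 1 / 2))) * (1 / (e : ℝ) ^ (θ + 1 / 2)) := by
        intro e he
        rw [hJ, Finset.mem_filter, Finset.mem_Icc] at he
        have he1 : 1 ≤ e := hE.trans he.1.1
        have he0 : (0 : ℝ) < e := by exact_mod_cast he1
        have h3 := square_form h (by linarith) hK hX b w.1 w.2 (hmem' w hw).1 U e (hmem' w hw).2.1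
          he1 he.2 _ (Finset.filter_subset _ _) (fun a ha => (Finset.mem_filter.1 ha).2)
        refine h3.trans ?_
        have h4 : (3 * U / (e : ℝ) ^ 2) ^ θ ≤ 3 * U * (E : ℝ) ^ (-(θ - 1 / 2)) *
            (1 / (e : ℝ) ^ (θ + 1 / 2)) := by
          rw [Real.div_rpow (by positivity) (by positivity)]
          have h5 : (3 * (U : ℝ)) ^ θ ≤ 3 * U := by
            calc (3 * (U : ℝ)) ^ θ ≤ (3 * (U : ℝ)) ^ (1 : ℝ) :=
                  Real.rpow_le_rpow_of_exponent_le (by linarith) hθ1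
              _ = 3 * U := Real.rpow_one _
          have h6 : ((e : ℝ) ^ 2) ^ θ = (e : ℝ) ^ (θ + 1 / 2) * (e : ℝ) ^ (θ - 1 / 2) := by
            rw [← Real.rpow_natCast, ← Real.rpow_mul he0.le, ← Real.rpow_add he0]
            congr 1
            push_cast
            ring
          have h7 : (E : ℝ) ^ (θ - 1 / 2) ≤ (e : ℝ) ^ (θ - 1 / 2) :=
            Real.rpow_le_rpow hE0.le (by exact_mod_cast he.1.1) (by linarith)
          have h8 : 0 < (E : ℝ) ^ (θ - 1 / 2) := Real.rpow_pos_of_pos hE0 _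
          have h9 : 0 < (e : ℝ) ^ (θ + 1 / 2) := Real.rpow_pos_of_pos he0 _
          rw [h6, Real.rpow_neg hE0.le]
          calc (3 * (U : ℝ)) ^ θ / ((e : ℝ) ^ (θ + 1 / 2) * (e : ℝ) ^ (θ - 1 / 2)) ≤
              (3 * U) / ((e : ℝ) ^ (θ + 1 / 2) * (E : ℝ) ^ (θ - 1 / 2)) := by
                gcongr
            _ = 3 * U * ((E : ℝ) ^ (θ - 1 / 2))⁻¹ * (1 / (e : ℝ) ^ (θ + 1 / 2)) := by
                field_simp
        calc K * A.card * (3 * U / (e : ℝ) ^ 2) ^ θ ≤ K * A.card * (3 * U * (E : ℝ) ^ (-(θ - 1 / 2)) *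
            (1 / (e : ℝ) ^ (θ + 1 / 2))) := mul_le_mul_of_nonneg_left h4 (by positivity)
          _ = _ := by ring
      refine (Finset.sum_le_sum h2).trans ?_
      rw [← Finset.mul_sum]
      calc K * A.card * (3 * U * (E : ℝ) ^ (-(θ - 1 / 2))) * ∑ e ∈ J, 1 / (e : ℝ) ^ (θ + 1 / 2) ≤
          K * A.card * (3 * U * (E : ℝ) ^ (-(θ - 1 / 2))) * ∑' n : ℕ, 1 / (n : ℝ) ^ (θ + 1 / 2) :=
            mul_le_mul_of_nonneg_left hsum (by positivity)
        _ = _ := by ring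
    refine (Finset.sum_le_card_nsmul _ _ _ hterm).trans ?_
    rw [nsmul_eq_mul]
    have hZ : 0 ≤ ∑' n : ℕ, 1 / (n : ℝ) ^ (θ + 1 / 2) := tsum_nonneg fun n => by positivity
    calc (I.card : ℝ) * (K * A.card * (3 * U * ((∑' n : ℕ, 1 / (n : ℝ) ^ (θ + 1 / 2)) *
          (E : ℝ) ^ (-(θ - 1 / 2))))) ≤
        9 * (U : ℝ) ^ 2 * (K * A.card * (3 * U * ((∑' n : ℕ, 1 / (n : ℝ) ^ (θ + 1 / 2)) *
          (E : ℝ) ^ (-(θ - 1 / 2))))) := mul_le_mul_of_nonneg_right hIc (by positivity)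
      _ = _ := by ring
  -- common divisors
  set S₃ : Finset ℕ := (b.divisors.filter fun g => E ≤ g).biUnion fun g =>
    A.filter fun a => g ∣ a with hS₃
  have hS₃c : (S₃.card : ℝ) ≤ K * A.card * (b.divisors.card * (2 / (E : ℝ)) ^ θ) := by
    have h1 : (S₃.card : ℝ) ≤ ∑ g ∈ b.divisors.filter fun g => E ≤ g,
        ((A.filter fun a => g ∣ a).card : ℝ) := by
      exact_mod_cast Finset.card_biUnion_le
    refine h1.trans ?_
    refine (Finset.sum_le_card_nsmul _ _ (K * A.card * (2 / (E : ℝ)) ^ θ) ?_).trans ?_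
    · intro g hg
      rw [Finset.mem_filter, Nat.mem_divisors] at hg
      have hgb : g ≤ b := Nat.le_of_dvd hb1 hg.1.1
      refine (multiples h (by linarith) hK hX g (hE.trans hg.2) (hgb.trans hbX) _
        (Finset.filter_subset _ _) (fun a ha => (Finset.mem_filter.1 ha).2)).trans ?_
      refine mul_le_mul_of_nonneg_left ?_ (by positivity)
      refine Real.rpow_le_rpow (by positivity) ?_ (by linarith)
      have : (E : ℝ) ≤ g := by exact_mod_cast hg.2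
      gcongr
    · rw [nsmul_eq_mul]
      have h2 : ((b.divisors.filter fun g => E ≤ g).card : ℝ) ≤ b.divisors.card := by
        exact_mod_cast Finset.card_filter_le _ _
      calc _ ≤ (b.divisors.card : ℝ) * (K * A.card * (2 / (E : ℝ)) ^ θ) :=
            mul_le_mul_of_nonneg_right h2 (by positivity)
        _ = _ := by ring
  refine ⟨S₁ ∪ S₂ ∪ S₃, ?_, ?_, ?_⟩
  · refine Finset.union_subset (Finset.union_subset ?_ ?_) ?_ <;>
    · intro a ha
      obtain ⟨w, _, hw⟩ := Finset.mem_biUnion.1 ha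
      exact (Finset.mem_filter.1 hw).1
  · intro a haA ha
    rw [Finset.mem_union, Finset.mem_union, not_or, not_or] at ha
    obtain ⟨⟨h1, h2⟩, h3⟩ := ha
    have hbig : ∀ u v : ℤ, u ≠ 0 → |u| ≤ U → |v| ≤ U → (Y : ℤ) < |u * a + v * b| := by
      intro u v hu hu1 hv1
      by_contra hcon
      exact h1 (Finset.mem_biUnion.2 ⟨(u, v), hmem u v hu hu1 hv1,
        Finset.mem_filter.2 ⟨haA, not_lt.1 hcon⟩⟩)
    refine ⟨hbig, ?_, ?_⟩
    · intro u v hu hu1 hv1 e he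
      by_contra hcon
      push Not at hcon
      have hL : u * a + v * b ≠ 0 := by
        intro h0
        have := hbig u v hu hu1 hv1
        rw [h0, abs_zero] at this
        omega
      have h4 : (e : ℤ) ^ 2 ≤ |u * a + v * b| := by
        have := Int.le_of_dvd (abs_pos.2 hL) ((dvd_abs _ _).2 he)
        exact this
      have h5 : |u * a + v * b| ≤ 2 * U * X := by
        have ha2 := (h.2.1 a haA).2
        calc |u * a + v * b| ≤ |u * a| + |v * b| := abs_add_le _ _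
          _ = |u| * a + |v| * b := by rw [abs_mul, abs_mul, Nat.abs_cast, Nat.abs_cast]
          _ ≤ U * X + U * X := by
              have hX1 : (a : ℤ) ≤ X := by exact_mod_cast ha2
              have hX2 : (b : ℤ) ≤ X := by exact_mod_cast hbX
              gcongr
          _ = 2 * U * X := by ring
      have h6 : e ^ 2 ≤ 2 * U * X := by exact_mod_cast h4.trans h5
      refine h2 (Finset.mem_biUnion.2 ⟨((u, v), e), Finset.mem_product.2 ⟨hmem u v hu hu1 hv1, ?_⟩,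
        Finset.mem_filter.2 ⟨haA, he⟩⟩)
      rw [hJ, Finset.mem_filter, Finset.mem_Icc]
      refine ⟨⟨hcon, ?_⟩, h6⟩
      have : e ≤ e ^ 2 := Nat.le_self_pow (by norm_num) e
      omega
    · by_contra hcon
      push Not at hcon
      refine h3 (Finset.mem_biUnion.2 ⟨Nat.gcd a b, Finset.mem_filter.2 ⟨Nat.mem_divisors.2
        ⟨Nat.gcd_dvd_right _ _, by omega⟩, hcon⟩, Finset.mem_filter.2 ⟨haA, Nat.gcd_dvd_left _ _⟩⟩)
  · have h1 : ((S₁ ∪ S₂ ∪ S₃).card : ℝ) ≤ S₁.card + S₂.card + S₃.card := by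
      have h2 := Finset.card_union_le (S₁ ∪ S₂) S₃
      have h3 := Finset.card_union_le S₁ S₂
      exact_mod_cast (by omega : (S₁ ∪ S₂ ∪ S₃).card ≤ S₁.card + S₂.card + S₃.card)
    calc _ ≤ (S₁.card : ℝ) + S₂.card + S₃.card := h1
      _ ≤ _ := by
          rw [mul_add, mul_add]
          linarith

end Pool.Agent.W5h37.Thin
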