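import Pool.Agent.W5h37.Thin.Main

/-!
# Linear forms in elements of several thin sets
-/

set_option autoImplicit false

namespace Pool.Agent.W5h37.Thin

open Finset Filter

/-- the value of the linear form with the coefficients `u` -/
def lin {m : ℕ} (u : Fin m → ℤ) (a : Fin m → ℕ) : ℤ := ∑ i, u i * (a i : ℤ)

/-- no form with coefficients at most `U` is small, or divisible by the square of a large number -/
def GoodT {m : ℕ} (U Y E : ℕ) (a : Fin m → ℕ) : Prop :=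
  ∀ u : Fin m → ℤ, u ≠ 0 → (∀ i, |u i| ≤ U) →
    (Y : ℤ) < |lin u a| ∧ ∀ e : ℕ, (e : ℤ) ^ 2 ∣ lin u a → e < E

lemma lin_split {m : ℕ} (u : Fin m → ℤ) (a : Fin m → ℕ) (i : Fin m) :
    lin u a = u i * (a i : ℤ) + lin u (Function.update a i 0) := by
  classical
  unfold lin
  rw [← Finset.add_sum_erase _ _ (Finset.mem_univ i),
    ← Finset.add_sum_erase (f := fun j => u j * ((Function.update a i 0 j : ℕ) : ℤ)) _
      (Finset.mem_univ i)]
  simp only [Function.update_self, Nat.cast_zero, mul_zero, zero_add, add_right_inj]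
  refine Finset.sum_congr rfl fun j hj => ?_
  rw [Function.update_of_ne (Finset.ne_of_mem_erase hj)]

/-- counting along one coordinate -/
lemma fibre_count {m : ℕ} (A : Fin m → Finset ℕ) (i : Fin m) (B : Finset (Fin m → ℕ))
    (hB : B ⊆ Fintype.piFinset A) (c : ℝ)
    (h : ∀ b : Fin m → ℕ, (((A i).filter fun x => Function.update b i x ∈ B).card : ℝ) ≤
      c * (A i).card) :
    (B.card : ℝ) ≤ c * ∏ j, ((A j).card : ℝ) := by
  classical
  set f : (Fin m → ℕ) → (Fin m → ℕ) := fun a => Function.update a i 0 with hf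
  set T : Finset (Fin m → ℕ) := Fintype.piFinset (Function.update A i {0}) with hT
  have hmaps : ∀ a ∈ B, f a ∈ T := by
    intro a ha
    rw [hT, Fintype.mem_piFinset]
    intro j
    by_cases hj : j = i
    · subst hj; simp [hf]
    · rw [hf]
      simp only [Function.update_of_ne hj]
      exact Fintype.mem_piFinset.1 (hB ha) j
  have h1 : (B.card : ℝ) = ∑ b ∈ T, ((B.filter fun a => f a = b).card : ℝ) := by
    exact_mod_cast Finset.card_eq_sum_card_fiberwise hmaps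
  have h2 : ∀ b ∈ T, ((B.filter fun a => f a = b).card : ℝ) ≤ c * (A i).card := by
    intro b hb
    refine le_trans ?_ (h b)
    have : (B.filter fun a => f a = b).card ≤
        ((A i).filter fun x => Function.update b i x ∈ B).card := by
      refine Finset.card_le_card_of_injOn (fun a => a i) ?_ ?_
      · intro a ha
        rw [Finset.mem_coe, Finset.mem_filter] at ha
        rw [Finset.mem_coe, Finset.mem_filter]
        refine ⟨Fintype.mem_piFinset.1 (hB ha.1) i, ?_⟩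
        rw [← ha.2, hf]
        simp only [Function.update_idem, Function.update_eq_self]
        exact ha.1
      · intro a ha a' ha' heq
        rw [Finset.mem_coe, Finset.mem_filter] at ha ha'
        funext j
        by_cases hj : j = i
        · subst hj; exact heq
        · have e1 := congrFun (ha.2.trans ha'.2.symm) j
          rw [hf] at e1
          simpa [Function.update_of_ne hj] using e1
    exact_mod_cast this
  rw [h1]
  refine (Finset.sum_le_card_nsmul _ _ _ h2).trans ?_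
  rw [nsmul_eq_mul, hT, Fintype.card_piFinset]
  have h3 : (∏ j, (Function.update A i {0} j).card) * (A i).card = ∏ j, (A j).card := by
    rw [← Finset.mul_prod_erase _ _ (Finset.mem_univ i),
      ← Finset.mul_prod_erase (f := fun j => (A j).card) _ (Finset.mem_univ i)]
    simp only [Function.update_self, Finset.card_singleton, one_mul]
    rw [mul_comm]
    congr 1
    refine Finset.prod_congr rfl fun j hj => ?_
    rw [Function.update_of_ne (Finset.ne_of_mem_erase hj)]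
  have h4 : ((∏ j, (Function.update A i {0} j).card : ℕ) : ℝ) * (A i).card =
      ∏ j, ((A j).card : ℝ) := by
    rw [← Nat.cast_prod]
    exact_mod_cast h3
  calc ((∏ j, (Function.update A i {0} j).card : ℕ) : ℝ) * (c * (A i).card) =
      c * (((∏ j, (Function.update A i {0} j).card : ℕ) : ℝ) * (A i).card) := by ring
    _ ≤ _ := by rw [h4]

/-- the tuples for which one form is bad -/
lemma one_form {m X : ℕ} {θ K : ℝ} {A : Fin m → Finset ℕ} (hA : ∀ i, Spread X θ K (A i))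
    (hθ : 1 / 2 < θ) (hθ1 : θ ≤ 1) (hK : 0 ≤ K) (hX : 1 ≤ X) (U Y E : ℕ) (hU : 1 ≤ U)
    (hE : 1 ≤ E) (u : Fin m → ℤ) (hu : u ≠ 0) (huU : ∀ i, |u i| ≤ U)
    (B : Finset (Fin m → ℕ)) (hB : B ⊆ Fintype.piFinset A)
    (hbad : ∀ a ∈ B, |lin u a| ≤ (Y : ℤ) ∨ ∃ e : ℕ, E ≤ e ∧ e ^ 2 ≤ 2 * (m * U) * X ∧
      (e : ℤ) ^ 2 ∣ lin u a) :
    (B.card : ℝ) ≤ K * ((((2 * Y + 1 : ℕ) : ℝ) / X) ^ θ +
      3 * (m * U : ℕ) * ((∑' n : ℕ, 1 / (n : ℝ) ^ (θ + 1 / 2)) * (E : ℝ) ^ (-(θ - 1 / 2)))) *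
        ∏ j, ((A j).card : ℝ) := by
  classical
  obtain ⟨i, hi⟩ : ∃ i, u i ≠ 0 := Function.ne_iff.1 hu
  have hm1 : 1 ≤ m := by
    have := i.2; omega
  set V : ℕ := m * U with hV
  have hV1 : 1 ≤ V := Nat.one_le_iff_ne_zero.2 (by positivity)
  have hUV : U ≤ V := Nat.le_mul_of_pos_left _ hm1
  have huV : |u i| ≤ V := (huU i).trans (by exact_mod_cast hUV)
  have hE0 : (0 : ℝ) < E := by exact_mod_cast hE
  refine fibre_count A i B hB _ ?_
  intro b
  set r : ℤ := lin u (Function.update b i 0) with hr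
  have hlin : ∀ x : ℕ, lin u (Function.update b i x) = u i * x + r * (1 : ℕ) := by
    intro x
    rw [lin_split u _ i]
    simp [hr]
  set J : Finset ℕ := (Finset.Icc E (2 * V * X)).filter fun e => e ^ 2 ≤ 2 * V * X with hJ
  have hsub : ((A i).filter fun x => Function.update b i x ∈ B) ⊆
      ((A i).filter fun x : ℕ => |u i * x + r * (1 : ℕ)| ≤ (Y : ℤ)) ∪
        J.biUnion fun e => (A i).filter fun x : ℕ => ((e : ℕ) : ℤ) ^ 2 ∣ u i * x + r * (1 : ℕ) := by
    intro x hx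
    rw [Finset.mem_filter] at hx
    rw [Finset.mem_union]
    rcases hbad _ hx.2 with h1 | ⟨e, he1, he2, he3⟩
    · left
      rw [hlin] at h1
      exact Finset.mem_filter.2 ⟨hx.1, h1⟩
    · right
      rw [hlin] at he3
      refine Finset.mem_biUnion.2 ⟨e, ?_, Finset.mem_filter.2 ⟨hx.1, he3⟩⟩
      rw [hJ, Finset.mem_filter, Finset.mem_Icc]
      refine ⟨⟨he1, ?_⟩, he2⟩
      have : e ≤ e ^ 2 := Nat.le_self_pow (by norm_num) e
      omega
  have h1 : (((A i).filter fun x => Function.update b i x ∈ B).card : ℝ) ≤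
      (((A i).filter fun x : ℕ => |u i * x + r * (1 : ℕ)| ≤ (Y : ℤ)).card : ℝ) +
        ∑ e ∈ J, (((A i).filter fun x : ℕ => ((e : ℕ) : ℤ) ^ 2 ∣ u i * x + r * (1 : ℕ)).card : ℝ) := by
    have e1 := (Finset.card_le_card hsub).trans (Finset.card_union_le _ _)
    have e2 : (J.biUnion fun e => (A i).filter fun x : ℕ =>
        ((e : ℕ) : ℤ) ^ 2 ∣ u i * x + r * (1 : ℕ)).card ≤ _ := Finset.card_biUnion_le
    exact_mod_cast e1.trans (Nat.add_le_add_left e2 _)
  have hs := small_form (hA i) 1 (u i) r hi Y _ (Finset.filter_subset _ _)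
    (fun a ha => (Finset.mem_filter.1 ha).2)
  have hA0 := (hA i).card_pos
  have h2 : ∀ e ∈ J, (((A i).filter fun x : ℕ => ((e : ℕ) : ℤ) ^ 2 ∣ u i * x + r * (1 : ℕ)).card : ℝ) ≤
      K * (A i).card * (3 * V * (E : ℝ) ^ (-(θ - 1 / 2))) * (1 / (e : ℝ) ^ (θ + 1 / 2)) := by
    intro e he
    rw [hJ, Finset.mem_filter, Finset.mem_Icc] at he
    have he1 : 1 ≤ e := hE.trans he.1.1
    have he0 : (0 : ℝ) < e := by exact_mod_cast he1
    have h3 := square_form (hA i) (by linarith) hK hX 1 (u i) r hi V e huV he1 he.2 _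
      (Finset.filter_subset _ _) (fun a ha => (Finset.mem_filter.1 ha).2)
    refine h3.trans ?_
    have hVr : (1 : ℝ) ≤ V := by exact_mod_cast hV1
    have h4 : (3 * V / (e : ℝ) ^ 2) ^ θ ≤ 3 * V * (E : ℝ) ^ (-(θ - 1 / 2)) *
        (1 / (e : ℝ) ^ (θ + 1 / 2)) := by
      rw [Real.div_rpow (by positivity) (by positivity)]
      have h5 : (3 * (V : ℝ)) ^ θ ≤ 3 * V := by
        calc (3 * (V : ℝ)) ^ θ ≤ (3 * (V : ℝ)) ^ (1 : ℝ) :=
              Real.rpow_le_rpow_of_exponent_le (by linarith) hθ1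
          _ = 3 * V := Real.rpow_one _
      have h6 : ((e : ℝ) ^ 2) ^ θ = (e : ℝ) ^ (θ + 1 / 2) * (e : ℝ) ^ (θ - 1 / 2) := by
        rw [← Real.rpow_natCast, ← Real.rpow_mul he0.le, ← Real.rpow_add he0]
        congr 1
        push_cast
        ring
      have h7 : (E : ℝ) ^ (θ - 1 / 2) ≤ (e : ℝ) ^ (θ - 1 / 2) :=
        Real.rpow_le_rpow hE0.le (by exact_mod_cast he.1.1) (by linarith)
      have h8 : 0 < (E : ℝ) ^ (θ - 1 / 2) := Real.rpow_pos_of_pos hE0 _
      have h9 : 0 < (e : ℝ) ^ (θ + 1 / 2) := Real.rpow_pos_of_pos he0 _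
      rw [h6, Real.rpow_neg hE0.le]
      calc (3 * (V : ℝ)) ^ θ / ((e : ℝ) ^ (θ + 1 / 2) * (e : ℝ) ^ (θ - 1 / 2)) ≤
          (3 * V) / ((e : ℝ) ^ (θ + 1 / 2) * (E : ℝ) ^ (θ - 1 / 2)) := by
            gcongr
        _ = 3 * V * ((E : ℝ) ^ (θ - 1 / 2))⁻¹ * (1 / (e : ℝ) ^ (θ + 1 / 2)) := by
            field_simp
    calc K * (A i).card * (3 * V / (e : ℝ) ^ 2) ^ θ ≤ K * (A i).card *
        (3 * V * (E : ℝ) ^ (-(θ - 1 / 2)) * (1 / (e : ℝ) ^ (θ + 1 / 2))) :=
          mul_le_mul_of_nonneg_left h4 (mul_nonneg hK hA0.le)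
      _ = _ := by ring
  have hsum : ∑ e ∈ J, 1 / (e : ℝ) ^ (θ + 1 / 2) ≤ ∑' n : ℕ, 1 / (n : ℝ) ^ (θ + 1 / 2) := by
    refine Summable.sum_le_tsum _ (fun i _ => by positivity) ?_
    exact Real.summable_one_div_nat_rpow.2 (by linarith)
  have h5 : ∑ e ∈ J, (((A i).filter fun x : ℕ => ((e : ℕ) : ℤ) ^ 2 ∣ u i * x + r * (1 : ℕ)).card : ℝ) ≤
      K * (A i).card * (3 * V * (E : ℝ) ^ (-(θ - 1 / 2))) *
        ∑' n : ℕ, 1 / (n : ℝ) ^ (θ + 1 / 2) := by
    refine (Finset.sum_le_sum h2).trans ?_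
    rw [← Finset.mul_sum]
    refine mul_le_mul_of_nonneg_left hsum (mul_nonneg (mul_nonneg hK hA0.le)
      (mul_nonneg (mul_nonneg (by norm_num) (Nat.cast_nonneg V)) (Real.rpow_nonneg hE0.le _)))
  calc _ ≤ _ := h1
    _ ≤ K * (A i).card * (((2 * Y + 1 : ℕ) : ℝ) / X) ^ θ + K * (A i).card *
        (3 * V * (E : ℝ) ^ (-(θ - 1 / 2))) * ∑' n : ℕ, 1 / (n : ℝ) ^ (θ + 1 / 2) :=
          add_le_add hs h5
    _ = _ := by ring

/-- the number of the bad tuples -/
theorem badT_card {m X : ℕ} {θ K : ℝ} {A : Fin m → Finset ℕ} (hA : ∀ i, Spread X θ K (A i))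
    (hθ : 1 / 2 < θ) (hθ1 : θ ≤ 1) (hK : 0 ≤ K) (hX : 1 ≤ X) (U Y E : ℕ) (hU : 1 ≤ U)
    (hE : 1 ≤ E) :
    ∃ S : Finset (Fin m → ℕ), S ⊆ Fintype.piFinset A ∧
      (∀ a ∈ Fintype.piFinset A, a ∉ S → GoodT U Y E a) ∧
      (S.card : ℝ) ≤ (3 * U : ℝ) ^ m * (K * ((((2 * Y + 1 : ℕ) : ℝ) / X) ^ θ +
      3 * (m * U : ℕ) * ((∑' n : ℕ, 1 / (n : ℝ) ^ (θ + 1 / 2)) * (E : ℝ) ^ (-(θ - 1 / 2)))) *
        ∏ j, ((A j).card : ℝ)) := by
  classical
  set I : Finset (Fin m → ℤ) :=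
    (Fintype.piFinset fun _ : Fin m => Finset.Icc (-(U : ℤ)) U).filter fun u => u ≠ 0 with hI
  have hIc : (I.card : ℝ) ≤ (3 * U : ℝ) ^ m := by
    have h1 : I.card ≤ (Fintype.piFinset fun _ : Fin m => Finset.Icc (-(U : ℤ)) U).card :=
      Finset.card_filter_le _ _
    rw [Fintype.card_piFinset, Finset.prod_const, Int.card_Icc, Finset.card_univ,
      Fintype.card_fin] at h1
    have h2 : ((U : ℤ) + 1 - -(U : ℤ)).toNat = 2 * U + 1 := by omega
    rw [h2] at h1
    have h3 : (I.card : ℝ) ≤ (2 * U + 1) ^ m := by exact_mod_cast h1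
    refine h3.trans ?_
    have hUr : (1 : ℝ) ≤ U := by exact_mod_cast hU
    gcongr
    linarith
  set P : (Fin m → ℤ) → (Fin m → ℕ) → Prop := fun u a => |lin u a| ≤ (Y : ℤ) ∨
    ∃ e : ℕ, E ≤ e ∧ e ^ 2 ≤ 2 * (m * U) * X ∧ (e : ℤ) ^ 2 ∣ lin u a with hP
  set S : Finset (Fin m → ℕ) := I.biUnion fun u => (Fintype.piFinset A).filter fun a => P u a with hS
  refine ⟨S, ?_, ?_, ?_⟩
  · intro a ha
    obtain ⟨u, _, hu⟩ := Finset.mem_biUnion.1 ha
    exact (Finset.mem_filter.1 hu).1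
  · intro a haA ha u hu huU
    have huI : u ∈ I := by
      rw [hI, Finset.mem_filter, Fintype.mem_piFinset]
      exact ⟨fun i => Finset.mem_Icc.2 (abs_le.1 (huU i)), hu⟩
    have hnP : ¬ P u a := fun h => ha (Finset.mem_biUnion.2 ⟨u, huI, Finset.mem_filter.2 ⟨haA, h⟩⟩)
    rw [hP] at hnP
    simp only [not_or, not_le, not_exists, not_and] at hnP
    refine ⟨hnP.1, fun e he => ?_⟩
    by_contra hcon
    push Not at hcon
    refine hnP.2 e hcon ?_ he
    have hL : lin u a ≠ 0 := by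
      intro h0
      have := hnP.1
      rw [h0, abs_zero] at this
      omega
    have h4 : (e : ℤ) ^ 2 ≤ |lin u a| := Int.le_of_dvd (abs_pos.2 hL) ((dvd_abs _ _).2 he)
    have h5 : |lin u a| ≤ m * U * X := by
      unfold lin
      refine (Finset.abs_sum_le_sum_abs _ _).trans ?_
      refine (Finset.sum_le_card_nsmul _ _ ((U : ℤ) * X) ?_).trans ?_
      · intro i _
        rw [abs_mul, Nat.abs_cast]
        have h6 := ((hA i).2.1 (a i) (Fintype.mem_piFinset.1 haA i)).2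
        have h7 : (a i : ℤ) ≤ X := by exact_mod_cast h6
        have := huU i
        gcongr
      · rw [Finset.card_univ, Fintype.card_fin, nsmul_eq_mul]
        exact le_of_eq (by ring)
    have h6 : e ^ 2 ≤ m * U * X := by exact_mod_cast h4.trans h5
    calc e ^ 2 ≤ m * U * X := h6
      _ ≤ 2 * (m * U) * X := by nlinarith [Nat.zero_le (m * U * X)]
  · have h1 : (S.card : ℝ) ≤ ∑ u ∈ I, (((Fintype.piFinset A).filter fun a => P u a).card : ℝ) := by
      exact_mod_cast Finset.card_biUnion_le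
    refine h1.trans ?_
    refine (Finset.sum_le_card_nsmul _ _ (K * ((((2 * Y + 1 : ℕ) : ℝ) / X) ^ θ +
      3 * (m * U : ℕ) * ((∑' n : ℕ, 1 / (n : ℝ) ^ (θ + 1 / 2)) * (E : ℝ) ^ (-(θ - 1 / 2)))) *
        ∏ j, ((A j).card : ℝ)) ?_).trans ?_
    · intro u hu
      rw [hI, Finset.mem_filter, Fintype.mem_piFinset] at hu
      exact one_form hA hθ hθ1 hK hX U Y E hU hE u hu.2
        (fun i => abs_le.2 (Finset.mem_Icc.1 (hu.1 i))) _ (Finset.filter_subset _ _)
        (fun a ha => (Finset.mem_filter.1 ha).2)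
    · rw [nsmul_eq_mul]
      have hZ : 0 ≤ ∑' n : ℕ, 1 / (n : ℝ) ^ (θ + 1 / 2) := tsum_nonneg fun n => by positivity
      generalize (∑' n : ℕ, 1 / (n : ℝ) ^ (θ + 1 / 2)) = Z at hZ ⊢
      have h2 : 0 ≤ (((2 * Y + 1 : ℕ) : ℝ) / X) ^ θ := Real.rpow_nonneg (by positivity) _
      have h3 : 0 ≤ (E : ℝ) ^ (-(θ - 1 / 2)) := Real.rpow_nonneg (Nat.cast_nonneg E) _
      have h4 : 0 ≤ 3 * ((m * U : ℕ) : ℝ) := mul_nonneg (by norm_num) (Nat.cast_nonneg _)
      have h5 : 0 ≤ ∏ j, ((A j).card : ℝ) := Finset.prod_nonneg fun j _ => Nat.cast_nonneg _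
      exact mul_le_mul_of_nonneg_right hIc (mul_nonneg (mul_nonneg hK
        (add_nonneg h2 (mul_nonneg h4 (mul_nonneg hZ h3)))) h5)

end Pool.Agent.W5h37.Thin
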