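import Pool.Agent.W5h37.Thin.Main

/-!
# The truncated inequality for almost all points with a coordinate in a thin set
-/

set_option autoImplicit false

namespace Pool.Agent.W5h37.Thin

open Finset Filter

/-- The sum over the primes `p ∉ T` and over `l` of the truncated local heights
`λ⁽¹⁾_p(α_l, x)` for coprime coordinates of `x` and the `α_l`. -/
noncomputable def N1 {q : ℕ} (α : Fin q → ℤ × ℤ) (T : Finset ℕ) (x : ℤ × ℤ) : ℝ :=
  ∑ i, ∑ p ∈ (x.1 * (α i).2 - x.2 * (α i).1).natAbs.primeFactors \ T, Real.log p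

/-- The absolute logarithmic height of the point with the coprime coordinates `x`. -/
noncomputable def hgt (x : ℤ × ℤ) : ℝ := Real.log (max x.1.natAbs x.2.natAbs : ℕ)

/-- For all finite subsets `{α_1, …, α_q}` of the projective line over `ℚ` of height at most
`η log X` and all finite sets `T` of primes with product at most `X ^ η`: `x` is different from all
the `α_l`, and `(q - c) (1 - ε) h(x) ≤ ∑_{p ∉ T} ∑_l λ⁽¹⁾_p(α_l, x)`. -/
def Holds (ε η : ℝ) (X : ℕ) (c : ℝ) (x : ℤ × ℤ) : Prop :=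
  ∀ (q : ℕ) (α : Fin q → ℤ × ℤ) (T : Finset ℕ),
    (∀ i, IsCoprime (α i).1 (α i).2 ∧ (|(α i).1| : ℝ) ≤ (X : ℝ) ^ η ∧
      (|(α i).2| : ℝ) ≤ (X : ℝ) ^ η) →
    (∀ i j, i ≠ j → (α i).1 * (α j).2 ≠ (α j).1 * (α i).2) →
    ∑ p ∈ T, Real.log (p : ℝ) ≤ η * Real.log X →
    (∀ i, x.1 * (α i).2 - x.2 * (α i).1 ≠ 0) ∧
      (q - c) * (1 - ε) * hgt x ≤ N1 α T x

lemma hgt_nonneg (x : ℤ × ℤ) : 0 ≤ hgt x := Real.log_natCast_nonneg _

lemma hgt_pt_le {a b X : ℕ} (ha : 1 ≤ a) (haX : a ≤ X) (hbX : b ≤ X) :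
    hgt (pt a b) ≤ Real.log X := by
  unfold hgt pt
  have h1 : a / Nat.gcd a b ≤ X := (Nat.div_le_self _ _).trans haX
  have h2 : b / Nat.gcd a b ≤ X := (Nat.div_le_self _ _).trans hbX
  have h3 : 1 ≤ a / Nat.gcd a b := Nat.div_pos (Nat.gcd_le_left _ ha) (Nat.gcd_pos_of_pos_left _ ha)
  simp only [Int.natAbs_natCast]
  apply Real.log_le_log
  · have : 0 < max (a / Nat.gcd a b) (b / Nat.gcd a b) := lt_max_of_lt_left h3
    exact_mod_cast this
  · exact_mod_cast max_le h1 h2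

lemma form_swap (α : ℤ × ℤ) (a b : ℕ) : form α (pt a b) = -form α.swap (pt b a) := by
  unfold form pt
  rw [Nat.gcd_comm b a]
  simp only [Prod.fst_swap, Prod.snd_swap]
  ring

lemma term_nonneg (n : ℕ) (T : Finset ℕ) : 0 ≤ ∑ p ∈ n.primeFactors \ T, Real.log (p : ℝ) :=
  Finset.sum_nonneg fun p _ => Real.log_natCast_nonneg p

open Classical in
theorem main (θ ε : ℝ) (hθ : 1 / 2 < θ) (hθ1 : θ ≤ 1) (hε : 0 < ε) (hε1 : ε < 1) :
    ∃ δ η : ℝ, 0 < δ ∧ 0 < η ∧ ∀ᶠ X : ℕ in atTop, ∀ A : Finset ℕ, Spread X θ ((X : ℝ) ^ η) A →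
      (∀ b : ℕ, 1 ≤ b → b ≤ X →
        ((A.filter fun a => ¬ Holds ε η X 1 (pt a b)).card : ℝ) ≤ (X : ℝ) ^ (-δ) * A.card) ∧
      ∀ B : Finset ℕ, Spread X θ ((X : ℝ) ^ η) B →
        (((A ×ˢ B).filter fun w => ¬ Holds ε η X 0 (pt w.1 w.2)).card : ℝ) ≤
          (X : ℝ) ^ (-δ) * (A.card * B.card) := by
  obtain ⟨δ, η, hδ, hη, hev⟩ := main_one θ ε hθ hθ1 hε
  refine ⟨δ / 2, η, by positivity, hη, ?_⟩
  filter_upwards [hev, ev_const 2 (δ / 2) (by positivity), eventually_ge_atTop 1] with X hX hX2 hX1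
  intro A hA
  have hX1r : (1 : ℝ) ≤ X := by exact_mod_cast hX1
  have hX0 : (0 : ℝ) < X := by linarith
  have hlogX : 0 ≤ Real.log X := Real.log_nonneg hX1r
  have hδ2 : (X : ℝ) ^ (-δ) ≤ (X : ℝ) ^ (-(δ / 2)) :=
    Real.rpow_le_rpow_of_exponent_le hX1r (by linarith)
  have hδ3 : 2 * (X : ℝ) ^ (-δ) ≤ (X : ℝ) ^ (-(δ / 2)) := by
    have e : (X : ℝ) ^ (-(δ / 2)) = (X : ℝ) ^ (δ / 2) * (X : ℝ) ^ (-δ) := by
      rw [← Real.rpow_add hX0]
      congr 1
      ring
    rw [e]
    gcongr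
  have hA0 := hA.card_pos
  refine ⟨?_, ?_⟩
  · intro b hb1 hbX
    obtain ⟨S, hSA, hS, hgood⟩ := hX A hA b hb1 hbX
    refine le_trans ?_ (hS.trans (mul_le_mul_of_nonneg_right hδ2 hA0.le))
    have : (A.filter fun a => ¬ Holds ε η X 1 (pt a b)) ⊆ S := by
      intro a ha
      rw [Finset.mem_filter] at ha
      by_contra haS
      apply ha.2
      intro q α T hα1 hα2 hT
      have ha1 := hA.2.1 a ha.1
      have hne : ∀ i, (α i).2 ≠ 0 → form (α i) (pt a b) ≠ 0 ∧ (1 - ε) * Real.log X ≤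
            ∑ p ∈ (form (α i) (pt a b)).natAbs.primeFactors \ T, Real.log (p : ℝ) :=
        fun i hi => hgood a ha.1 haS (α i) hi (hα1 i).2.1 (hα1 i).2.2 T hT
      refine ⟨?_, ?_⟩
      · intro i
        by_cases hi : (α i).2 = 0
        · have h1 : (α i).1 ≠ 0 := by
            intro h0
            have := (hα1 i).1
            rw [h0, hi] at this
            exact not_isCoprime_zero_zero this
          rw [hi, mul_zero, zero_sub, neg_ne_zero]
          refine mul_ne_zero ?_ h1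
          have h3 : 1 ≤ b / Nat.gcd a b :=
            Nat.div_pos (Nat.gcd_le_right _ hb1) (Nat.gcd_pos_of_pos_right _ hb1)
          unfold pt
          have : ((b / Nat.gcd a b : ℕ) : ℤ) ≠ 0 := by exact_mod_cast (by omega : b / Nat.gcd a b ≠ 0)
          exact this
        · exact (hne i hi).1
      · have hh := hgt_pt_le ha1.1 ha1.2 hbX
        have hh0 := hgt_nonneg (pt a b)
        -- all but at most one
        have hcard : (q : ℝ) - 1 ≤ ((Finset.univ.filter fun i => (α i).2 ≠ 0).card : ℝ) := by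
          have h1 : (Finset.univ.filter fun i => ¬ (α i).2 ≠ 0).card ≤ 1 := by
            rw [Finset.card_le_one]
            intro i hi j hj
            simp only [Finset.mem_filter, Finset.mem_univ, true_and, not_not] at hi hj
            by_contra hij
            apply hα2 i j hij
            rw [hi, hj, mul_zero, mul_zero]
          have h2 := Finset.card_filter_add_card_filter_not (s := (Finset.univ : Finset (Fin q)))
            (fun i => (α i).2 ≠ 0)
          rw [Finset.card_univ, Fintype.card_fin] at h2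
          have : q ≤ (Finset.univ.filter fun i => (α i).2 ≠ 0).card + 1 := by omega
          have : (q : ℝ) ≤ ((Finset.univ.filter fun i => (α i).2 ≠ 0).card : ℝ) + 1 := by
            exact_mod_cast this
          linarith
        calc ((q : ℝ) - 1) * (1 - ε) * hgt (pt a b) ≤
            ((Finset.univ.filter fun i => (α i).2 ≠ 0).card : ℝ) * (1 - ε) * hgt (pt a b) := by
              gcongr
          _ ≤ ((Finset.univ.filter fun i => (α i).2 ≠ 0).card : ℝ) * (1 - ε) * Real.log X := by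
              refine mul_le_mul_of_nonneg_left hh ?_
              exact mul_nonneg (Nat.cast_nonneg _) (by linarith)
          _ = ∑ i ∈ Finset.univ.filter fun i => (α i).2 ≠ 0, (1 - ε) * Real.log X := by
              rw [Finset.sum_const, nsmul_eq_mul]
              ring
          _ ≤ ∑ i ∈ Finset.univ.filter fun i => (α i).2 ≠ 0,
              ∑ p ∈ (form (α i) (pt a b)).natAbs.primeFactors \ T, Real.log (p : ℝ) := by
              refine Finset.sum_le_sum fun i hi => (hne i ?_).2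
              exact (Finset.mem_filter.1 hi).2
          _ ≤ ∑ i, ∑ p ∈ (form (α i) (pt a b)).natAbs.primeFactors \ T, Real.log (p : ℝ) :=
              Finset.sum_le_sum_of_subset_of_nonneg (Finset.filter_subset _ _)
                fun i _ _ => term_nonneg _ _
          _ = N1 α T (pt a b) := rfl
    exact_mod_cast Finset.card_le_card this
  · intro B hB
    have hB0 := hB.card_pos
    -- exceptional sets
    have h1 : ∀ b : ℕ, ∃ S : Finset ℕ, b ∈ B → (S ⊆ A ∧ (S.card : ℝ) ≤ (X : ℝ) ^ (-δ) * A.card ∧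
        ∀ a ∈ A, a ∉ S → ∀ α : ℤ × ℤ, α.2 ≠ 0 → (|α.1| : ℝ) ≤ (X : ℝ) ^ η →
          (|α.2| : ℝ) ≤ (X : ℝ) ^ η → ∀ T : Finset ℕ, ∑ p ∈ T, Real.log (p : ℝ) ≤ η * Real.log X →
          form α (pt a b) ≠ 0 ∧ (1 - ε) * Real.log X ≤
            ∑ p ∈ (form α (pt a b)).natAbs.primeFactors \ T, Real.log (p : ℝ)) := by
      intro b
      by_cases hb : b ∈ B
      · obtain ⟨S, hS⟩ := hX A hA b (hB.2.1 b hb).1 (hB.2.1 b hb).2
        exact ⟨S, fun _ => hS⟩
      · exact ⟨∅, fun h => absurd h hb⟩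
    choose SA hSA using h1
    have h2 : ∀ a : ℕ, ∃ S : Finset ℕ, a ∈ A → (S ⊆ B ∧ (S.card : ℝ) ≤ (X : ℝ) ^ (-δ) * B.card ∧
        ∀ b ∈ B, b ∉ S → ∀ α : ℤ × ℤ, α.2 ≠ 0 → (|α.1| : ℝ) ≤ (X : ℝ) ^ η →
          (|α.2| : ℝ) ≤ (X : ℝ) ^ η → ∀ T : Finset ℕ, ∑ p ∈ T, Real.log (p : ℝ) ≤ η * Real.log X →
          form α (pt b a) ≠ 0 ∧ (1 - ε) * Real.log X ≤
            ∑ p ∈ (form α (pt b a)).natAbs.primeFactors \ T, Real.log (p : ℝ)) := by
      intro a
      by_cases ha : a ∈ A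
      · obtain ⟨S, hS⟩ := hX B hB a (hA.2.1 a ha).1 (hA.2.1 a ha).2
        exact ⟨S, fun _ => hS⟩
      · exact ⟨∅, fun h => absurd h ha⟩
    choose SB hSB using h2
    set F : Finset (ℕ × ℕ) := (A ×ˢ B).filter fun w => ¬ Holds ε η X 0 (pt w.1 w.2) with hF
    set F₁ : Finset (ℕ × ℕ) := B.biUnion fun b => (SA b).image fun a => (a, b) with hF₁
    set F₂ : Finset (ℕ × ℕ) := A.biUnion fun a => (SB a).image fun b => (a, b) with hF₂
    have hsub : F ⊆ F₁ ∪ F₂ := by
      intro w hw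
      rw [hF, Finset.mem_filter, Finset.mem_product] at hw
      obtain ⟨⟨hwA, hwB⟩, hbad⟩ := hw
      rw [Finset.mem_union]
      by_contra hcon
      rw [not_or] at hcon
      apply hbad
      have hw1 : w.1 ∉ SA w.2 := fun h => hcon.1
        (Finset.mem_biUnion.2 ⟨w.2, hwB, Finset.mem_image.2 ⟨w.1, h, rfl⟩⟩)
      have hw2 : w.2 ∉ SB w.1 := fun h => hcon.2
        (Finset.mem_biUnion.2 ⟨w.1, hwA, Finset.mem_image.2 ⟨w.2, h, rfl⟩⟩)
      intro q α T hα1 hα2 hT
      have hne : ∀ i, form (α i) (pt w.1 w.2) ≠ 0 ∧ (1 - ε) * Real.log X ≤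
            ∑ p ∈ (form (α i) (pt w.1 w.2)).natAbs.primeFactors \ T, Real.log (p : ℝ) := by
        intro i
        by_cases hi : (α i).2 = 0
        · have h1 : (α i).1 ≠ 0 := by
            intro h0
            have := (hα1 i).1
            rw [h0, hi] at this
            exact not_isCoprime_zero_zero this
          have h3 := (hSB w.1 hwA).2.2 w.2 hwB hw2 (α i).swap (by simpa using h1)
            (hα1 i).2.2 (hα1 i).2.1 T hT
          rw [form_swap (α i) w.1 w.2, neg_ne_zero, Int.natAbs_neg]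
          exact h3
        · exact (hSA w.2 hwB).2.2 w.1 hwA hw1 (α i) hi (hα1 i).2.1 (hα1 i).2.2 T hT
      refine ⟨fun i => (hne i).1, ?_⟩
      have ha1 := hA.2.1 w.1 hwA
      have hb1 := hB.2.1 w.2 hwB
      have hh := hgt_pt_le ha1.1 ha1.2 hb1.2
      calc ((q : ℝ) - 0) * (1 - ε) * hgt (pt w.1 w.2) ≤ ((q : ℝ) - 0) * (1 - ε) * Real.log X := by
            refine mul_le_mul_of_nonneg_left hh ?_
            rw [sub_zero]
            exact mul_nonneg (Nat.cast_nonneg _) (by linarith)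
        _ = ∑ i : Fin q, (1 - ε) * Real.log X := by
            rw [Finset.sum_const, nsmul_eq_mul, Finset.card_univ, Fintype.card_fin]
            ring
        _ ≤ ∑ i, ∑ p ∈ (form (α i) (pt w.1 w.2)).natAbs.primeFactors \ T, Real.log (p : ℝ) :=
            Finset.sum_le_sum fun i _ => (hne i).2
        _ = N1 α T (pt w.1 w.2) := rfl
    have hc1 : (F₁.card : ℝ) ≤ (X : ℝ) ^ (-δ) * (A.card * B.card) := by
      have : (F₁.card : ℝ) ≤ ∑ b ∈ B, (((SA b).image fun a => (a, b)).card : ℝ) := by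
        exact_mod_cast Finset.card_biUnion_le
      refine this.trans ((Finset.sum_le_card_nsmul _ _ ((X : ℝ) ^ (-δ) * A.card) ?_).trans ?_)
      · intro b hb
        refine le_trans ?_ (hSA b hb).2.1
        exact_mod_cast Finset.card_image_le
      · rw [nsmul_eq_mul]
        exact le_of_eq (by ring)
    have hc2 : (F₂.card : ℝ) ≤ (X : ℝ) ^ (-δ) * (A.card * B.card) := by
      have : (F₂.card : ℝ) ≤ ∑ a ∈ A, (((SB a).image fun b => (a, b)).card : ℝ) := by
        exact_mod_cast Finset.card_biUnion_le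
      refine this.trans ((Finset.sum_le_card_nsmul _ _ ((X : ℝ) ^ (-δ) * B.card) ?_).trans ?_)
      · intro a ha
        refine le_trans ?_ (hSB a ha).2.1
        exact_mod_cast Finset.card_image_le
      · rw [nsmul_eq_mul]
        exact le_of_eq (by ring)
    have hc : (F.card : ℝ) ≤ F₁.card + F₂.card := by
      exact_mod_cast (Finset.card_le_card hsub).trans (Finset.card_union_le _ _)
    calc (F.card : ℝ) ≤ F₁.card + F₂.card := hc
      _ ≤ 2 * (X : ℝ) ^ (-δ) * (A.card * B.card) := by linarith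
      _ ≤ (X : ℝ) ^ (-(δ / 2)) * (A.card * B.card) := by gcongr

end Pool.Agent.W5h37.Thin
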