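import Pool.Agent.W5h37.Thin.Rad

/-!
# Choice of the parameters
-/

set_option autoImplicit false

namespace Pool.Agent.W5h37.Thin

open Finset Filter

/-- a constant is at most a small power -/
lemma ev_const (M γ : ℝ) (hγ : 0 < γ) : ∀ᶠ X : ℕ in atTop, M ≤ (X : ℝ) ^ γ :=
  ((tendsto_rpow_atTop hγ).comp tendsto_natCast_atTop_atTop).eventually_ge_atTop M

theorem main_one (θ ε : ℝ) (hθ : 1 / 2 < θ) (hθ1 : θ ≤ 1) (hε : 0 < ε) :
    ∃ δ η : ℝ, 0 < δ ∧ 0 < η ∧ ∀ᶠ X : ℕ in atTop, ∀ A : Finset ℕ, Spread X θ ((X : ℝ) ^ η) A →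
      ∀ b : ℕ, 1 ≤ b → b ≤ X → ∃ S : Finset ℕ, S ⊆ A ∧
        (S.card : ℝ) ≤ (X : ℝ) ^ (-δ) * A.card ∧
        ∀ a ∈ A, a ∉ S → ∀ α : ℤ × ℤ, α.2 ≠ 0 → (|α.1| : ℝ) ≤ (X : ℝ) ^ η →
          (|α.2| : ℝ) ≤ (X : ℝ) ^ η → ∀ T : Finset ℕ, ∑ p ∈ T, Real.log (p : ℝ) ≤ η * Real.log X →
          form α (pt a b) ≠ 0 ∧ (1 - ε) * Real.log X ≤
            ∑ p ∈ (form α (pt a b)).natAbs.primeFactors \ T, Real.log (p : ℝ) := by
  obtain ⟨ε₀, hε₀⟩ : ∃ ε₀, ε₀ = min ε 1 / 10 := ⟨_, rfl⟩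
  have he0 : 0 < ε₀ := by rw [hε₀]; positivity
  have he1 : 10 * ε₀ ≤ ε := by rw [hε₀]; have := min_le_left ε 1; linarith
  have he2 : 10 * ε₀ ≤ 1 := by rw [hε₀]; have := min_le_right ε 1; linarith
  obtain ⟨κ, hκ⟩ : ∃ κ, κ = θ - 1 / 2 := ⟨_, rfl⟩
  have hκ0 : 0 < κ := by rw [hκ]; linarith
  have hκ1 : κ ≤ 1 / 2 := by rw [hκ]; linarith
  obtain ⟨η, hη⟩ : ∃ η, η = ε₀ * κ / 10 := ⟨_, rfl⟩
  have hη0 : 0 < η := by rw [hη]; positivity
  have hη1 : η ≤ ε₀ / 20 := by rw [hη]; nlinarith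
  obtain ⟨C, hC0, hC⟩ := divisor_bound η hη0
  obtain ⟨Z, hZ⟩ : ∃ Z, Z = ∑' n : ℕ, 1 / (n : ℝ) ^ (θ + 1 / 2) := ⟨_, rfl⟩
  have hZ0 : 0 ≤ Z := by rw [hZ]; exact tsum_nonneg fun n => by positivity
  refine ⟨η, η, hη0, hη0, ?_⟩
  filter_upwards [eventually_ge_atTop 1, ev_const (27 + 27 * Z + 2 * C) η hη0,
    ev_const 2 ε₀ he0, ev_const (256 : ℝ) (ε₀ / 2) (by positivity)] with X hX1 hXM hX2 hX256
  intro A hA b hb1 hbX
  have hX0 : (0 : ℝ) < X := by exact_mod_cast hX1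
  have hX1r : (1 : ℝ) ≤ X := by exact_mod_cast hX1
  have hXη : 1 ≤ (X : ℝ) ^ η := Real.one_le_rpow hX1r hη0.le
  -- the parameters
  set U : ℕ := ⌊(X : ℝ) ^ η⌋₊ with hU
  set Y : ℕ := ⌊(X : ℝ) ^ (1 - ε₀)⌋₊ with hY
  set E : ℕ := ⌈(X : ℝ) ^ ε₀⌉₊ with hE
  have hU1 : 1 ≤ U := Nat.le_floor (by simpa using hXη)
  have hU2 : (U : ℝ) ≤ (X : ℝ) ^ η := Nat.floor_le (by positivity)
  have hYX : 1 ≤ (X : ℝ) ^ (1 - ε₀) := Real.one_le_rpow hX1r (by linarith)
  have hY1 : 1 ≤ Y := Nat.le_floor (by simpa using hYX)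
  have hY2 : (Y : ℝ) ≤ (X : ℝ) ^ (1 - ε₀) := Nat.floor_le (by positivity)
  have hE1 : (X : ℝ) ^ ε₀ ≤ E := Nat.le_ceil _
  have hE2 : (E : ℝ) ≤ 2 * (X : ℝ) ^ ε₀ := by
    have := (Nat.ceil_lt_add_one (by positivity : 0 ≤ (X : ℝ) ^ ε₀)).le
    linarith
  have hE0 : 1 ≤ E := by
    have : (1 : ℝ) ≤ E := by linarith
    exact_mod_cast this
  obtain ⟨S, hSA, hgood, hcard⟩ := bad_card hA hθ hθ1 (by positivity) hX1 U Y E b hU1 hE0 hb1 hbX
  refine ⟨S, hSA, ?_, ?_⟩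
  · refine hcard.trans ?_
    have hA0 := hA.card_pos
    rw [← hZ]
    have hp : ∀ s t : ℝ, (X : ℝ) ^ s * (X : ℝ) ^ t = (X : ℝ) ^ (s + t) :=
      fun s t => (Real.rpow_add hX0 s t).symm
    have hmono : ∀ s t : ℝ, s ≤ t → (X : ℝ) ^ s ≤ (X : ℝ) ^ t :=
      fun s t => Real.rpow_le_rpow_of_exponent_le hX1r
    -- first term
    have t1 : 9 * (U : ℝ) ^ 2 * (((2 * Y + 1 : ℕ) : ℝ) / X) ^ θ ≤ 27 * (X : ℝ) ^ (-(3 * η)) := by
      have h1 : (((2 * Y + 1 : ℕ) : ℝ) / X) ≤ 3 * (X : ℝ) ^ (-ε₀) := by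
        push_cast
        have h2 : (X : ℝ) ^ (1 - ε₀) = X * (X : ℝ) ^ (-ε₀) := by
          rw [show (1 : ℝ) - ε₀ = 1 + (-ε₀) by ring, ← hp, Real.rpow_one]
        rw [div_le_iff₀ hX0]
        nlinarith
      have h2 : (((2 * Y + 1 : ℕ) : ℝ) / X) ^ θ ≤ 3 * (X : ℝ) ^ (-(ε₀ * κ)) := by
        calc (((2 * Y + 1 : ℕ) : ℝ) / X) ^ θ ≤ (3 * (X : ℝ) ^ (-ε₀)) ^ θ :=
              Real.rpow_le_rpow (by positivity) h1 (by linarith)
          _ = 3 ^ θ * (X : ℝ) ^ (-ε₀ * θ) := by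
              rw [Real.mul_rpow (by norm_num) (by positivity), ← Real.rpow_mul hX0.le]
          _ ≤ 3 * (X : ℝ) ^ (-(ε₀ * κ)) := by
              refine mul_le_mul ?_ ?_ (by positivity) (by norm_num)
              · calc (3 : ℝ) ^ θ ≤ 3 ^ (1 : ℝ) :=
                    Real.rpow_le_rpow_of_exponent_le (by norm_num) hθ1
                  _ = 3 := Real.rpow_one _
              · apply hmono
                rw [hκ]
                nlinarith
      have h3 : (U : ℝ) ^ 2 ≤ (X : ℝ) ^ (2 * η) := by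
        calc (U : ℝ) ^ 2 ≤ ((X : ℝ) ^ η) ^ 2 := by gcongr
          _ = (X : ℝ) ^ (2 * η) := by
              rw [← Real.rpow_natCast, ← Real.rpow_mul hX0.le]
              congr 1
              push_cast
              ring
      calc 9 * (U : ℝ) ^ 2 * (((2 * Y + 1 : ℕ) : ℝ) / X) ^ θ ≤
          9 * (X : ℝ) ^ (2 * η) * (3 * (X : ℝ) ^ (-(ε₀ * κ))) := by gcongr
        _ = 27 * ((X : ℝ) ^ (2 * η) * (X : ℝ) ^ (-(ε₀ * κ))) := by ring
        _ = 27 * (X : ℝ) ^ (2 * η + -(ε₀ * κ)) := by rw [hp]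
        _ ≤ 27 * (X : ℝ) ^ (-(3 * η)) := by
            refine mul_le_mul_of_nonneg_left (hmono _ _ ?_) (by norm_num)
            have : ε₀ * κ = 10 * η := by rw [hη]; ring
            rw [this]
            linarith
    -- second term
    have t2 : 27 * (U : ℝ) ^ 3 * (Z * (E : ℝ) ^ (-(θ - 1 / 2))) ≤
        27 * Z * (X : ℝ) ^ (-(3 * η)) := by
      have h3 : (U : ℝ) ^ 3 ≤ (X : ℝ) ^ (3 * η) := by
        calc (U : ℝ) ^ 3 ≤ ((X : ℝ) ^ η) ^ 3 := by gcongr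
          _ = (X : ℝ) ^ (3 * η) := by
              rw [← Real.rpow_natCast, ← Real.rpow_mul hX0.le]
              congr 1
              push_cast
              ring
      have h4 : (E : ℝ) ^ (-(θ - 1 / 2)) ≤ (X : ℝ) ^ (-(ε₀ * κ)) := by
        have h5 : (X : ℝ) ^ (-(ε₀ * κ)) = ((X : ℝ) ^ ε₀) ^ (-κ) := by
          rw [← Real.rpow_mul hX0.le]
          congr 1
          ring
        rw [h5, ← hκ]
        exact Real.rpow_le_rpow_of_nonpos (by positivity) hE1 (by linarith)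
      calc 27 * (U : ℝ) ^ 3 * (Z * (E : ℝ) ^ (-(θ - 1 / 2))) ≤
          27 * (X : ℝ) ^ (3 * η) * (Z * (X : ℝ) ^ (-(ε₀ * κ))) := by gcongr
        _ = 27 * Z * ((X : ℝ) ^ (3 * η) * (X : ℝ) ^ (-(ε₀ * κ))) := by ring
        _ = 27 * Z * (X : ℝ) ^ (3 * η + -(ε₀ * κ)) := by rw [hp]
        _ ≤ 27 * Z * (X : ℝ) ^ (-(3 * η)) := by
            refine mul_le_mul_of_nonneg_left (hmono _ _ ?_) (by positivity)
            have : ε₀ * κ = 10 * η := by rw [hη]; ring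
            rw [this]
            linarith
    -- third term
    have t3 : b.divisors.card * (2 / (E : ℝ)) ^ θ ≤ 2 * C * (X : ℝ) ^ (-(3 * η)) := by
      have h1 : ((b.divisors.card : ℕ) : ℝ) ≤ C * (X : ℝ) ^ η := by
        refine (hC b (by omega)).trans ?_
        have : (b : ℝ) ≤ X := by exact_mod_cast hbX
        gcongr
      have hE00 : (0 : ℝ) < E := by exact_mod_cast hE0
      have h2 : (2 / (E : ℝ)) ^ θ ≤ 2 * (X : ℝ) ^ (-(ε₀ * κ)) := by
        calc (2 / (E : ℝ)) ^ θ ≤ (2 * (X : ℝ) ^ (-ε₀)) ^ θ := by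
              refine Real.rpow_le_rpow (by positivity) ?_ (by linarith)
              rw [Real.rpow_neg hX0.le, ← div_eq_mul_inv]
              gcongr
          _ = 2 ^ θ * (X : ℝ) ^ (-ε₀ * θ) := by
              rw [Real.mul_rpow (by norm_num) (by positivity), ← Real.rpow_mul hX0.le]
          _ ≤ 2 * (X : ℝ) ^ (-(ε₀ * κ)) := by
              refine mul_le_mul ?_ ?_ (by positivity) (by norm_num)
              · calc (2 : ℝ) ^ θ ≤ 2 ^ (1 : ℝ) :=
                    Real.rpow_le_rpow_of_exponent_le (by norm_num) hθ1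
                  _ = 2 := Real.rpow_one _
              · apply hmono
                rw [hκ]
                nlinarith
      calc b.divisors.card * (2 / (E : ℝ)) ^ θ ≤
          (C * (X : ℝ) ^ η) * (2 * (X : ℝ) ^ (-(ε₀ * κ))) := by gcongr
        _ = 2 * C * ((X : ℝ) ^ η * (X : ℝ) ^ (-(ε₀ * κ))) := by ring
        _ = 2 * C * (X : ℝ) ^ (η + -(ε₀ * κ)) := by rw [hp]
        _ ≤ 2 * C * (X : ℝ) ^ (-(3 * η)) := by
            refine mul_le_mul_of_nonneg_left (hmono _ _ ?_) (by positivity)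
            have : ε₀ * κ = 10 * η := by rw [hη]; ring
            rw [this]
            linarith
    calc (X : ℝ) ^ η * A.card * (9 * (U : ℝ) ^ 2 * (((2 * Y + 1 : ℕ) : ℝ) / X) ^ θ +
          27 * (U : ℝ) ^ 3 * (Z * (E : ℝ) ^ (-(θ - 1 / 2))) +
          b.divisors.card * (2 / (E : ℝ)) ^ θ) ≤
        (X : ℝ) ^ η * A.card * (27 * (X : ℝ) ^ (-(3 * η)) + 27 * Z * (X : ℝ) ^ (-(3 * η)) +
          2 * C * (X : ℝ) ^ (-(3 * η))) := by gcongr
      _ = (27 + 27 * Z + 2 * C) * ((X : ℝ) ^ η * (X : ℝ) ^ (-(3 * η))) * A.card := by ring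
      _ ≤ (X : ℝ) ^ η * ((X : ℝ) ^ η * (X : ℝ) ^ (-(3 * η))) * A.card := by gcongr
      _ = (X : ℝ) ^ (-η) * A.card := by
          rw [hp, hp]
          congr 2
          ring
  · intro a haA haS α hα h1 h2 T hT
    have h3 : |α.1| ≤ (U : ℤ) := by
      have : (|α.1|.toNat : ℝ) ≤ (X : ℝ) ^ η := by
        have e : ((|α.1|.toNat : ℕ) : ℝ) = |(α.1 : ℝ)| := by
          have := Int.toNat_of_nonneg (abs_nonneg α.1)
          have h5 : ((|α.1|.toNat : ℤ) : ℝ) = ((|α.1| : ℤ) : ℝ) := by rw [this]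
          rw [Int.cast_abs] at h5
          rw [← h5]
          norm_cast
        rw [e]
        exact h1
      have h6 := Nat.le_floor this
      have h7 := Int.toNat_of_nonneg (abs_nonneg α.1)
      omega
    have h4 : |α.2| ≤ (U : ℤ) := by
      have : (|α.2|.toNat : ℝ) ≤ (X : ℝ) ^ η := by
        have e : ((|α.2|.toNat : ℕ) : ℝ) = |(α.2 : ℝ)| := by
          have := Int.toNat_of_nonneg (abs_nonneg α.2)
          have h5 : ((|α.2|.toNat : ℤ) : ℝ) = ((|α.2| : ℤ) : ℝ) := by rw [this]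
          rw [Int.cast_abs] at h5
          rw [← h5]
          norm_cast
        rw [e]
        exact h2
      have h6 := Nat.le_floor this
      have h7 := Int.toNat_of_nonneg (abs_nonneg α.2)
      omega
    obtain ⟨g1, g2⟩ := good_point hY1 hE0 hb1 (hgood a haA haS) α hα h3 h4 T
    refine ⟨g1, le_trans ?_ g2⟩
    have hlogX : 0 ≤ Real.log X := Real.log_nonneg hX1r
    -- log Y
    have l1 : (1 - ε₀) * Real.log X - Real.log 2 ≤ Real.log Y := by
      have : (X : ℝ) ^ (1 - ε₀) ≤ 2 * Y := by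
        have h5 := (Nat.lt_floor_add_one ((X : ℝ) ^ (1 - ε₀))).le
        rw [← hY] at h5
        have h6 : (1 : ℝ) ≤ Y := by exact_mod_cast hY1
        linarith
      have h7 := Real.log_le_log (by positivity) this
      have hY0 : (0 : ℝ) < Y := by exact_mod_cast hY1
      rw [Real.log_rpow hX0, Real.log_mul (by norm_num) hY0.ne'] at h7
      linarith
    have l2 : Real.log E ≤ ε₀ * Real.log X + Real.log 2 := by
      have hE00 : (0 : ℝ) < E := by exact_mod_cast hE0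
      have h7 := Real.log_le_log hE00 hE2
      rw [Real.log_mul (by norm_num) (by positivity), Real.log_rpow hX0] at h7
      linarith
    have l3 : 4 * Real.log 2 ≤ ε₀ / 2 * Real.log X := by
      have h7 := Real.log_le_log (by norm_num) hX256
      rw [Real.log_rpow hX0] at h7
      have h8 : Real.log 256 = 8 * Real.log 2 := by
        rw [show (256 : ℝ) = 2 ^ 8 by norm_num, Real.log_pow]
        norm_num
      have h9 : 0 ≤ Real.log 2 := Real.log_nonneg (by norm_num)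
      linarith
    nlinarith

end Pool.Agent.W5h37.Thin
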