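import Pool.Agent.W5h37.Thin.Forms

/-!
# Powers dividing linear forms in elements of thin sets of any positive exponent, and the common
divisors of two forms
-/

set_option autoImplicit false

namespace Pool.Agent.W5h37.Thin

open Finset Filter

/-- few elements make a linear form divisible by `q` -/
lemma mod_form {X : ℕ} {θ K : ℝ} {A : Finset ℕ} (h : Spread X θ K A) (hθ : 0 ≤ θ)
    (hK : 0 ≤ K) (hX : 1 ≤ X) (u r : ℤ)
    (hu : u ≠ 0) (V q : ℕ) (huV : |u| ≤ V) (hq : 1 ≤ q) (hqX : q ≤ 2 * V * X)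
    (S : Finset ℕ) (hSA : S ⊆ A) (hS : ∀ a ∈ S, (q : ℤ) ∣ u * a + r) :
    (S.card : ℝ) ≤ K * A.card * (3 * V / (q : ℝ)) ^ θ := by
  have hU : 1 ≤ V := by
    have h4 : (1 : ℤ) ≤ |u| := Int.one_le_abs hu
    omega
  set g := Nat.gcd u.natAbs q with hg
  have hgpos : 0 < g := Nat.gcd_pos_of_pos_left _ (Int.natAbs_pos.2 hu)
  have hgU : g ≤ V := by
    have : g ≤ u.natAbs := Nat.gcd_le_left _ (Int.natAbs_pos.2 hu)
    have : (u.natAbs : ℤ) ≤ V := by rwa [Int.natCast_natAbs]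
    omega
  obtain ⟨m, hm⟩ : g ∣ q := Nat.gcd_dvd_right _ _
  have hmpos : 0 < m := by
    rcases Nat.eq_zero_or_pos m with h0 | h0
    · rw [h0, mul_zero] at hm
      omega
    · exact h0
  have h1 := count h S hSA m X hmpos (by
    intro a ha a' ha' hle
    refine ⟨?_, ?_⟩
    · have h1 := dvd_sub (hS a' ha') (hS a ha)
      have e1 : u * (a' : ℤ) + r - (u * a + r) = u * ((a' : ℤ) - a) := by ring
      rw [e1] at h1
      have h2 : q ∣ u.natAbs * (a' - a) := by
        have := Int.natAbs_dvd_natAbs.2 h1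
        rw [Int.natAbs_mul] at this
        have e2 : ((q : ℤ)).natAbs = q := by simp
        have e3 : ((a' : ℤ) - a).natAbs = a' - a := by omega
        rwa [e2, e3] at this
      have h3 : Nat.Coprime (u.natAbs / g) (q / g) :=
        Nat.coprime_div_gcd_div_gcd hgpos
      have e4 : q / g = m := by
        conv_lhs => rw [hm]
        exact Nat.mul_div_cancel_left m hgpos
      rw [e4] at h3
      have h4 : m ∣ (u.natAbs / g) * (a' - a) := by
        have e5 : u.natAbs * (a' - a) = g * ((u.natAbs / g) * (a' - a)) := by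
          rw [← mul_assoc, Nat.mul_div_cancel' (Nat.gcd_dvd_left _ _)]
        rw [e5, hm] at h2
        exact Nat.dvd_of_mul_dvd_mul_left hgpos h2
      exact (Nat.Coprime.dvd_of_dvd_mul_left h3.symm h4)
    · have := (h.2.1 a' (hSA ha')).2
      omega)
  refine h1.trans ?_
  refine mul_le_mul_of_nonneg_left ?_ (mul_nonneg hK h.card_pos.le)
  refine Real.rpow_le_rpow (by positivity) ?_ hθ
  have hX0 : (0 : ℝ) < X := by exact_mod_cast hX
  have he0 : (0 : ℝ) < (q : ℝ) := by exact_mod_cast hq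
  rw [div_le_div_iff₀ hX0 he0]
  have h2 : ((X / m + 1 : ℕ) : ℝ) ≤ X / m + 1 := by
    push_cast
    have := @Nat.cast_div_le ℝ _ _ _ X m
    linarith
  have hm0 : (0 : ℝ) < m := by exact_mod_cast hmpos
  have h3 : (q : ℝ) = g * m := by exact_mod_cast hm
  have h4 : (g : ℝ) ≤ V := by exact_mod_cast hgU
  have h5 : (q : ℝ) ≤ 2 * V * X := by exact_mod_cast hqX
  calc ((X / m + 1 : ℕ) : ℝ) * (q : ℝ) ≤ (X / m + 1) * (q : ℝ) :=
        mul_le_mul_of_nonneg_right h2 he0.le
    _ = X * g + (q : ℝ) := by rw [h3]; field_simp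
    _ ≤ X * V + 2 * V * X := by
        have := mul_le_mul_of_nonneg_left h4 hX0.le
        linarith
    _ = 3 * V * X := by ring

lemma lin_le {m X : ℕ} {θ K : ℝ} {A : Fin m → Finset ℕ} (hA : ∀ i, Spread X θ K (A i)) (U : ℕ)
    (u : Fin m → ℤ) (huU : ∀ i, |u i| ≤ U) {a : Fin m → ℕ} (ha : a ∈ Fintype.piFinset A) :
    |lin u a| ≤ m * U * X := by
  unfold lin
  refine (Finset.abs_sum_le_sum_abs _ _).trans ?_
  refine (Finset.sum_le_card_nsmul _ _ ((U : ℤ) * X) ?_).trans ?_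
  · intro i _
    rw [abs_mul, Nat.abs_cast]
    have h6 := ((hA i).2.1 (a i) (Fintype.mem_piFinset.1 ha i)).2
    have h7 : (a i : ℤ) ≤ X := by exact_mod_cast h6
    have := huU i
    gcongr
  · rw [Finset.card_univ, Fintype.card_fin, nsmul_eq_mul]
    exact le_of_eq (by ring)

/-- the tuples for which one form is bad -/
lemma one_formK {m X k : ℕ} {θ γ K : ℝ} {A : Fin m → Finset ℕ} (hA : ∀ i, Spread X θ K (A i))
    (hθ0 : 0 ≤ θ) (hθ1 : θ ≤ 1) (hγ : 0 < γ) (hk : 1 + 2 * γ ≤ k * θ) (hK : 0 ≤ K) (hX : 1 ≤ X)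
    (U Y E : ℕ) (hU : 1 ≤ U) (hE : 1 ≤ E) (u : Fin m → ℤ) (hu : u ≠ 0) (huU : ∀ i, |u i| ≤ U)
    (B : Finset (Fin m → ℕ)) (hB : B ⊆ Fintype.piFinset A)
    (hbad : ∀ a ∈ B, |lin u a| ≤ (Y : ℤ) ∨ ∃ e : ℕ, E ≤ e ∧ e ^ k ≤ 2 * (m * U) * X ∧
      (e : ℤ) ^ k ∣ lin u a) :
    (B.card : ℝ) ≤ K * ((((2 * Y + 1 : ℕ) : ℝ) / X) ^ θ +
      3 * (m * U : ℕ) * ((∑' n : ℕ, 1 / (n : ℝ) ^ (1 + γ)) * (E : ℝ) ^ (-γ))) *
        ∏ j, ((A j).card : ℝ) := by
  classical
  obtain ⟨i, hi⟩ : ∃ i, u i ≠ 0 := Function.ne_iff.1 hu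
  have hk0 : k ≠ 0 := by
    rintro rfl
    simp only [Nat.cast_zero, zero_mul] at hk
    linarith
  have hm1 : 1 ≤ m := by
    have := i.2; omega
  set V : ℕ := m * U with hV
  have hV1 : 1 ≤ V := Nat.one_le_iff_ne_zero.2 (by positivity)
  have hUV : U ≤ V := Nat.le_mul_of_pos_left _ hm1
  have huV : |u i| ≤ V := (huU i).trans (by exact_mod_cast hUV)
  have hE0 : (0 : ℝ) < E := by exact_mod_cast hE
  refine fibre_count A i B hB _ ?_
  intro b
  set r : ℤ := lin u (Function.update b i 0) with hr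
  have hlin : ∀ x : ℕ, lin u (Function.update b i x) = u i * x + r * (1 : ℕ) := by
    intro x
    rw [lin_split u _ i]
    simp [hr]
  set J : Finset ℕ := (Finset.Icc E (2 * V * X)).filter fun e => e ^ k ≤ 2 * V * X with hJ
  have hsub : ((A i).filter fun x => Function.update b i x ∈ B) ⊆
      ((A i).filter fun x : ℕ => |u i * x + r * (1 : ℕ)| ≤ (Y : ℤ)) ∪
        J.biUnion fun e => (A i).filter fun x : ℕ => ((e : ℕ) : ℤ) ^ k ∣ u i * x + r * (1 : ℕ) := by
    intro x hx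
    rw [Finset.mem_filter] at hx
    rw [Finset.mem_union]
    rcases hbad _ hx.2 with h1 | ⟨e, he1, he2, he3⟩
    · left
      rw [hlin] at h1
      exact Finset.mem_filter.2 ⟨hx.1, h1⟩
    · right
      rw [hlin] at he3
      refine Finset.mem_biUnion.2 ⟨e, ?_, Finset.mem_filter.2 ⟨hx.1, he3⟩⟩
      rw [hJ, Finset.mem_filter, Finset.mem_Icc]
      refine ⟨⟨he1, ?_⟩, he2⟩
      have : e ≤ e ^ k := Nat.le_self_pow hk0 e
      omega
  have h1 : (((A i).filter fun x => Function.update b i x ∈ B).card : ℝ) ≤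
      (((A i).filter fun x : ℕ => |u i * x + r * (1 : ℕ)| ≤ (Y : ℤ)).card : ℝ) +
        ∑ e ∈ J, (((A i).filter fun x : ℕ => ((e : ℕ) : ℤ) ^ k ∣ u i * x + r * (1 : ℕ)).card : ℝ) := by
    have e1 := (Finset.card_le_card hsub).trans (Finset.card_union_le _ _)
    have e2 : (J.biUnion fun e => (A i).filter fun x : ℕ =>
        ((e : ℕ) : ℤ) ^ k ∣ u i * x + r * (1 : ℕ)).card ≤ _ := Finset.card_biUnion_le
    exact_mod_cast e1.trans (Nat.add_le_add_left e2 _)
  have hs := small_form (hA i) 1 (u i) r hi Y _ (Finset.filter_subset _ _)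
    (fun a ha => (Finset.mem_filter.1 ha).2)
  have hA0 := (hA i).card_pos
  have h2 : ∀ e ∈ J, (((A i).filter fun x : ℕ => ((e : ℕ) : ℤ) ^ k ∣ u i * x + r * (1 : ℕ)).card : ℝ) ≤
      K * (A i).card * (3 * V * (E : ℝ) ^ (-γ)) * (1 / (e : ℝ) ^ (1 + γ)) := by
    intro e he
    rw [hJ, Finset.mem_filter, Finset.mem_Icc] at he
    have he1 : 1 ≤ e := hE.trans he.1.1
    have he0 : (0 : ℝ) < e := by exact_mod_cast he1
    have he1' : (1 : ℝ) ≤ e := by exact_mod_cast he1
    have h3 := mod_form (hA i) hθ0 hK hX (u i) (r * (1 : ℕ)) hi V (e ^ k) huV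
      (Nat.one_le_pow _ _ he1) he.2 ((A i).filter fun x : ℕ => ((e : ℕ) : ℤ) ^ k ∣ u i * x + r * (1 : ℕ))
      (Finset.filter_subset _ _) (fun a ha => by
        have := (Finset.mem_filter.1 ha).2
        push_cast at this ⊢
        exact this)
    refine h3.trans ?_
    have hVr : (1 : ℝ) ≤ V := by exact_mod_cast hV1
    have h4 : (3 * V / ((e ^ k : ℕ) : ℝ)) ^ θ ≤ 3 * V * (E : ℝ) ^ (-γ) *
        (1 / (e : ℝ) ^ (1 + γ)) := by
      rw [Real.div_rpow (by positivity) (by positivity)]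
      have h5 : (3 * (V : ℝ)) ^ θ ≤ 3 * V := by
        calc (3 * (V : ℝ)) ^ θ ≤ (3 * (V : ℝ)) ^ (1 : ℝ) :=
              Real.rpow_le_rpow_of_exponent_le (by linarith) hθ1
          _ = 3 * V := Real.rpow_one _
      have h6 : (e : ℝ) ^ (1 + γ) * (e : ℝ) ^ γ ≤ ((e ^ k : ℕ) : ℝ) ^ θ := by
        push_cast
        rw [← Real.rpow_natCast, ← Real.rpow_mul he0.le, ← Real.rpow_add he0]
        exact Real.rpow_le_rpow_of_exponent_le he1' (by linarith)
      have h7 : (E : ℝ) ^ γ ≤ (e : ℝ) ^ γ :=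
        Real.rpow_le_rpow hE0.le (by exact_mod_cast he.1.1) hγ.le
      have h8 : 0 < (E : ℝ) ^ γ := Real.rpow_pos_of_pos hE0 _
      have h9 : 0 < (e : ℝ) ^ (1 + γ) := Real.rpow_pos_of_pos he0 _
      have h10 : 0 < (e : ℝ) ^ γ := Real.rpow_pos_of_pos he0 _
      rw [Real.rpow_neg hE0.le]
      calc (3 * (V : ℝ)) ^ θ / ((e ^ k : ℕ) : ℝ) ^ θ ≤
          (3 * V) / ((e : ℝ) ^ (1 + γ) * (e : ℝ) ^ γ) := by
            gcongr
        _ ≤ (3 * V) / ((e : ℝ) ^ (1 + γ) * (E : ℝ) ^ γ) := by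
            gcongr
        _ = 3 * V * ((E : ℝ) ^ γ)⁻¹ * (1 / (e : ℝ) ^ (1 + γ)) := by
            field_simp
    calc K * (A i).card * (3 * V / ((e ^ k : ℕ) : ℝ)) ^ θ ≤ K * (A i).card *
        (3 * V * (E : ℝ) ^ (-γ) * (1 / (e : ℝ) ^ (1 + γ))) :=
          mul_le_mul_of_nonneg_left h4 (mul_nonneg hK hA0.le)
      _ = _ := by ring
  have hsum : ∑ e ∈ J, 1 / (e : ℝ) ^ (1 + γ) ≤ ∑' n : ℕ, 1 / (n : ℝ) ^ (1 + γ) := by
    refine Summable.sum_le_tsum _ (fun i _ => by positivity) ?_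
    exact Real.summable_one_div_nat_rpow.2 (by linarith)
  have h5 : ∑ e ∈ J, (((A i).filter fun x : ℕ => ((e : ℕ) : ℤ) ^ k ∣ u i * x + r * (1 : ℕ)).card : ℝ) ≤
      K * (A i).card * (3 * V * (E : ℝ) ^ (-γ)) *
        ∑' n : ℕ, 1 / (n : ℝ) ^ (1 + γ) := by
    refine (Finset.sum_le_sum h2).trans ?_
    rw [← Finset.mul_sum]
    refine mul_le_mul_of_nonneg_left hsum (mul_nonneg (mul_nonneg hK hA0.le)
      (mul_nonneg (mul_nonneg (by norm_num) (Nat.cast_nonneg V)) (Real.rpow_nonneg hE0.le _)))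
  calc _ ≤ _ := h1
    _ ≤ K * (A i).card * (((2 * Y + 1 : ℕ) : ℝ) / X) ^ θ + K * (A i).card *
        (3 * V * (E : ℝ) ^ (-γ)) * ∑' n : ℕ, 1 / (n : ℝ) ^ (1 + γ) :=
          add_le_add hs h5
    _ = _ := by ring

/-- the tuples for which two forms have a large common divisor -/
lemma two_forms {m X : ℕ} {θ K T : ℝ} {A : Fin m → Finset ℕ} (hA : ∀ i, Spread X θ K (A i))
    (hθ0 : 0 ≤ θ) (hK : 0 ≤ K) (hX : 1 ≤ X) (U E : ℕ) (hU : 1 ≤ U) (hE : 1 ≤ E)
    (hT : ∀ n : ℕ, n ≠ 0 → n ≤ 2 * m * U ^ 2 * X → (n.divisors.card : ℝ) ≤ T)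
    (u v : Fin m → ℤ) (i : Fin m) (hi : u i ≠ 0) (huU : ∀ i, |u i| ≤ U) (hvU : ∀ i, |v i| ≤ U)
    (B : Finset (Fin m → ℕ)) (hB : B ⊆ Fintype.piFinset A)
    (hbad : ∀ a ∈ B, u i * lin v a - v i * lin u a ≠ 0 ∧
      ∃ D : ℕ, E ≤ D ∧ D ≤ 2 * (m * U) * X ∧ (D : ℤ) ∣ lin u a ∧ (D : ℤ) ∣ lin v a) :
    (B.card : ℝ) ≤ K * (T * (3 * (m * U : ℕ) / (E : ℝ)) ^ θ) * ∏ j, ((A j).card : ℝ) := by
  classical
  have hm1 : 1 ≤ m := by
    have := i.2; omega
  set V : ℕ := m * U with hV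
  have hV1 : 1 ≤ V := Nat.one_le_iff_ne_zero.2 (by positivity)
  have hUV : U ≤ V := Nat.le_mul_of_pos_left _ hm1
  have huV : |u i| ≤ V := (huU i).trans (by exact_mod_cast hUV)
  have hE0 : (0 : ℝ) < E := by exact_mod_cast hE
  have hT0 : 0 ≤ T := by
    have h1 : 1 ≤ 2 * m * U ^ 2 * X := Nat.one_le_iff_ne_zero.2 (by positivity)
    exact (Nat.cast_nonneg _).trans (hT 1 one_ne_zero h1)
  have hA0 := (hA i).card_pos
  refine fibre_count A i B hB _ ?_
  intro b
  set F := (A i).filter fun x => Function.update b i x ∈ B with hF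
  rcases F.eq_empty_or_nonempty with h0 | ⟨x₀, hx₀⟩
  · rw [h0, Finset.card_empty, Nat.cast_zero]
    positivity
  set r : ℤ := lin u (Function.update b i 0) with hr
  set r' : ℤ := lin v (Function.update b i 0) with hr'
  have hlin : ∀ x : ℕ, lin u (Function.update b i x) = u i * x + r := by
    intro x
    rw [lin_split u _ i]
    simp [hr]
  have hlin' : ∀ x : ℕ, lin v (Function.update b i x) = v i * x + r' := by
    intro x
    rw [lin_split v _ i]
    simp [hr']
  set W : ℤ := u i * r' - v i * r with hW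
  have hWx : ∀ x : ℕ, u i * lin v (Function.update b i x) - v i * lin u (Function.update b i x) = W := by
    intro x
    rw [hlin, hlin', hW]
    ring
  have hx₀B := (Finset.mem_filter.1 hx₀).2
  have hW0 : W ≠ 0 := by
    rw [← hWx x₀]
    exact (hbad _ hx₀B).1
  have hWle : W.natAbs ≤ 2 * m * U ^ 2 * X := by
    have h1 := lin_le hA U u huU (hB hx₀B)
    have h2 := lin_le hA U v hvU (hB hx₀B)
    have h3 : |W| ≤ 2 * m * U ^ 2 * X := by
      rw [← hWx x₀]
      calc |u i * lin v (Function.update b i x₀) - v i * lin u (Function.update b i x₀)| ≤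
          |u i * lin v (Function.update b i x₀)| + |v i * lin u (Function.update b i x₀)| :=
            abs_sub _ _
        _ = |u i| * |lin v (Function.update b i x₀)| + |v i| * |lin u (Function.update b i x₀)| := by
            rw [abs_mul, abs_mul]
        _ ≤ U * (m * U * X) + U * (m * U * X) := by
            have := huU i
            have := hvU i
            gcongr
        _ = 2 * m * U ^ 2 * X := by ring
    have h4 : (W.natAbs : ℤ) ≤ ((2 * m * U ^ 2 * X : ℕ) : ℤ) := by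
      rw [Int.natCast_natAbs]
      push_cast
      exact h3
    exact_mod_cast h4
  set J : Finset ℕ := W.natAbs.divisors.filter fun D => E ≤ D ∧ D ≤ 2 * V * X with hJ
  have hsub : F ⊆ J.biUnion fun D => (A i).filter fun x : ℕ => (D : ℤ) ∣ u i * x + r := by
    intro x hx
    rw [hF, Finset.mem_filter] at hx
    obtain ⟨D, hD1, hD2, hD3, hD4⟩ := (hbad _ hx.2).2
    refine Finset.mem_biUnion.2 ⟨D, ?_, ?_⟩
    · rw [hJ, Finset.mem_filter, Nat.mem_divisors]
      refine ⟨⟨?_, Int.natAbs_ne_zero.2 hW0⟩, hD1, hD2⟩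
      rw [← Int.natCast_dvd]
      rw [← hWx x]
      exact dvd_sub (dvd_mul_of_dvd_right hD4 _) (dvd_mul_of_dvd_right hD3 _)
    · rw [Finset.mem_filter]
      refine ⟨hx.1, ?_⟩
      rw [← hlin]
      exact hD3
  have h1 : (F.card : ℝ) ≤ ∑ D ∈ J,
      (((A i).filter fun x : ℕ => (D : ℤ) ∣ u i * x + r).card : ℝ) := by
    exact_mod_cast (Finset.card_le_card hsub).trans Finset.card_biUnion_le
  refine h1.trans ?_
  refine (Finset.sum_le_card_nsmul _ _ (K * (A i).card * (3 * V / (E : ℝ)) ^ θ) ?_).trans ?_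
  · intro D hD
    rw [hJ, Finset.mem_filter] at hD
    have hD1 : 1 ≤ D := hE.trans hD.2.1
    refine (mod_form (hA i) hθ0 hK hX (u i) r hi V D huV hD1 hD.2.2 _ (Finset.filter_subset _ _)
      (fun a ha => (Finset.mem_filter.1 ha).2)).trans ?_
    refine mul_le_mul_of_nonneg_left ?_ (mul_nonneg hK hA0.le)
    refine Real.rpow_le_rpow (div_nonneg (mul_nonneg (by norm_num) (Nat.cast_nonneg _))
      (Nat.cast_nonneg _)) ?_ hθ0
    have : (E : ℝ) ≤ D := by exact_mod_cast hD.2.1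
    exact div_le_div_of_nonneg_left (mul_nonneg (by norm_num) (Nat.cast_nonneg _)) hE0 this
  · rw [nsmul_eq_mul]
    have h2 : (J.card : ℝ) ≤ T := by
      have h3 : (J.card : ℝ) ≤ W.natAbs.divisors.card := by
        exact_mod_cast Finset.card_filter_le _ _
      exact h3.trans (hT _ (Int.natAbs_ne_zero.2 hW0) hWle)
    calc (J.card : ℝ) * (K * (A i).card * (3 * V / (E : ℝ)) ^ θ) ≤
        T * (K * (A i).card * (3 * V / (E : ℝ)) ^ θ) :=
          mul_le_mul_of_nonneg_right h2 (mul_nonneg (mul_nonneg hK hA0.le) (Real.rpow_nonneg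
            (div_nonneg (mul_nonneg (by norm_num) (Nat.cast_nonneg _)) (Nat.cast_nonneg _)) _))
      _ = K * (T * (3 * V / (E : ℝ)) ^ θ) * (A i).card := by ring

/-- No nonzero form with coefficients at most `U` is small or divisible by the `k`-th power of a large
number, and two non-proportional forms have no large common divisor. -/
def GoodG {m : ℕ} (k U Y E : ℕ) (a : Fin m → ℕ) : Prop :=
  (∀ u : Fin m → ℤ, u ≠ 0 → (∀ i, |u i| ≤ U) →
    (Y : ℤ) < |lin u a| ∧ ∀ e : ℕ, (e : ℤ) ^ k ∣ lin u a → e < E) ∧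
  ∀ u v : Fin m → ℤ, (∀ i, |u i| ≤ U) → (∀ i, |v i| ≤ U) → (∃ i j, u i * v j ≠ u j * v i) →
    ∀ D : ℕ, (D : ℤ) ∣ lin u a → (D : ℤ) ∣ lin v a → D < E

lemma card_box (m U : ℕ) (hU : 1 ≤ U) :
    ((Fintype.piFinset fun _ : Fin m => Finset.Icc (-(U : ℤ)) U).card : ℝ) ≤ (3 * U : ℝ) ^ m := by
  rw [Fintype.card_piFinset, Finset.prod_const, Int.card_Icc, Finset.card_univ, Fintype.card_fin]
  have h2 : ((U : ℤ) + 1 - -(U : ℤ)).toNat = 2 * U + 1 := by omega
  rw [h2]
  push_cast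
  have hUr : (1 : ℝ) ≤ U := by exact_mod_cast hU
  gcongr
  linarith

/-- the number of the bad tuples -/
theorem badG_card {m X k : ℕ} {θ γ K T : ℝ} {A : Fin m → Finset ℕ} (hA : ∀ i, Spread X θ K (A i))
    (hm : 1 ≤ m) (hθ0 : 0 ≤ θ) (hθ1 : θ ≤ 1) (hγ : 0 < γ) (hk : 1 + 2 * γ ≤ k * θ) (hK : 0 ≤ K)
    (hX : 1 ≤ X) (U Y E : ℕ) (hU : 1 ≤ U) (hE : 1 ≤ E)
    (hT : ∀ n : ℕ, n ≠ 0 → n ≤ 2 * m * U ^ 2 * X → (n.divisors.card : ℝ) ≤ T) :
    ∃ S : Finset (Fin m → ℕ), S ⊆ Fintype.piFinset A ∧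
      (∀ a ∈ Fintype.piFinset A, a ∉ S → GoodG k U Y E a) ∧
      (S.card : ℝ) ≤ (3 * (2 * U ^ 2 : ℕ) : ℝ) ^ m * (K * ((((2 * Y + 1 : ℕ) : ℝ) / X) ^ θ +
      3 * (m * (2 * U ^ 2) : ℕ) * ((∑' n : ℕ, 1 / (n : ℝ) ^ (1 + γ)) * (E : ℝ) ^ (-γ))) *
        ∏ j, ((A j).card : ℝ)) +
      (3 * U : ℝ) ^ m * (3 * U : ℝ) ^ m * (K * (T * (3 * (m * U : ℕ) / (E : ℝ)) ^ θ) *
        ∏ j, ((A j).card : ℝ)) := by
  classical
  have hk0 : k ≠ 0 := by
    rintro rfl
    simp only [Nat.cast_zero, zero_mul] at hk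
    linarith
  have hprod : 0 ≤ ∏ j, ((A j).card : ℝ) := Finset.prod_nonneg fun j _ => Nat.cast_nonneg _
  set U' : ℕ := 2 * U ^ 2 with hU'
  have hUU' : U ≤ U' := by rw [hU']; nlinarith
  have hU'1 : 1 ≤ U' := hU.trans hUU'
  set I : Finset (Fin m → ℤ) :=
    (Fintype.piFinset fun _ : Fin m => Finset.Icc (-(U' : ℤ)) U').filter fun u => u ≠ 0 with hI
  have hIc : (I.card : ℝ) ≤ (3 * U' : ℝ) ^ m :=
    (Nat.cast_le.2 (Finset.card_filter_le _ _)).trans (card_box m U' hU'1)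
  set P : (Fin m → ℤ) → (Fin m → ℕ) → Prop := fun u a => |lin u a| ≤ (Y : ℤ) ∨
    ∃ e : ℕ, E ≤ e ∧ e ^ k ≤ 2 * (m * U') * X ∧ (e : ℤ) ^ k ∣ lin u a with hP
  set S₁ : Finset (Fin m → ℕ) :=
    I.biUnion fun u => (Fintype.piFinset A).filter fun a => P u a with hS₁
  set Bx : Finset (Fin m → ℤ) := Fintype.piFinset fun _ : Fin m => Finset.Icc (-(U : ℤ)) U with hBx
  -- the choice of the coordinate
  set c : (Fin m → ℤ) → Option (Fin m) := fun u =>
    if h : ∃ i, u i ≠ 0 then some h.choose else none with hc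
  set Q' : (Fin m → ℤ) → (Fin m → ℤ) → (Fin m → ℕ) → Prop := fun u v a =>
    ∃ i ∈ c u, u i * lin v a - v i * lin u a ≠ 0 ∧
      ∃ D : ℕ, E ≤ D ∧ D ≤ 2 * (m * U) * X ∧ (D : ℤ) ∣ lin u a ∧ (D : ℤ) ∣ lin v a with hQ'
  set S₂ : Finset (Fin m → ℕ) :=
    (Bx ×ˢ Bx).biUnion fun w => (Fintype.piFinset A).filter fun a => Q' w.1 w.2 a with hS₂
  have hmem : ∀ u ∈ Bx, ∀ i, |u i| ≤ U := fun u hu i =>
    abs_le.2 (Finset.mem_Icc.1 (Fintype.mem_piFinset.1 hu i))
  have hmem' : ∀ u : Fin m → ℤ, (∀ i, |u i| ≤ U) → u ∈ Bx := fun u hu =>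
    Fintype.mem_piFinset.2 fun i => Finset.mem_Icc.2 (abs_le.1 (hu i))
  refine ⟨S₁ ∪ S₂, ?_, ?_, ?_⟩
  · refine Finset.union_subset ?_ ?_
    · intro a ha
      obtain ⟨u, _, hu⟩ := Finset.mem_biUnion.1 ha
      exact (Finset.mem_filter.1 hu).1
    · intro a ha
      obtain ⟨u, _, hu⟩ := Finset.mem_biUnion.1 ha
      exact (Finset.mem_filter.1 hu).1
  · intro a haA ha
    rw [Finset.mem_union, not_or] at ha
    have hfirst : ∀ u : Fin m → ℤ, u ≠ 0 → (∀ i, |u i| ≤ U') →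
        (Y : ℤ) < |lin u a| ∧ ∀ e : ℕ, (e : ℤ) ^ k ∣ lin u a → e < E := by
      intro u hu huU
      have huI : u ∈ I := by
        rw [hI, Finset.mem_filter, Fintype.mem_piFinset]
        exact ⟨fun i => Finset.mem_Icc.2 (abs_le.1 (huU i)), hu⟩
      have hnP : ¬ P u a := fun h =>
        ha.1 (Finset.mem_biUnion.2 ⟨u, huI, Finset.mem_filter.2 ⟨haA, h⟩⟩)
      rw [hP] at hnP
      simp only [not_or, not_le, not_exists, not_and] at hnP
      refine ⟨hnP.1, fun e he => ?_⟩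
      by_contra hcon
      push Not at hcon
      refine hnP.2 e hcon ?_ he
      have hL : lin u a ≠ 0 := by
        intro h0
        have := hnP.1
        rw [h0, abs_zero] at this
        omega
      have h4 : (e : ℤ) ^ k ≤ |lin u a| := Int.le_of_dvd (abs_pos.2 hL) ((dvd_abs _ _).2 he)
      have h5 := lin_le hA U' u huU haA
      have h6 : e ^ k ≤ m * U' * X := by exact_mod_cast h4.trans h5
      calc e ^ k ≤ m * U' * X := h6
        _ ≤ 2 * (m * U') * X := by nlinarith [Nat.zero_le (m * U' * X)]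
    refine ⟨fun u hu huU => hfirst u hu fun i => (huU i).trans (by exact_mod_cast hUU'), ?_⟩
    intro u v huU hvU ⟨i₀, j₀, hij⟩ D hDu hDv
    by_contra hcon
    push Not at hcon
    have hu0 : ∃ i, u i ≠ 0 := by
      by_contra h0
      push Not at h0
      rw [h0 i₀, h0 j₀] at hij
      simp at hij
    obtain ⟨i, hi⟩ : ∃ i, i ∈ c u := by
      rw [hc]
      simp only [dif_pos hu0]
      exact ⟨_, rfl⟩
    have hci : u i ≠ 0 := by
      rw [hc] at hi
      simp only [dif_pos hu0, Option.mem_def, Option.some.injEq] at hi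
      rw [← hi]
      exact hu0.choose_spec
    -- the form without the coordinate `i`
    set w : Fin m → ℤ := fun j => u i * v j - v i * u j with hw
    have hwne : w ≠ 0 := by
      intro h0
      have h1 : ∀ j, u i * v j = v i * u j := by
        intro j
        have := congrFun h0 j
        simp only [hw, Pi.zero_apply] at this
        linarith
      apply hij
      have h2 : u i * (u i₀ * v j₀) = u i * (u j₀ * v i₀) := by
        calc u i * (u i₀ * v j₀) = u i₀ * (u i * v j₀) := by ring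
          _ = u i₀ * (v i * u j₀) := by rw [h1 j₀]
          _ = u j₀ * (v i * u i₀) := by ring
          _ = u j₀ * (u i * v i₀) := by rw [h1 i₀]
          _ = _ := by ring
      exact mul_left_cancel₀ hci h2
    have hwU : ∀ j, |w j| ≤ U' := by
      intro j
      calc |w j| ≤ |u i * v j| + |v i * u j| := abs_sub _ _
        _ = |u i| * |v j| + |v i| * |u j| := by rw [abs_mul, abs_mul]
        _ ≤ U * U + U * U := by
            have := huU i
            have := huU j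
            have := hvU i
            have := hvU j
            gcongr
        _ = ((2 * U ^ 2 : ℕ) : ℤ) := by push_cast; ring
    have hwlin : lin w a = u i * lin v a - v i * lin u a := by
      unfold lin
      rw [Finset.mul_sum, Finset.mul_sum, ← Finset.sum_sub_distrib]
      refine Finset.sum_congr rfl fun j _ => ?_
      rw [hw]
      ring
    have hw1 := (hfirst w hwne hwU).1
    have hw0 : u i * lin v a - v i * lin u a ≠ 0 := by
      rw [← hwlin]
      intro h0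
      rw [h0, abs_zero] at hw1
      omega
    have hu1 := (hfirst u (Function.ne_iff.2 hu0) fun i => (huU i).trans (by exact_mod_cast hUU')).1
    have hL : lin u a ≠ 0 := by
      intro h0
      rw [h0, abs_zero] at hu1
      omega
    have h4 : (D : ℤ) ≤ |lin u a| := Int.le_of_dvd (abs_pos.2 hL) ((dvd_abs _ _).2 hDu)
    have h5 := lin_le hA U u huU haA
    have h6 : D ≤ m * U * X := by exact_mod_cast h4.trans h5
    refine ha.2 (Finset.mem_biUnion.2 ⟨(u, v), Finset.mem_product.2 ⟨hmem' u huU, hmem' v hvU⟩,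
      Finset.mem_filter.2 ⟨haA, i, hi, hw0, D, hcon, ?_, hDu, hDv⟩⟩)
    calc D ≤ m * U * X := h6
      _ ≤ 2 * (m * U) * X := by nlinarith [Nat.zero_le (m * U * X)]
  · have h1 : ((S₁ ∪ S₂).card : ℝ) ≤ S₁.card + S₂.card := by
      exact_mod_cast Finset.card_union_le _ _
    refine h1.trans (add_le_add ?_ ?_)
    · have h1 : (S₁.card : ℝ) ≤ ∑ u ∈ I, (((Fintype.piFinset A).filter fun a => P u a).card : ℝ) := by
        exact_mod_cast Finset.card_biUnion_le
      refine h1.trans ?_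
      refine (Finset.sum_le_card_nsmul _ _ (K * ((((2 * Y + 1 : ℕ) : ℝ) / X) ^ θ +
        3 * (m * U' : ℕ) * ((∑' n : ℕ, 1 / (n : ℝ) ^ (1 + γ)) * (E : ℝ) ^ (-γ))) *
          ∏ j, ((A j).card : ℝ)) ?_).trans ?_
      · intro u hu
        rw [hI, Finset.mem_filter, Fintype.mem_piFinset] at hu
        exact one_formK hA hθ0 hθ1 hγ hk hK hX U' Y E hU'1 hE u hu.2
          (fun i => abs_le.2 (Finset.mem_Icc.1 (hu.1 i))) _ (Finset.filter_subset _ _)
          (fun a ha => (Finset.mem_filter.1 ha).2)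
      · rw [nsmul_eq_mul]
        have hZ : 0 ≤ ∑' n : ℕ, 1 / (n : ℝ) ^ (1 + γ) := tsum_nonneg fun n => by positivity
        generalize (∑' n : ℕ, 1 / (n : ℝ) ^ (1 + γ)) = Z at hZ ⊢
        have h2 : 0 ≤ (((2 * Y + 1 : ℕ) : ℝ) / X) ^ θ := Real.rpow_nonneg (by positivity) _
        have h3 : 0 ≤ (E : ℝ) ^ (-γ) := Real.rpow_nonneg (Nat.cast_nonneg E) _
        have h4 : 0 ≤ 3 * ((m * U' : ℕ) : ℝ) := mul_nonneg (by norm_num) (Nat.cast_nonneg _)
        exact mul_le_mul_of_nonneg_right hIc (mul_nonneg (mul_nonneg hK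
          (add_nonneg h2 (mul_nonneg h4 (mul_nonneg hZ h3)))) hprod)
    · have h1 : (S₂.card : ℝ) ≤ ∑ w ∈ Bx ×ˢ Bx,
          (((Fintype.piFinset A).filter fun a => Q' w.1 w.2 a).card : ℝ) := by
        exact_mod_cast Finset.card_biUnion_le
      refine h1.trans ?_
      have hT0 : 0 ≤ K * (T * (3 * (m * U : ℕ) / (E : ℝ)) ^ θ) * ∏ j, ((A j).card : ℝ) := by
        have h1 : 1 ≤ 2 * m * U ^ 2 * X := Nat.one_le_iff_ne_zero.2 (by positivity)
        have h2 : 0 ≤ T := (Nat.cast_nonneg _).trans (hT 1 one_ne_zero h1)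
        exact mul_nonneg (mul_nonneg hK (mul_nonneg h2 (Real.rpow_nonneg
            (div_nonneg (mul_nonneg (by norm_num) (Nat.cast_nonneg _)) (Nat.cast_nonneg _)) _))) hprod
      refine (Finset.sum_le_card_nsmul _ _ (
        K * (T * (3 * (m * U : ℕ) / (E : ℝ)) ^ θ) * ∏ j, ((A j).card : ℝ)) ?_).trans ?_
      · intro w hw
        rw [Finset.mem_product] at hw
        rcases Option.eq_none_or_eq_some (c w.1) with hcw | ⟨i, hcw⟩
        · have : ((Fintype.piFinset A).filter fun a => Q' w.1 w.2 a) = ∅ := by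
            rw [Finset.filter_eq_empty_iff]
            rintro a - ⟨i, hi, _⟩
            rw [hcw] at hi
            simp at hi
          rw [this, Finset.card_empty, Nat.cast_zero]
          exact hT0
        · have hi : w.1 i ≠ 0 := by
            rw [hc] at hcw
            simp only at hcw
            split_ifs at hcw with h
            simp only [Option.some.injEq] at hcw
            rw [← hcw]
            exact h.choose_spec
          refine two_forms hA hθ0 hK hX U E hU hE hT w.1 w.2 i hi (hmem _ hw.1) (hmem _ hw.2) _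
            (Finset.filter_subset _ _) ?_
          intro a ha
          obtain ⟨j, hj, h3, h4⟩ := (Finset.mem_filter.1 ha).2
          rw [hcw] at hj
          simp only [Option.mem_def, Option.some.injEq] at hj
          subst hj
          exact ⟨h3, h4⟩
      · rw [nsmul_eq_mul, Finset.card_product]
        push_cast
        have hb := card_box m U hU
        rw [← hBx] at hb
        push_cast at hT0
        refine mul_le_mul_of_nonneg_right ?_ hT0
        have h3 : (0 : ℝ) ≤ Bx.card := Nat.cast_nonneg _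
        gcongr

end Pool.Agent.W5h37.Thin
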