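import Pool.Agent.W5h37.Thin.Main

/-!
# Smooth numbers are spread out along arithmetic progressions
-/

set_option autoImplicit false

namespace Pool.Agent.W5h37.Thin

open Finset Filter

/-- a smooth number larger than `N` has a divisor slightly larger than `N` -/
lemma exists_divisor {k N : ℕ} (hN : 1 ≤ N) :
    ∀ a : ℕ, a ∈ Nat.smoothNumbers k → N < a → ∃ m, m ∣ a ∧ N < m ∧ m ≤ N * k := by
  intro a
  induction a using Nat.strong_induction_on with
  | _ a ih =>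
    intro ha hNa
    by_cases hak : a ≤ N * k
    · exact ⟨a, dvd_rfl, hNa, hak⟩
    push Not at hak
    have ha1 : a ≠ 1 := by omega
    have hp := Nat.minFac_prime ha1
    have hpk : a.minFac < k := Nat.mem_smoothNumbers'.1 ha _ hp (Nat.minFac_dvd a)
    obtain ⟨b, hb⟩ := Nat.minFac_dvd a
    have hb0 : b ≠ 0 := by
      rintro rfl
      rw [mul_zero] at hb
      omega
    have hNb : N < b := by
      by_contra hcon
      push Not at hcon
      have h1 : a.minFac * b ≤ k * N := Nat.mul_le_mul hpk.le hcon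
      rw [← hb, mul_comm k N] at h1
      omega
    have hba : b < a := by
      have h2 := hp.two_le
      have : 2 * b ≤ a.minFac * b := Nat.mul_le_mul_right _ h2
      rw [← hb] at this
      omega
    obtain ⟨m, h1, h2, h3⟩ := ih b hba (Nat.mem_smoothNumbers_of_dvd ha ⟨a.minFac, by
      rw [mul_comm]; exact hb⟩) hNb
    exact ⟨m, h1.trans ⟨a.minFac, by rw [mul_comm]; exact hb⟩, h2, h3⟩

/-- smooth numbers in a progression whose first term and difference are coprime -/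
lemma prog_coprime {k N c d : ℕ} (hN : 1 ≤ N) (hk : 1 ≤ k) (hcd : Nat.Coprime c d) (S : Finset ℕ)
    (hS : ∀ a ∈ S, a ∈ Nat.smoothNumbers k ∧ ∃ j < N, a = c + j * d) :
    S.card ≤ 2 * (Nat.smoothNumbersUpTo (N * k) k).card := by
  classical
  have h1 : (S.filter fun a => a ≤ N).card ≤ (Nat.smoothNumbersUpTo (N * k) k).card := by
    refine Finset.card_le_card ?_
    intro a ha
    rw [Finset.mem_filter] at ha
    rw [Nat.mem_smoothNumbersUpTo]
    exact ⟨ha.2.trans (Nat.le_mul_of_pos_right _ hk), (hS a ha.1).1⟩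
  have h2 : (S.filter fun a => ¬ a ≤ N).card ≤ (Nat.smoothNumbersUpTo (N * k) k).card := by
    have hex : ∀ a : ℕ, ∃ m : ℕ, a ∈ Nat.smoothNumbers k → N < a → m ∣ a ∧ N < m ∧ m ≤ N * k := by
      intro a
      by_cases h : a ∈ Nat.smoothNumbers k ∧ N < a
      · obtain ⟨m, hm⟩ := exists_divisor hN a h.1 h.2
        exact ⟨m, fun _ _ => hm⟩
      · exact ⟨0, fun h1 h2 => absurd ⟨h1, h2⟩ h⟩
    choose f hf using hex
    refine Finset.card_le_card_of_injOn f ?_ ?_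
    · intro a ha
      rw [Finset.mem_coe, Finset.mem_filter, not_le] at ha
      have h3 := hf a (hS a ha.1).1 ha.2
      rw [Finset.mem_coe, Nat.mem_smoothNumbersUpTo]
      exact ⟨h3.2.2, Nat.mem_smoothNumbers_of_dvd (hS a ha.1).1 h3.1⟩
    · intro a ha b hb hab
      rw [Finset.mem_coe, Finset.mem_filter, not_le] at ha hb
      obtain ⟨i, hi, ei⟩ := (hS a ha.1).2
      obtain ⟨j, hj, ej⟩ := (hS b hb.1).2
      have h3 := hf a (hS a ha.1).1 ha.2
      have h4 := hf b (hS b hb.1).1 hb.2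
      rw [← hab] at h4
      have hcop : Nat.Coprime (f a) d := by
        have : Nat.Coprime a d := by
          rw [ei]
          exact (Nat.coprime_add_mul_right_left c d i).2 hcd
        exact Nat.Coprime.coprime_dvd_left h3.1 this
      have h5 : (f a : ℤ) ∣ ((i : ℤ) - j) * d := by
        have h6 : (f a : ℤ) ∣ (a : ℤ) - b :=
          dvd_sub (Int.natCast_dvd_natCast.2 h3.1) (Int.natCast_dvd_natCast.2 h4.1)
        have e : (a : ℤ) - b = ((i : ℤ) - j) * d := by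
          rw [ei, ej]
          push_cast
          ring
        rwa [e] at h6
      have h6 : (f a : ℤ) ∣ (i : ℤ) - j :=
        (Nat.isCoprime_iff_coprime.2 hcop).dvd_of_dvd_mul_right h5
      have h7 : (i : ℤ) - j = 0 := by
        apply Int.eq_zero_of_abs_lt_dvd h6
        rw [abs_lt]
        constructor <;> omega
      have : i = j := by omega
      rw [ei, ej, this]
  have h3 := Finset.card_filter_add_card_filter_not (s := S) (fun a => a ≤ N)
  omega

/-- smooth numbers in a progression -/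
lemma prog {k N c d : ℕ} (hN : 1 ≤ N) (hk : 1 ≤ k) (hd : 1 ≤ d) (S : Finset ℕ)
    (hS : ∀ a ∈ S, a ∈ Nat.smoothNumbers k ∧ ∃ j < N, a = c + j * d) :
    S.card ≤ 2 * (Nat.smoothNumbersUpTo (N * k) k).card := by
  classical
  set g := Nat.gcd c d with hg
  have hg0 : 0 < g := Nat.gcd_pos_of_pos_right _ hd
  have hdvd : ∀ a ∈ S, g ∣ a := by
    intro a ha
    obtain ⟨j, hj, e⟩ := (hS a ha).2
    rw [e]
    exact dvd_add (Nat.gcd_dvd_left _ _) (dvd_mul_of_dvd_right (Nat.gcd_dvd_right _ _) _)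
  have hc : (S.image fun a => a / g).card = S.card := by
    refine Finset.card_image_of_injOn ?_
    intro a ha b hb h
    simp only at h
    rw [← Nat.mul_div_cancel' (hdvd a ha), ← Nat.mul_div_cancel' (hdvd b hb), h]
  rw [← hc]
  refine prog_coprime (c := c / g) (d := d / g) hN hk (Nat.coprime_div_gcd_div_gcd hg0) _ ?_
  intro t ht
  obtain ⟨a, ha, rfl⟩ := Finset.mem_image.1 ht
  refine ⟨Nat.mem_smoothNumbers_of_dvd (hS a ha).1 (Nat.div_dvd_of_dvd (hdvd a ha)), ?_⟩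
  obtain ⟨j, hj, e⟩ := (hS a ha).2
  refine ⟨j, hj, ?_⟩
  have h1 : g * (c / g) = c := Nat.mul_div_cancel' (Nat.gcd_dvd_left _ _)
  have h2 : g * (d / g) = d := Nat.mul_div_cancel' (Nat.gcd_dvd_right _ _)
  apply Nat.eq_of_mul_eq_mul_left hg0
  rw [Nat.mul_div_cancel' (hdvd a ha), mul_add, h1]
  calc a = c + j * d := e
    _ = c + j * (g * (d / g)) := by rw [h2]
    _ = _ := by ring

/-- the function `n ↦ n ^ (-σ)` as a monoid homomorphism -/
noncomputable def powHom (σ : ℝ) : ℕ →* ℝ where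
  toFun n := (n : ℝ) ^ (-σ)
  map_one' := by simp
  map_mul' m n := by
    push_cast
    exact Real.mul_rpow (Nat.cast_nonneg _) (Nat.cast_nonneg _)

/-- Rankin's bound -/
lemma rankin {σ : ℝ} (hσ : 0 < σ) (Z k : ℕ) :
    ((Nat.smoothNumbersUpTo Z k).card : ℝ) ≤
      (Z : ℝ) ^ σ * ∏ p ∈ k.primesBelow, (1 - (p : ℝ) ^ (-σ))⁻¹ := by
  have h := EulerProduct.summable_and_hasSum_smoothNumbers_prod_primesBelow_geometric
    (f := powHom σ) (by
      intro p hp
      have hp1 : (1 : ℝ) < p := by exact_mod_cast hp.one_lt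
      show ‖(p : ℝ) ^ (-σ)‖ < 1
      rw [Real.norm_of_nonneg (by positivity)]
      exact Real.rpow_lt_one_of_one_lt_of_neg hp1 (by linarith)) k
  have h1 : ∑ a ∈ Nat.smoothNumbersUpTo Z k, (a : ℝ) ^ (-σ) ≤
      ∏ p ∈ k.primesBelow, (1 - (p : ℝ) ^ (-σ))⁻¹ := by
    have h2 : ∏ p ∈ k.primesBelow, (1 - (p : ℝ) ^ (-σ))⁻¹ =
        ∑' m : Nat.smoothNumbers k, ((m : ℕ) : ℝ) ^ (-σ) := h.2.tsum_eq.symm
    rw [h2]
    have hsub : ∀ a ∈ Nat.smoothNumbersUpTo Z k, a ∈ Nat.smoothNumbers k :=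
      fun a ha => (Nat.mem_smoothNumbersUpTo.1 ha).2
    rw [← Finset.sum_subtype_of_mem (p := fun a => a ∈ Nat.smoothNumbers k)
      (f := fun a : ℕ => (a : ℝ) ^ (-σ)) hsub]
    refine Summable.sum_le_tsum _ (fun i _ => by positivity) h.2.summable
  have hle : ∀ a ∈ Nat.smoothNumbersUpTo Z k, (1 : ℝ) ≤ (Z : ℝ) ^ σ * (a : ℝ) ^ (-σ) := by
    intro a ha
    rw [Nat.mem_smoothNumbersUpTo] at ha
    have ha0 : (0 : ℝ) < a := by
      have := ha.2.1
      exact_mod_cast Nat.pos_of_ne_zero this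
    have h3 : (a : ℝ) ≤ Z := by exact_mod_cast ha.1
    have h4 : (a : ℝ) ^ σ ≤ (Z : ℝ) ^ σ := Real.rpow_le_rpow ha0.le h3 hσ.le
    have h5 : (a : ℝ) ^ σ * (a : ℝ) ^ (-σ) = 1 := by
      rw [← Real.rpow_add ha0, add_neg_cancel, Real.rpow_zero]
    rw [← h5]
    gcongr
  calc ((Nat.smoothNumbersUpTo Z k).card : ℝ) = ∑ a ∈ Nat.smoothNumbersUpTo Z k, (1 : ℝ) := by simp
    _ ≤ ∑ a ∈ Nat.smoothNumbersUpTo Z k, (Z : ℝ) ^ σ * (a : ℝ) ^ (-σ) := Finset.sum_le_sum hle
    _ = (Z : ℝ) ^ σ * ∑ a ∈ Nat.smoothNumbersUpTo Z k, (a : ℝ) ^ (-σ) := by rw [Finset.mul_sum]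
    _ ≤ _ := by gcongr

lemma euler_le {σ : ℝ} (hσ : 1 / 2 ≤ σ) (k : ℕ) :
    ∏ p ∈ k.primesBelow, (1 - (p : ℝ) ^ (-σ))⁻¹ ≤
      Real.exp (4 * ∑ p ∈ k.primesBelow, (p : ℝ) ^ (-σ)) := by
  rw [Finset.mul_sum, Real.exp_sum]
  have hx : ∀ p ∈ k.primesBelow, 0 ≤ (p : ℝ) ^ (-σ) ∧ (p : ℝ) ^ (-σ) ≤ 3 / 4 := by
    intro p hp
    have hp2 : (2 : ℝ) ≤ p := by exact_mod_cast (Nat.prime_of_mem_primesBelow hp).two_le
    refine ⟨by positivity, ?_⟩
    calc (p : ℝ) ^ (-σ) ≤ (2 : ℝ) ^ (-σ) :=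
          Real.rpow_le_rpow_of_nonpos (by norm_num) hp2 (by linarith)
      _ ≤ (2 : ℝ) ^ (-(1 / 2) : ℝ) := Real.rpow_le_rpow_of_exponent_le (by norm_num) (by linarith)
      _ ≤ 3 / 4 := by
          rw [Real.rpow_neg (by norm_num), ← Real.sqrt_eq_rpow]
          rw [inv_le_comm₀ (by positivity) (by norm_num)]
          apply Real.le_sqrt_of_sq_le
          norm_num
  refine Finset.prod_le_prod (fun p hp => ?_) fun p hp => ?_
  · have := hx p hp
    exact inv_nonneg.2 (by linarith)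
  · have h1 := hx p hp
    set x := (p : ℝ) ^ (-σ)
    have h2 : (1 - x)⁻¹ ≤ 1 + 4 * x := by
      rw [inv_le_iff_one_le_mul₀ (by linarith)]
      nlinarith
    refine h2.trans ?_
    have := Real.add_one_le_exp (4 * x)
    linarith

lemma primes_sum {σ γ : ℝ} (hγ : 0 < γ) (k : ℕ) :
    ∑ p ∈ k.primesBelow, (p : ℝ) ^ (-σ) ≤
      max 1 ((k : ℝ) ^ (1 - σ + γ)) * ∑' n : ℕ, 1 / (n : ℝ) ^ (1 + γ) := by
  have hsum : ∑ p ∈ k.primesBelow, 1 / (p : ℝ) ^ (1 + γ) ≤ ∑' n : ℕ, 1 / (n : ℝ) ^ (1 + γ) :=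
    Summable.sum_le_tsum _ (fun i _ => by positivity)
      (Real.summable_one_div_nat_rpow.2 (by linarith))
  refine le_trans ?_ (mul_le_mul_of_nonneg_left hsum (by positivity))
  rw [Finset.mul_sum]
  refine Finset.sum_le_sum fun p hp => ?_
  have hp0 : (0 : ℝ) < p := by exact_mod_cast (Nat.prime_of_mem_primesBelow hp).pos
  have hp1 : (1 : ℝ) ≤ p := by exact_mod_cast (Nat.prime_of_mem_primesBelow hp).one_lt.le
  have hpk : (p : ℝ) ≤ k := by exact_mod_cast (Nat.lt_of_mem_primesBelow hp).le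
  have e : (p : ℝ) ^ (-σ) = (p : ℝ) ^ (1 - σ + γ) * (1 / (p : ℝ) ^ (1 + γ)) := by
    rw [one_div, ← Real.rpow_neg hp0.le, ← Real.rpow_add hp0]
    congr 1
    ring
  rw [e]
  refine mul_le_mul_of_nonneg_right ?_ (by positivity)
  rcases le_or_gt 0 (1 - σ + γ) with h | h
  · exact (Real.rpow_le_rpow hp0.le hpk h).trans (le_max_right _ _)
  · exact (Real.rpow_le_one_of_one_le_of_nonpos hp1 h.le).trans (le_max_left _ _)

end Pool.Agent.W5h37.Thin
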